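import Mathlib

set_option autoImplicit false

/-!
Finitely supported functions with the norm of `ℓ^q`.
-/

namespace Pool.Agent.H724R3.N

open Filter Topology
open scoped ENNReal

noncomputable section

/-- finitely supported functions (with the norm of `ℓ^q`) -/
def Fs (ι : Type) (_q : ℝ≥0∞) : Type := ι →₀ ℂ

instance (ι : Type) (q : ℝ≥0∞) : AddCommGroup (Fs ι q) := inferInstanceAs (AddCommGroup (ι →₀ ℂ))
instance (ι : Type) (q : ℝ≥0∞) : Module ℂ (Fs ι q) := inferInstanceAs (Module ℂ (ι →₀ ℂ))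

/-- the unit vectors -/
def Fs.e {ι : Type} {q : ℝ≥0∞} (k : ι) : Fs ι q := (Finsupp.single k 1 : ι →₀ ℂ)

/-- the coordinates -/
def Fs.c {ι : Type} {q : ℝ≥0∞} (z : Fs ι q) (k : ι) : ℂ := (show ι →₀ ℂ from z) k

/-- the embedding into `ℓ^q` -/
def Fs.toLp (ι : Type) (q : ℝ≥0∞) : Fs ι q →ₗ[ℂ] lp (fun _ : ι => ℂ) q where
  toFun z := ⟨fun k => z.c k, by
    have h0 : Memℓp (fun k => z.c k) (0 : ℝ≥0∞) := by
      refine memℓp_zero ?_
      exact (Finsupp.hasFiniteSupport (show ι →₀ ℂ from z)).subset (fun k hk => hk)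
    exact h0.of_exponent_ge zero_le⟩
  map_add' _ _ := rfl
  map_smul' _ _ := rfl

lemma Fs.toLp_apply {ι : Type} {q : ℝ≥0∞} (z : Fs ι q) (k : ι) : Fs.toLp ι q z k = z.c k := rfl

lemma Fs.ext' {ι : Type} {q : ℝ≥0∞} {z w : Fs ι q} (h : ∀ k, z.c k = w.c k) : z = w :=
  Finsupp.ext h

lemma Fs.toLp_inj (ι : Type) (q : ℝ≥0∞) : Function.Injective (Fs.toLp ι q) := by
  intro z w h
  refine Fs.ext' fun k => ?_
  have := congrArg (fun f : lp (fun _ : ι => ℂ) q => f k) h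
  exact this

instance (ι : Type) (q : ℝ≥0∞) [Fact (1 ≤ q)] : NormedAddCommGroup (Fs ι q) :=
  NormedAddCommGroup.induced (Fs ι q) (lp (fun _ : ι => ℂ) q) (Fs.toLp ι q) (Fs.toLp_inj ι q)

instance (ι : Type) (q : ℝ≥0∞) [Fact (1 ≤ q)] : NormedSpace ℂ (Fs ι q) :=
  NormedSpace.induced ℂ (Fs ι q) (lp (fun _ : ι => ℂ) q) (Fs.toLp ι q)

lemma Fs.norm_def {ι : Type} {q : ℝ≥0∞} [Fact (1 ≤ q)] (z : Fs ι q) :
    ‖z‖ = ‖Fs.toLp ι q z‖ := rfl

/-- finitely supported functions with the sup norm -/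
abbrev Zi (ι : Type) : Type := Fs ι ⊤

/-- finitely supported functions with the norm of `ℓ^1` -/
abbrev Zo (ι : Type) : Type := Fs ι 1

lemma Fs.decomp {ι : Type} {q : ℝ≥0∞} (z : Fs ι q) :
    z = ∑ k ∈ (show ι →₀ ℂ from z).support, z.c k • (Fs.e k : Fs ι q) := by
  have h := Finsupp.sum_single (show ι →₀ ℂ from z)
  refine h.symm.trans (Finset.sum_congr rfl fun k _ => ?_)
  show Finsupp.single k (z.c k) = z.c k • Finsupp.single k (1 : ℂ)
  rw [Finsupp.smul_single, smul_eq_mul, mul_one]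

lemma Fs.ext_map {ι : Type} {q : ℝ≥0∞} {M : Type*} [AddCommGroup M] [Module ℂ M]
    {f g : Fs ι q →ₗ[ℂ] M} (h : ∀ k, f (Fs.e k) = g (Fs.e k)) : f = g := by
  ext z
  rw [Fs.decomp z, map_sum, map_sum]
  exact Finset.sum_congr rfl fun k _ => by rw [map_smul, map_smul, h]

lemma Zi.norm_le {ι : Type} {z : Zi ι} {C : ℝ} (hC : 0 ≤ C) (h : ∀ k, ‖z.c k‖ ≤ C) :
    ‖z‖ ≤ C := by
  rw [Fs.norm_def]
  exact lp.norm_le_of_forall_le hC fun k => h k

lemma Zi.c_le {ι : Type} (z : Zi ι) (k : ι) : ‖z.c k‖ ≤ ‖z‖ := by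
  rw [Fs.norm_def]
  exact lp.norm_apply_le_norm ENNReal.top_ne_zero (Fs.toLp ι ⊤ z) k

lemma Zo.sum_le {ι : Type} (z : Zo ι) (s : Finset ι) : ∑ k ∈ s, ‖z.c k‖ ≤ ‖z‖ := by
  have h := lp.sum_rpow_le_norm_rpow (p := 1) (by norm_num) (Fs.toLp ι 1 z) s
  simpa [Fs.norm_def, Fs.toLp_apply] using h

lemma Fs.c_e {ι : Type} {q : ℝ≥0∞} (k j : ι) [Decidable (k = j)] :
    (Fs.e k : Fs ι q).c j = if k = j then 1 else 0 := by
  show (Finsupp.single k (1 : ℂ)) j = _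
  rw [Finsupp.single_apply]

lemma Fs.norm_e {ι : Type} {q : ℝ≥0∞} [Fact (1 ≤ q)] (k : ι) : ‖(Fs.e k : Fs ι q)‖ = 1 := by
  classical
  rw [Fs.norm_def]
  have h : Fs.toLp ι q (Fs.e k) = lp.single q k (1 : ℂ) := by
    ext j
    rw [Fs.toLp_apply, Fs.c_e, lp.single_apply, Pi.single_apply]
    simp [eq_comm]
  rw [h, lp.norm_single (lt_of_lt_of_le zero_lt_one (Fact.out : 1 ≤ q))]
  simp

/-- the linear map given by a family -/
def Fs.lin {ι : Type} {q : ℝ≥0∞} {X : Type} [AddCommGroup X] [Module ℂ X] (x : ι → X) :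
    Fs ι q →ₗ[ℂ] X where
  toFun z := Finsupp.linearCombination ℂ x (show ι →₀ ℂ from z)
  map_add' z w := map_add (Finsupp.linearCombination ℂ x) (show ι →₀ ℂ from z)
    (show ι →₀ ℂ from w)
  map_smul' r z := map_smul (Finsupp.linearCombination ℂ x) r (show ι →₀ ℂ from z)

lemma Fs.lin_apply {ι : Type} {q : ℝ≥0∞} {X : Type} [AddCommGroup X] [Module ℂ X] (x : ι → X)
    (z : Fs ι q) : Fs.lin x z = ∑ k ∈ (show ι →₀ ℂ from z).support, z.c k • x k := by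
  show Finsupp.linearCombination ℂ x (show ι →₀ ℂ from z) = _
  rw [Finsupp.linearCombination_apply]
  rfl

lemma Fs.lin_e {ι : Type} {q : ℝ≥0∞} {X : Type} [AddCommGroup X] [Module ℂ X] (x : ι → X)
    (k : ι) : Fs.lin x (Fs.e k : Fs ι q) = x k := by
  show Finsupp.linearCombination ℂ x (Finsupp.single k 1) = x k
  simp

/-- a bounded operator on finitely supported functions from a bounded family, `ℓ^1` norm -/
def Zo.mk {ι : Type} {X : Type} [NormedAddCommGroup X] [NormedSpace ℂ X] (x : ι → X) (C : ℝ)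
    (h : ∀ k, ‖x k‖ ≤ C) : Zo ι →L[ℂ] X :=
  LinearMap.mkContinuous (Fs.lin x) C (by
    intro z
    rw [Fs.lin_apply]
    refine (norm_sum_le _ _).trans ?_
    have h2 : ∀ k ∈ (show ι →₀ ℂ from z).support, ‖z.c k • x k‖ ≤ C * ‖z.c k‖ := fun k _ => by
      rw [norm_smul, mul_comm]
      exact mul_le_mul_of_nonneg_right (h k) (norm_nonneg _)
    refine (Finset.sum_le_sum h2).trans ?_
    rw [← Finset.mul_sum]
    rcases isEmpty_or_nonempty ι with hi | ⟨⟨k0⟩⟩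
    · have : (show ι →₀ ℂ from z).support = ∅ := Finset.eq_empty_of_isEmpty _
      rw [this, Finset.sum_empty, mul_zero]
      have hz : z = 0 := Fs.ext' fun k => (hi.false k).elim
      rw [hz, norm_zero, mul_zero]
    · exact mul_le_mul_of_nonneg_left (Zo.sum_le z _) ((norm_nonneg _).trans (h k0)))

lemma Zo.mk_e {ι : Type} {X : Type} [NormedAddCommGroup X] [NormedSpace ℂ X] (x : ι → X) (C : ℝ)
    (h : ∀ k, ‖x k‖ ≤ C) (k : ι) : Zo.mk x C h (Fs.e k) = x k := Fs.lin_e x k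

lemma Zo.mk_norm {ι : Type} {X : Type} [NormedAddCommGroup X] [NormedSpace ℂ X] (x : ι → X) {C : ℝ}
    (hC : 0 ≤ C) (h : ∀ k, ‖x k‖ ≤ C) : ‖Zo.mk x C h‖ ≤ C :=
  LinearMap.mkContinuous_norm_le _ hC _

end

end Pool.Agent.H724R3.N
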