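import Mathlib
import Pool.Agent.H724R3.N.Fs

set_option autoImplicit false

/-!
Pairs of dual bimodules with an unconditional decomposition of the identity.
-/

namespace Pool.Agent.H724R3.N

open Filter Topology
open scoped ENNReal

noncomputable section

/-- A pair `Y ⊂ X` of Banach bimodules over `A` with a set `N` of normal functionals on `X`,
operators `p k : X → Y` with `∑ p k = 1`, and operators `D z = ∑ z k • p k`. -/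
structure Pr (A ι : Type) [NonUnitalNormedRing A] [NormedSpace ℂ A] where
  X : Type
  Y : Type
  [gX : NormedAddCommGroup X]
  [sX : NormedSpace ℂ X]
  [cX : CompleteSpace X]
  [gY : NormedAddCommGroup Y]
  [sY : NormedSpace ℂ Y]
  [cY : CompleteSpace Y]
  i : Y →L[ℂ] X
  inj : Function.Injective i
  l : A →L[ℂ] X →L[ℂ] X
  r : A →L[ℂ] X →L[ℂ] X
  lY : A →L[ℂ] Y →L[ℂ] Y
  rY : A →L[ℂ] Y →L[ℂ] Y
  l_mul : ∀ a b x, l (a * b) x = l a (l b x)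
  r_mul : ∀ a b x, r (a * b) x = r b (r a x)
  lr : ∀ a b x, l a (r b x) = r b (l a x)
  i_l : ∀ a y, i (lY a y) = l a (i y)
  i_r : ∀ a y, i (rY a y) = r a (i y)
  p : ι → X →L[ℂ] Y
  pb : ℝ
  p_le : ∀ k, ‖p k‖ ≤ pb
  D : Zi ι →L[ℂ] X →L[ℂ] X
  DY : Zi ι →L[ℂ] Y →L[ℂ] Y
  D_e : ∀ k x, D (Fs.e k) x = i (p k x)
  DY_e : ∀ k y, DY (Fs.e k) y = p k (i y)
  N : Set (X →L[ℂ] ℂ)
  N_sep : ∀ x, (∀ φ ∈ N, φ x = 0) → x = 0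
  N_l : ∀ φ ∈ N, ∀ a, φ ∘L l a ∈ N
  N_r : ∀ φ ∈ N, ∀ a, φ ∘L r a ∈ N
  N_p : ∀ φ ∈ N, ∀ k, φ ∘L i ∘L p k ∈ N
  cptX : ∀ (J : Type) (U : Ultrafilter J) (x : J → X) (C : ℝ), (∀ j, ‖x j‖ ≤ C) →
    ∃ y : X, ‖y‖ ≤ C ∧ ∀ φ ∈ N, Tendsto (fun j => φ (x j)) U (𝓝 (φ y))
  cptY : ∀ (J : Type) (U : Ultrafilter J) (x : J → Y) (C : ℝ), (∀ j, ‖x j‖ ≤ C) →
    ∃ y : Y, ‖y‖ ≤ C ∧ ∀ φ ∈ N, Tendsto (fun j => φ (i (x j))) U (𝓝 (φ (i y)))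
  sum_p : ∀ φ ∈ N, ∀ x, HasSum (fun k => φ (i (p k x))) (φ x)

attribute [instance] Pr.gX Pr.sX Pr.cX Pr.gY Pr.sY Pr.cY

end

end Pool.Agent.H724R3.N
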