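import Mathlib
import Pool.Agent.Helper832.GDStmt
import Pool.Agent.H724R3.N.Pr

set_option autoImplicit false

/-!
Project H724N: statements of the tasks.
-/

namespace Pool.Agent.H724R3.N

open Filter Topology Pool.Agent.Helper832.GS
open scoped ENNReal ComplexOrder

noncomputable section

/-- the adjoint action `x ↦ (1 + a g) x (1 + a g⁻¹)` -/
def Pr.ad {A ι : Type} [NonUnitalNormedRing A] [NormedSpace ℂ A] (P : Pr A ι) {G : Type} [Group G]
    (a : G → A) (g : G) (x : P.X) : P.X :=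
  (x + P.r (a g⁻¹) x) + P.l (a g) (x + P.r (a g⁻¹) x)

/-- `1 + a g` is a bounded group homomorphism -/
structure IsRep {A : Type} [NonUnitalNormedRing A] {G : Type} [Group G] (a : G → A) : Prop where
  one : a 1 = 0
  mul : ∀ g h, a (g * h) = a g + a h + a g * a h
  bdd : ∃ C : ℝ, ∀ g, ‖a g‖ ≤ C

open Classical in
/-- a Følner family of finite sets along an ultrafilter -/
structure IsFol {G : Type} [Group G] {J : Type} (U : Ultrafilter J) (F : J → Finset G) : Prop where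
  ne : ∀ j, (F j).Nonempty
  lim : ∀ g : G, Tendsto (fun j => (((((F j).image (fun h => g * h)) \ F j).card : ℕ) : ℝ) /
    ((F j).card : ℝ)) U (𝓝 0)

/-- Task INTER: the interchange lemma for bounded bilinear forms on `c₀`. -/
def TaskInter : Prop := ∀ (ι : Type) (R : Zi ι →L[ℂ] Zi ι →L[ℂ] ℂ),
  ∑' k, ∑' j, R (Fs.e k) (Fs.e j) = ∑' j, ∑' k, R (Fs.e k) (Fs.e j)

/-- Task LIFT: lifting from projective bimodules (through the pullback bimodule). -/
def TaskLift : Prop := ∀ (A : Type) [NonUnitalNormedRing A] [NormedSpace ℂ A] (P E X : BMod A),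
  P.Projective → ∀ (φ : P.carrier → X.carrier) (d : E.carrier → X.carrier)
    (s : P.carrier → E.carrier),
  BMod.IsHom P X φ → BMod.IsHom E X d → IsBoundedLinearMap ℂ s → (∀ p, d (s p) = φ p) →
  ∃ ψ : P.carrier → E.carrier, BMod.IsHom P E ψ ∧ ∀ p, d (ψ p) = φ p

/-- Task BASE: the bounded operators on a Hilbert space and the Hilbert-Schmidt operators. -/
def TaskBase : Prop := ∀ (A : Type) [NonUnitalNormedRing A] [NormedSpace ℂ A]
  (H : Type) [NormedAddCommGroup H] [InnerProductSpace ℂ H] [CompleteSpace H]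
  (ι : Type) (b : HilbertBasis ι ℂ H) (π : A →L[ℂ] (H →L[ℂ] H)),
  (∀ x y, π (x * y) = π x * π y) →
  ∃ (P : Pr A ι) (j : P.X →ₗ[ℂ] (H →L[ℂ] H)), Function.Bijective j ∧
    (∀ a x, j (P.l a x) = π a * j x) ∧ (∀ a x, j (P.r a x) = j x * π a) ∧
    ∀ y : P.Y, Summable (fun k => ‖j (P.i y) (b k)‖ ^ 2)

/-- Task AVG: averaging of operators into dual modules over an amenable group. -/
def TaskAvg : Prop := ∀ (A ι : Type) [NonUnitalNormedRing A] [NormedSpace ℂ A] (P : Pr A ι)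
  (G : Type) [Group G] (a : G → A) (_ : IsRep a) (J : Type) (U : Ultrafilter J)
  (F : J → Finset G) (_ : IsFol U F)
  (Q : Type) [NormedAddCommGroup Q] [NormedSpace ℂ Q] (ρ : G → Q →L[ℂ] Q)
  (_ : ∀ q, ρ 1 q = q) (_ : ∀ g h q, ρ (g * h) q = ρ g (ρ h q))
  (_ : ∃ C : ℝ, ∀ g, ‖ρ g‖ ≤ C) (T : Q →L[ℂ] P.X),
  ∃ T' : Q →L[ℂ] P.X, (∀ g q, T' (ρ g q) = P.ad a g (T' q)) ∧
    ∀ q, (∀ g, P.ad a g (T (ρ g⁻¹ q)) = T q) → T' q = T q

/-- Task FINAL: from a tower of pairs to the bidimension. -/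
def TaskFinal : Prop := TaskLift → TaskAvg →
  ∀ (A : Type) [NonUnitalNormedRing A] [NormedSpace ℂ A] [IsScalarTower ℂ A A]
    [SMulCommClass ℂ A A] [CompleteSpace A] (ι : Type)
  (G : Type) [Group G] (a : G → A) (_ : IsRep a) (J : Type) (U : Ultrafilter J)
  (F : J → Finset G) (_ : IsFol U F)
  (X : ℕ → Pr A ι) (d : ∀ n, (X (n + 1)).X →L[ℂ] (X n).X) (s : ∀ n, (X n).X →L[ℂ] (X (n + 1)).X)
  (_ : ∀ n a x, d n ((X (n + 1)).l a x) = (X n).l a (d n x))
  (_ : ∀ n a x, d n ((X (n + 1)).r a x) = (X n).r a (d n x))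
  (_ : ∀ x, d 0 (s 0 x) = x) (_ : ∀ n x, d (n + 1) (s (n + 1) x) + s n (d n x) = x)
  (_ : ∀ n x, d n (d (n + 1) x) = 0)
  (o : (X 0).X) (_ : ∀ a, (X 0).l a o = (X 0).r a o) (_ : o ≠ 0)
  (_ : ∀ x : (X 1).X, (∀ g, (X 1).ad a g x = x) → x = 0),
  db A = ⊤

/-- The main theorem. -/
def MainStatement : Prop := ∀ (A : Type) [NonUnitalNormedRing A] [NormedSpace ℂ A]
    [IsScalarTower ℂ A A] [SMulCommClass ℂ A A] [CompleteSpace A]
  (H : Type) [NormedAddCommGroup H] [InnerProductSpace ℂ H] [CompleteSpace H] [Nontrivial H]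
  (ι : Type) (b : HilbertBasis ι ℂ H) (π : A →L[ℂ] (H →L[ℂ] H))
  (_ : ∀ x y, π (x * y) = π x * π y)
  (G : Type) [Group G] (a : G → A) (_ : IsRep a) (J : Type) (U : Ultrafilter J)
  (F : J → Finset G) (_ : IsFol U F)
  (_ : ∀ T : H →L[ℂ] H, Summable (fun k => ‖T (b k)‖ ^ 2) →
    (∀ g, π (a g) * T = T * π (a g)) → T = 0),
  db A = ⊤

/-- Task STATE: for a compact space mapped onto the interval there is a positive functional which
extends Lebesgue measure on the Fourier basis. -/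
def TaskState : Prop := ∀ (Ω : Type) [TopologicalSpace Ω] [CompactSpace Ω] [T2Space Ω]
  (f : C(Ω, unitInterval)) (_ : Function.Surjective f),
  ∃ φ : C(Ω, ℂ) →ₗ[ℂ] ℂ, φ 1 = 1 ∧ (∀ x : C(Ω, ℂ), 0 ≤ φ (star x * x)) ∧
    ∀ (u : C(Ω, ℂ)), (∀ w, u w = Complex.exp (2 * Real.pi * Complex.I * ((f w : ℝ) : ℂ))) →
      ∀ n : ℕ, n ≠ 0 → φ (u ^ n) = 0

/-- Task GNS: the representation given by a positive functional for which the powers of a unitary
are orthonormal. -/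
def TaskGNS : Prop := ∀ (Ω : Type) [TopologicalSpace Ω] [CompactSpace Ω] [T2Space Ω]
  (φ : C(Ω, ℂ) →ₗ[ℂ] ℂ) (_ : φ 1 = 1) (_ : ∀ x : C(Ω, ℂ), 0 ≤ φ (star x * x))
  (u : C(Ω, ℂ)) (_ : ∀ w, ‖u w‖ = 1) (_ : ∀ n : ℕ, n ≠ 0 → φ (u ^ n) = 0),
  ∃ (H : Type) (_ : NormedAddCommGroup H) (_ : InnerProductSpace ℂ H) (_ : CompleteSpace H)
    (π : C(Ω, ℂ) →L[ℂ] (H →L[ℂ] H)) (ξ : H), ξ ≠ 0 ∧ π 1 = 1 ∧ (∀ x y, π (x * y) = π x * π y) ∧
    ∀ ξ' η : H, Tendsto (fun n : ℕ => inner ℂ η (π (u ^ n) ξ')) atTop (𝓝 0)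

/-- Task HSC: Hilbert-Schmidt operators commuting with a unitary whose powers tend weakly to zero
vanish. -/
def TaskHSC : Prop := ∀ (H : Type) [NormedAddCommGroup H] [InnerProductSpace ℂ H]
  [CompleteSpace H] (ι : Type) (b : HilbertBasis ι ℂ H) (V W : ℕ → H →L[ℂ] H),
  (∀ n, W n * V n = 1) → (∃ C : ℝ, ∀ n, ‖V n‖ ≤ C ∧ ‖W n‖ ≤ C) →
  (∀ ξ η : H, Tendsto (fun n : ℕ => inner ℂ η (V n ξ)) atTop (𝓝 0)) →
  ∀ T : H →L[ℂ] H, Summable (fun k => ‖T (b k)‖ ^ 2) → (∀ n, V n * T = T * V n) → T = 0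

/-- Task COMM: the algebras `C(Ω)`, `Ω` mapped onto the interval. -/
def TaskComm : Prop := MainStatement → TaskState → TaskGNS → TaskHSC →
  ∀ (Ω : Type) [TopologicalSpace Ω] [CompactSpace Ω] [T2Space Ω]
  (f : C(Ω, unitInterval)) (_ : Function.Surjective f), db C(Ω, ℂ) = ⊤

/-- Task BETA: the Stone-Cech compactification of the natural numbers maps onto the interval. -/
def TaskBeta : Prop := ∃ f : C(StoneCech ℕ, unitInterval), Function.Surjective f

/-- The group of permutations with finite support. -/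
def FPerm (ι : Type) : Subgroup (Equiv.Perm ι) where
  carrier := {σ | {x | σ x ≠ x}.Finite}
  mul_mem' := by
    intro σ τ hσ hτ
    refine (hσ.union hτ).subset fun x hx => ?_
    by_contra h
    simp only [Set.mem_union, Set.mem_ofPred_eq, not_or, not_not] at h
    exact hx (by rw [Equiv.Perm.mul_apply, h.2, h.1])
  one_mem' := by simp
  inv_mem' := by
    intro σ hσ
    refine Set.Finite.subset hσ fun x hx h => hx ?_
    rw [Equiv.Perm.inv_eq_iff_eq]
    exact h.symm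

/-- Task PERMF: the group of finitary permutations has Følner sets. -/
def TaskPermF : Prop := ∀ ι : Type, ∃ (J : Type) (U : Ultrafilter J)
  (F : J → Finset (FPerm ι)), IsFol U F

/-- Task PERMR: the representation of the finitary permutations on a Hilbert space. -/
def TaskPermR : Prop := ∀ (H : Type) [NormedAddCommGroup H] [InnerProductSpace ℂ H]
  [CompleteSpace H] (ι : Type) [Infinite ι] (b : HilbertBasis ι ℂ H),
  ∃ v : FPerm ι → (H →L[ℂ] H), IsRep v ∧ (∀ g, FiniteDimensional ℂ (LinearMap.range (v g).toLinearMap)) ∧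
    ∀ T : H →L[ℂ] H, Summable (fun k => ‖T (b k)‖ ^ 2) → (∀ g, v g * T = T * v g) → T = 0

/-- Task OPER: closed subalgebras of `B(H)` containing the operators of finite rank, given as
Banach algebras `A` with an isometric embedding `κ`. -/
def TaskOper : Prop := MainStatement → TaskPermF → TaskPermR →
  ∀ (H : Type) [NormedAddCommGroup H] [InnerProductSpace ℂ H] [CompleteSpace H]
  (_ : ¬ FiniteDimensional ℂ H) (A : Type) [NonUnitalNormedRing A] [NormedSpace ℂ A]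
    [IsScalarTower ℂ A A] [SMulCommClass ℂ A A] [CompleteSpace A]
  (κ : A →L[ℂ] (H →L[ℂ] H)) (_ : ∀ x, ‖κ x‖ = ‖x‖) (_ : ∀ x y, κ (x * y) = κ x * κ y)
  (_ : ∀ T : H →L[ℂ] H, FiniteDimensional ℂ (LinearMap.range T.toLinearMap) → ∃ x, κ x = T),
  db A = ⊤

end

end Pool.Agent.H724R3.N
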