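import Mathlib
import Pool.Agent.H724R3.N.Stmts

set_option autoImplicit false

/-!
Task FINAL of the project H724N.
-/

namespace Pool.Agent.H724R3.N

open Filter Topology Pool.Agent.Helper832.GS

noncomputable section

namespace TFin

variable {A : Type} [NonUnitalNormedRing A] [NormedSpace ℂ A]

/-- left action as a continuous bilinear map -/
def lQ (Q : BMod A) : A →L[ℂ] Q.carrier →L[ℂ] Q.carrier := Q.left_bdd.toContinuousLinearMap

/-- right action as a continuous bilinear map -/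
def rQ (Q : BMod A) : A →L[ℂ] Q.carrier →L[ℂ] Q.carrier := Q.right_bdd.toContinuousLinearMap

theorem lQ_apply (Q : BMod A) (a : A) (q : Q.carrier) : lQ Q a q = Q.left a q := rfl
theorem rQ_apply (Q : BMod A) (a : A) (q : Q.carrier) : rQ Q a q = Q.right a q := rfl

theorem lQ_mul (Q : BMod A) (a b : A) (q : Q.carrier) : lQ Q (a * b) q = lQ Q a (lQ Q b q) :=
  Q.left_mul a b q
theorem rQ_mul (Q : BMod A) (a b : A) (q : Q.carrier) : rQ Q (a * b) q = rQ Q b (rQ Q a q) :=
  Q.right_mul a b q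
theorem lrQ (Q : BMod A) (a b : A) (q : Q.carrier) :
    lQ Q a (rQ Q b q) = rQ Q b (lQ Q a q) := Q.left_right a b q

variable {G : Type} [Group G]

/-- the action of the group -/
def rho (Q : BMod A) (a : G → A) (g : G) : Q.carrier →L[ℂ] Q.carrier :=
  (1 + lQ Q (a g)) * (1 + rQ Q (a g⁻¹))

theorem rho_apply (Q : BMod A) (a : G → A) (g : G) (q : Q.carrier) :
    rho Q a g q = (q + rQ Q (a g⁻¹) q) + lQ Q (a g) (q + rQ Q (a g⁻¹) q) := rfl

theorem rho_one (Q : BMod A) {a : G → A} (ha : IsRep a) (q : Q.carrier) : rho Q a 1 q = q := by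
  rw [rho_apply, inv_one, ha.one, map_zero, map_zero]
  simp

theorem rho_mul (Q : BMod A) {a : G → A} (ha : IsRep a) (g h : G) (q : Q.carrier) :
    rho Q a (g * h) q = rho Q a g (rho Q a h q) := by
  simp only [rho_apply]
  rw [mul_inv_rev, ha.mul g h, ha.mul h⁻¹ g⁻¹]
  simp only [map_add, ContinuousLinearMap.add_apply, lQ_mul, rQ_mul, lrQ]
  abel

theorem rho_bdd (Q : BMod A) {a : G → A} (ha : IsRep a) : ∃ C : ℝ, ∀ g, ‖rho Q a g‖ ≤ C := by
  obtain ⟨C, hC⟩ := ha.bdd
  have hC0 : 0 ≤ C := (norm_nonneg _).trans (hC 1)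
  refine ⟨(‖(1 : Q.carrier →L[ℂ] Q.carrier)‖ + ‖lQ Q‖ * C) *
    (‖(1 : Q.carrier →L[ℂ] Q.carrier)‖ + ‖rQ Q‖ * C), fun g => ?_⟩
  refine (norm_mul_le _ _).trans ?_
  have h1 : ‖1 + lQ Q (a g)‖ ≤ ‖(1 : Q.carrier →L[ℂ] Q.carrier)‖ + ‖lQ Q‖ * C :=
    (norm_add_le _ _).trans (add_le_add le_rfl (((lQ Q).le_opNorm _).trans
      (mul_le_mul_of_nonneg_left (hC g) (norm_nonneg _))))
  have h2 : ‖1 + rQ Q (a g⁻¹)‖ ≤ ‖(1 : Q.carrier →L[ℂ] Q.carrier)‖ + ‖rQ Q‖ * C :=
    (norm_add_le _ _).trans (add_le_add le_rfl (((rQ Q).le_opNorm _).trans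
      (mul_le_mul_of_nonneg_left (hC g⁻¹) (norm_nonneg _))))
  exact mul_le_mul h1 h2 (norm_nonneg _) (by positivity)

theorem hom_rho {P Q : BMod A} {f : P.carrier → Q.carrier} (hf : BMod.IsHom P Q f) (a : G → A)
    (g : G) (p : P.carrier) : f (rho P a g p) = rho Q a g (f p) := by
  obtain ⟨h1, h2, h3⟩ := hf
  have hadd : ∀ x y, f (x + y) = f x + f y := h1.toIsLinearMap.map_add
  simp only [rho_apply, lQ_apply, rQ_apply, hadd, h2, h3]

variable {ι : Type}

/-- the bimodule of a pair -/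
def XB (P : Pr A ι) : BMod A where
  carrier := P.X
  left := fun a x => P.l a x
  right := fun a x => P.r a x
  left_bdd := P.l.isBoundedBilinearMap
  right_bdd := P.r.isBoundedBilinearMap
  left_mul := P.l_mul
  right_mul := P.r_mul
  left_right := P.lr

theorem ad_eq (P : Pr A ι) (a : G → A) (g : G) (x : P.X) :
    P.ad a g x = rho (XB P) a g x := rfl

/-- equivariant maps -/
def Eqv (Q : BMod A) (P : Pr A ι) (a : G → A) (ψ : Q.carrier →L[ℂ] P.X) : Prop :=
  ∀ g q, ψ (rho Q a g q) = P.ad a g (ψ q)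

theorem avg_step (hAvg : TaskAvg) {a : G → A} (ha : IsRep a) {J : Type} {U : Ultrafilter J}
    {F : J → Finset G} (hF : IsFol U F) (P : Pr A ι) (Q B : BMod A)
    (dd : B.carrier → Q.carrier) (hd : BMod.IsHom B Q dd) (θ : B.carrier →L[ℂ] P.X)
    (hθ : Eqv B P a θ) (T : Q.carrier →L[ℂ] P.X) (hT : ∀ x, T (dd x) = θ x) :
    ∃ ψ : Q.carrier →L[ℂ] P.X, Eqv Q P a ψ ∧ ∀ x, ψ (dd x) = θ x := by
  obtain ⟨ψ, h1, h2⟩ := hAvg A ι P G a ha J U F hF Q.carrier (rho Q a) (rho_one Q ha)
    (rho_mul Q ha) (rho_bdd Q ha) T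
  refine ⟨ψ, h1, fun x => ?_⟩
  rw [← hT]
  refine h2 _ fun g => ?_
  rw [← hom_rho hd, hT, hT, hθ, ad_eq, ad_eq]
  have := rho_mul (XB P) ha g g⁻¹ (θ x)
  rw [mul_inv_cancel] at this
  exact this.symm.trans (rho_one (XB P) ha (θ x))

theorem hom_comp {P Q S : BMod A} {f : P.carrier → Q.carrier} {g : Q.carrier → S.carrier}
    (hf : BMod.IsHom P Q f) (hg : BMod.IsHom Q S g) : BMod.IsHom P S (fun x => g (f x)) :=
  ⟨hg.1.comp hf.1, fun b x => (congrArg g (hf.2.1 b x)).trans (hg.2.1 b (f x)),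
    fun b x => (congrArg g (hf.2.2 b x)).trans (hg.2.2 b (f x))⟩

theorem ad_sub (P : Pr A ι) (a : G → A) (g : G) (x y : P.X) :
    P.ad a g (x - y) = P.ad a g x - P.ad a g y := by
  unfold Pr.ad
  simp only [map_sub, map_add]
  abel

theorem ad_zero (P : Pr A ι) (a : G → A) (g : G) : P.ad a g 0 = 0 := by
  unfold Pr.ad
  simp only [map_zero, add_zero]

theorem ad_hom (P P' : Pr A ι) (dd : P'.X →L[ℂ] P.X) (hl : ∀ b x, dd (P'.l b x) = P.l b (dd x))
    (hr : ∀ b x, dd (P'.r b x) = P.r b (dd x)) (a : G → A) (g : G) (x : P'.X) :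
    dd (P'.ad a g x) = P.ad a g (dd x) := by
  unfold Pr.ad
  simp only [map_add, hl, hr]

theorem eqv_sub {Q : BMod A} {P P' : Pr A ι} (dd : P'.X →L[ℂ] P.X)
    (hl : ∀ b x, dd (P'.l b x) = P.l b (dd x)) (hr : ∀ b x, dd (P'.r b x) = P.r b (dd x))
    {a : G → A} {f : Q.carrier →L[ℂ] P.X} {ψ : Q.carrier →L[ℂ] P'.X} (hf : Eqv Q P a f)
    (hψ : Eqv Q P' a ψ) : Eqv Q P a (f - dd.comp ψ) := by
  intro g q
  show f (rho Q a g q) - dd (ψ (rho Q a g q)) = P.ad a g (f q - dd (ψ q))
  rw [hf, hψ, ad_hom P P' dd hl hr, ad_sub]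

end TFin

open TFin

theorem taskFinal : TaskFinal := by
  intro hLift hAvg A _ _ _ _ _ ι G _ a ha J U F hF X d s hdl hdr h00 hds hdd o ho hone hinv
  have main : ∀ n, ¬ (plusBMod A).HasResolution n := by
    rintro n ⟨R, hn⟩
    -- the differentials are morphisms
    have hdH : ∀ k, BMod.IsHom (XB (X (k + 1))) (XB (X k)) (d k) := fun k =>
      ⟨(d k).isBoundedLinearMap, hdl k, hdr k⟩
    -- the first morphism
    let f1 : Plus A → (X 0).X := fun x => x.fst • o + (X 0).l x.snd o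
    have hf1b : IsBoundedLinearMap ℂ f1 := by
      have e : f1 = fun x : Plus A =>
          (((ContinuousLinearMap.toSpanSingleton ℂ o).comp
            ((ContinuousLinearMap.fst ℂ ℂ A).comp
              (WithLp.prodContinuousLinearEquiv 1 ℂ ℂ A).toContinuousLinearMap)) +
          (((X 0).l.flip o).comp ((ContinuousLinearMap.snd ℂ ℂ A).comp
              (WithLp.prodContinuousLinearEquiv 1 ℂ ℂ A).toContinuousLinearMap))) x := by
        funext x
        rfl
      rw [e]
      exact ContinuousLinearMap.isBoundedLinearMap _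
    have hf1 : BMod.IsHom (plusBMod A) (XB (X 0)) f1 := by
      refine ⟨hf1b, fun b x => ?_, fun b x => ?_⟩
      · show (0 : ℂ) • o + (X 0).l (x.fst • b + b * x.snd) o =
          (X 0).l b (x.fst • o + (X 0).l x.snd o)
        rw [zero_smul, zero_add, map_add, map_smul, map_add, map_smul,
          ContinuousLinearMap.add_apply, ContinuousLinearMap.smul_apply, (X 0).l_mul]
      · show (0 : ℂ) • o + (X 0).l (x.fst • b + x.snd * b) o =
          (X 0).r b (x.fst • o + (X 0).l x.snd o)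
        rw [zero_smul, zero_add, map_add, map_smul, map_add, map_smul,
          ContinuousLinearMap.add_apply, ContinuousLinearMap.smul_apply, (X 0).l_mul, ho,
          (X 0).lr]
    -- the lifts
    let Tk : ℕ → Type := fun k => {f : (R.P k).carrier → (X (k + 1)).X //
      BMod.IsHom (R.P k) (XB (X (k + 1))) f ∧ ∀ p, d k (f (R.d k p)) = 0}
    have hstart : ∃ f : (R.P 0).carrier → (X 1).X, BMod.IsHom (R.P 0) (XB (X 1)) f ∧
        ∀ p, d 0 (f p) = f1 (R.ε p) := by
      refine hLift A (R.P 0) (XB (X 1)) (XB (X 0)) (R.projective 0) (fun p => f1 (R.ε p)) (d 0)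
        (fun p => s 0 (f1 (R.ε p))) ?_ (hdH 0) ?_ (fun p => h00 _)
      · exact hom_comp R.ε_hom hf1
      · exact (s 0).isBoundedLinearMap.comp (hf1.1.comp R.ε_hom.1)
    obtain ⟨f0, hf0, hf0'⟩ := hstart
    have hf10 : f1 0 = 0 := hf1b.toIsLinearMap.map_zero
    have hstep : ∀ k (f : Tk k), ∃ g : Tk (k + 1), ∀ p, d (k + 1) (g.1 p) = f.1 (R.d k p) := by
      rintro k ⟨f, hf, hf'⟩
      obtain ⟨g, hg, hg'⟩ := hLift A (R.P (k + 1)) (XB (X (k + 2))) (XB (X (k + 1)))
        (R.projective (k + 1)) (fun p => f (R.d k p)) (d (k + 1))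
        (fun p => s (k + 1) (f (R.d k p)))
        (hom_comp (R.d_hom k) hf) (hdH (k + 1))
        ((s (k + 1)).isBoundedLinearMap.comp (hf.1.comp (R.d_hom k).1)) (fun p => by
          have := hds k (f (R.d k p))
          rw [hf', map_zero, add_zero] at this
          exact this)
      refine ⟨⟨g, hg, fun p => ?_⟩, hg'⟩
      rw [hg', R.d_d]
      exact hf.1.toIsLinearMap.map_zero
    choose nx hnx using hstep
    let Φ : ∀ k, Tk k := fun k => Nat.rec (motive := Tk) ⟨f0, hf0, fun p =>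
      (hf0' _).trans ((congrArg f1 (R.ε_d p)).trans hf10)⟩ nx k
    have hΦ0 : (Φ 0).1 = f0 := rfl
    have hΦs : ∀ k p, d (k + 1) ((Φ (k + 1)).1 p) = (Φ k).1 (R.d k p) := fun k p =>
      hnx k (Φ k) p
    -- continuous linear versions
    let Φc : ∀ k, (R.P k).carrier →L[ℂ] (X (k + 1)).X := fun k =>
      (Φ k).2.1.1.toContinuousLinearMap
    have hΦc : ∀ k p, Φc k p = (Φ k).1 p := fun k p => rfl
    have hΦe : ∀ k, Eqv (R.P k) (X (k + 1)) a (Φc k) := fun k g q => hom_rho (Φ k).2.1 a g q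
    let Rd : ∀ k, (R.P (k + 1)).carrier →L[ℂ] (R.P k).carrier := fun k =>
      (R.d_hom k).1.toContinuousLinearMap
    let Rs : ∀ k, (R.P k).carrier →L[ℂ] (R.P (k + 1)).carrier := fun k =>
      (R.s_bdd k).toContinuousLinearMap
    -- equivariance of the corrected maps
    have hθe : ∀ k (ψ : (R.P k).carrier →L[ℂ] (X (k + 2)).X), Eqv (R.P k) (X (k + 2)) a ψ →
        Eqv (R.P k) (X (k + 1)) a (Φc k - (d (k + 1)).comp ψ) := by
      intro k ψ hψ
      exact eqv_sub (d (k + 1)) (hdl (k + 1)) (hdr (k + 1)) (hΦe k) hψ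
    -- downward induction
    have hdown : ∀ j k, k + j = n → ∃ ψ : (R.P k).carrier →L[ℂ] (X (k + 2)).X,
        Eqv (R.P k) (X (k + 2)) a ψ ∧ ∀ x, Φc k (R.d k x) = d (k + 1) (ψ (R.d k x)) := by
      intro j
      induction j with
      | zero =>
        intro k hk
        refine ⟨0, fun g q => ?_, fun x => ?_⟩
        · exact (ad_zero (X (k + 2)) a g).symm
        · have := hn (k + 1) (by omega)
          have hx : x = 0 := Subsingleton.elim _ _
          have h1 : R.d k x = 0 := by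
            rw [hx]; exact (R.d_hom k).1.toIsLinearMap.map_zero
          rw [h1, map_zero, map_zero, map_zero]
      | succ j ih =>
        intro k hk
        obtain ⟨ψ, hψe, hψ⟩ := ih (k + 1) (by omega)
        set θ : (R.P (k + 1)).carrier →L[ℂ] (X (k + 2)).X :=
          Φc (k + 1) - (d (k + 2)).comp ψ with hθ
        have hθ0 : ∀ x, θ (R.d (k + 1) x) = 0 := by
          intro x
          rw [hθ, ContinuousLinearMap.sub_apply, hψ, ContinuousLinearMap.comp_apply, sub_self]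
        obtain ⟨ψ', h1, h2⟩ := avg_step hAvg ha hF (X (k + 2)) (R.P k) (R.P (k + 1)) (R.d k)
          (R.d_hom k) θ (hθe (k + 1) ψ hψe) (θ.comp (Rs k)) (fun x => by
            show θ (R.s k (R.d k x)) = θ x
            conv_rhs => rw [← R.h_succ k x]
            rw [map_add, hθ0, add_zero])
        refine ⟨ψ', h1, fun x => ?_⟩
        rw [h2, hθ, ContinuousLinearMap.sub_apply, ContinuousLinearMap.comp_apply, map_sub, hdd,
          sub_zero]
        exact (hΦs k x).symm
    obtain ⟨ψ, hψe, hψ⟩ := hdown n 0 (by omega)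
    set θ : (R.P 0).carrier →L[ℂ] (X 1).X := Φc 0 - (d 1).comp ψ with hθ
    have hθ0 : ∀ x, θ (R.d 0 x) = 0 := by
      intro x
      rw [hθ, ContinuousLinearMap.sub_apply, hψ, ContinuousLinearMap.comp_apply, sub_self]
    obtain ⟨ψ', h1, h2⟩ := avg_step hAvg ha hF (X 1) (plusBMod A) (R.P 0) R.ε
      R.ε_hom θ (hθe 0 ψ hψe) (θ.comp R.s'_bdd.toContinuousLinearMap) (fun x => by
        show θ (R.s' (R.ε x)) = θ x
        conv_rhs => rw [← R.h_zero x]
        rw [map_add, hθ0, add_zero])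
    let one : (plusBMod A).carrier := WithLp.toLp 1 ((1 : ℂ), (0 : A))
    have hone' : ∀ g, rho (plusBMod A) a g one = one := by
      intro g
      rw [rho_apply]
      have e1 : rQ (plusBMod A) (a g⁻¹) one = WithLp.toLp 1 ((0 : ℂ), a g⁻¹) := by
        refine plus_ext rfl ?_
        show (1 : ℂ) • a g⁻¹ + 0 * a g⁻¹ = a g⁻¹
        rw [one_smul, zero_mul, add_zero]
      have e2 : one + rQ (plusBMod A) (a g⁻¹) one = WithLp.toLp 1 ((1 : ℂ), a g⁻¹) := by
        rw [e1]
        refine plus_ext ?_ ?_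
        · show (1 : ℂ) + 0 = 1
          rw [add_zero]
        · show (0 : A) + a g⁻¹ = a g⁻¹
          rw [zero_add]
      rw [e2]
      refine plus_ext ?_ ?_
      · show (1 : ℂ) + 0 = 1
        rw [add_zero]
      · show a g⁻¹ + ((1 : ℂ) • a g + a g * a g⁻¹) = 0
        have h3 := ha.mul g g⁻¹
        rw [mul_inv_cancel, ha.one] at h3
        rw [one_smul, h3]; abel
    have hz : ψ' one = 0 := by
      refine hinv _ fun g => ?_
      rw [← h1, hone']
    have h4 : R.ε (R.s' one) = one := R.ε_s one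
    have h5 : θ (R.s' one) = 0 := by rw [← h2, h4, hz]
    have h6 : d 0 (θ (R.s' one)) = o := by
      rw [hθ, ContinuousLinearMap.sub_apply, ContinuousLinearMap.comp_apply, map_sub, hdd,
        sub_zero]
      show d 0 (f0 (R.s' one)) = o
      rw [hf0', h4]
      show (1 : ℂ) • o + (X 0).l 0 o = o
      rw [one_smul, map_zero, ContinuousLinearMap.zero_apply, add_zero]
    apply hone
    rw [← h6, h5, map_zero]
  unfold db BMod.dh
  simp only [iInf_eq_top]
  intro n hn
  exact absurd hn (main n)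

end

end Pool.Agent.H724R3.N
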