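import Mathlib
import Pool.Agent.H724R3.N.TFinal

set_option autoImplicit false

/-!
The general form of the final step, for a bimodule with an invariant element.
-/

namespace Pool.Agent.H724R3.N

open Filter Topology Pool.Agent.Helper832.GS TFin

noncomputable section

theorem final2 (hLift : TaskLift) (hAvg : TaskAvg) 
    (A : Type) [NonUnitalNormedRing A] [NormedSpace ℂ A] (ι : Type)
    (G : Type) [Group G] (a : G → A) (ha : IsRep a) (J : Type) (U : Ultrafilter J)
    (F : J → Finset G) (hF : IsFol U F)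
    (X : ℕ → Pr A ι) (d : ∀ n, (X (n + 1)).X →L[ℂ] (X n).X)
    (s : ∀ n, (X n).X →L[ℂ] (X (n + 1)).X)
    (hdl : ∀ n a x, d n ((X (n + 1)).l a x) = (X n).l a (d n x))
    (hdr : ∀ n a x, d n ((X (n + 1)).r a x) = (X n).r a (d n x))
    (h00 : ∀ x, d 0 (s 0 x) = x) (hds : ∀ n x, d (n + 1) (s (n + 1) x) + s n (d n x) = x)
    (hdd : ∀ n x, d n (d (n + 1) x) = 0)
    (M : BMod A) (f1 : M.carrier → (X 0).X) (hf1 : BMod.IsHom M (XB (X 0)) f1)
    (one : M.carrier) (hone' : ∀ g, rho M a g one = one) (hone : f1 one ≠ 0)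
    (hinv : ∀ x : (X 1).X, (∀ g, (X 1).ad a g x = x) → x = 0) :
    M.dh = ⊤ := by
  have main : ∀ n, ¬ M.HasResolution n := by
    rintro n ⟨R, hn⟩
    -- the differentials are morphisms
    have hdH : ∀ k, BMod.IsHom (XB (X (k + 1))) (XB (X k)) (d k) := fun k =>
      ⟨(d k).isBoundedLinearMap, hdl k, hdr k⟩
    have hf1b := hf1.1
    -- the lifts
    let Tk : ℕ → Type := fun k => {f : (R.P k).carrier → (X (k + 1)).X //
      BMod.IsHom (R.P k) (XB (X (k + 1))) f ∧ ∀ p, d k (f (R.d k p)) = 0}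
    have hstart : ∃ f : (R.P 0).carrier → (X 1).X, BMod.IsHom (R.P 0) (XB (X 1)) f ∧
        ∀ p, d 0 (f p) = f1 (R.ε p) := by
      refine hLift A (R.P 0) (XB (X 1)) (XB (X 0)) (R.projective 0) (fun p => f1 (R.ε p)) (d 0)
        (fun p => s 0 (f1 (R.ε p))) ?_ (hdH 0) ?_ (fun p => h00 _)
      · exact hom_comp R.ε_hom hf1
      · exact (s 0).isBoundedLinearMap.comp (hf1.1.comp R.ε_hom.1)
    obtain ⟨f0, hf0, hf0'⟩ := hstart
    have hf10 : f1 0 = 0 := hf1b.toIsLinearMap.map_zero
    have hstep : ∀ k (f : Tk k), ∃ g : Tk (k + 1), ∀ p, d (k + 1) (g.1 p) = f.1 (R.d k p) := by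
      rintro k ⟨f, hf, hf'⟩
      obtain ⟨g, hg, hg'⟩ := hLift A (R.P (k + 1)) (XB (X (k + 2))) (XB (X (k + 1)))
        (R.projective (k + 1)) (fun p => f (R.d k p)) (d (k + 1))
        (fun p => s (k + 1) (f (R.d k p)))
        (hom_comp (R.d_hom k) hf) (hdH (k + 1))
        ((s (k + 1)).isBoundedLinearMap.comp (hf.1.comp (R.d_hom k).1)) (fun p => by
          have := hds k (f (R.d k p))
          rw [hf', map_zero, add_zero] at this
          exact this)
      refine ⟨⟨g, hg, fun p => ?_⟩, hg'⟩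
      rw [hg', R.d_d]
      exact hf.1.toIsLinearMap.map_zero
    choose nx hnx using hstep
    let Φ : ∀ k, Tk k := fun k => Nat.rec (motive := Tk) ⟨f0, hf0, fun p =>
      (hf0' _).trans ((congrArg f1 (R.ε_d p)).trans hf10)⟩ nx k
    have hΦ0 : (Φ 0).1 = f0 := rfl
    have hΦs : ∀ k p, d (k + 1) ((Φ (k + 1)).1 p) = (Φ k).1 (R.d k p) := fun k p =>
      hnx k (Φ k) p
    -- continuous linear versions
    let Φc : ∀ k, (R.P k).carrier →L[ℂ] (X (k + 1)).X := fun k =>
      (Φ k).2.1.1.toContinuousLinearMap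
    have hΦc : ∀ k p, Φc k p = (Φ k).1 p := fun k p => rfl
    have hΦe : ∀ k, Eqv (R.P k) (X (k + 1)) a (Φc k) := fun k g q => hom_rho (Φ k).2.1 a g q
    let Rd : ∀ k, (R.P (k + 1)).carrier →L[ℂ] (R.P k).carrier := fun k =>
      (R.d_hom k).1.toContinuousLinearMap
    let Rs : ∀ k, (R.P k).carrier →L[ℂ] (R.P (k + 1)).carrier := fun k =>
      (R.s_bdd k).toContinuousLinearMap
    -- equivariance of the corrected maps
    have hθe : ∀ k (ψ : (R.P k).carrier →L[ℂ] (X (k + 2)).X), Eqv (R.P k) (X (k + 2)) a ψ →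
        Eqv (R.P k) (X (k + 1)) a (Φc k - (d (k + 1)).comp ψ) := by
      intro k ψ hψ
      exact eqv_sub (d (k + 1)) (hdl (k + 1)) (hdr (k + 1)) (hΦe k) hψ
    -- downward induction
    have hdown : ∀ j k, k + j = n → ∃ ψ : (R.P k).carrier →L[ℂ] (X (k + 2)).X,
        Eqv (R.P k) (X (k + 2)) a ψ ∧ ∀ x, Φc k (R.d k x) = d (k + 1) (ψ (R.d k x)) := by
      intro j
      induction j with
      | zero =>
        intro k hk
        refine ⟨0, fun g q => ?_, fun x => ?_⟩
        · exact (ad_zero (X (k + 2)) a g).symm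
        · have := hn (k + 1) (by omega)
          have hx : x = 0 := Subsingleton.elim _ _
          have h1 : R.d k x = 0 := by
            rw [hx]; exact (R.d_hom k).1.toIsLinearMap.map_zero
          rw [h1, map_zero, map_zero, map_zero]
      | succ j ih =>
        intro k hk
        obtain ⟨ψ, hψe, hψ⟩ := ih (k + 1) (by omega)
        set θ : (R.P (k + 1)).carrier →L[ℂ] (X (k + 2)).X :=
          Φc (k + 1) - (d (k + 2)).comp ψ with hθ
        have hθ0 : ∀ x, θ (R.d (k + 1) x) = 0 := by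
          intro x
          rw [hθ, ContinuousLinearMap.sub_apply, hψ, ContinuousLinearMap.comp_apply, sub_self]
        obtain ⟨ψ', h1, h2⟩ := avg_step hAvg ha hF (X (k + 2)) (R.P k) (R.P (k + 1)) (R.d k)
          (R.d_hom k) θ (hθe (k + 1) ψ hψe) (θ.comp (Rs k)) (fun x => by
            show θ (R.s k (R.d k x)) = θ x
            conv_rhs => rw [← R.h_succ k x]
            rw [map_add, hθ0, add_zero])
        refine ⟨ψ', h1, fun x => ?_⟩
        rw [h2, hθ, ContinuousLinearMap.sub_apply, ContinuousLinearMap.comp_apply, map_sub, hdd,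
          sub_zero]
        exact (hΦs k x).symm
    obtain ⟨ψ, hψe, hψ⟩ := hdown n 0 (by omega)
    set θ : (R.P 0).carrier →L[ℂ] (X 1).X := Φc 0 - (d 1).comp ψ with hθ
    have hθ0 : ∀ x, θ (R.d 0 x) = 0 := by
      intro x
      rw [hθ, ContinuousLinearMap.sub_apply, hψ, ContinuousLinearMap.comp_apply, sub_self]
    obtain ⟨ψ', h1, h2⟩ := avg_step hAvg ha hF (X 1) M (R.P 0) R.ε
      R.ε_hom θ (hθe 0 ψ hψe) (θ.comp R.s'_bdd.toContinuousLinearMap) (fun x => by
        show θ (R.s' (R.ε x)) = θ x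
        conv_rhs => rw [← R.h_zero x]
        rw [map_add, hθ0, add_zero])
    have hz : ψ' one = 0 := by
      refine hinv _ fun g => ?_
      rw [← h1, hone']
    have h4 : R.ε (R.s' one) = one := R.ε_s one
    have h5 : θ (R.s' one) = 0 := by rw [← h2, h4, hz]
    have h6 : d 0 (θ (R.s' one)) = f1 one := by
      rw [hθ, ContinuousLinearMap.sub_apply, ContinuousLinearMap.comp_apply, map_sub, hdd,
        sub_zero]
      show d 0 (f0 (R.s' one)) = f1 one
      rw [hf0', h4]
    apply hone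
    rw [← h6, h5, map_zero]
  unfold BMod.dh
  simp only [iInf_eq_top]
  intro n hn
  exact absurd hn (main n)

end

end Pool.Agent.H724R3.N
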