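import Mathlib
import Pool.Agent.H724R3.N.Stmts

set_option autoImplicit false

/-!
Project H724N, task AVG (helper720).
-/

namespace Pool.Agent.H724R3.N

open Filter Topology

noncomputable section

namespace Avg

variable {A ι : Type} [NonUnitalNormedRing A] [NormedSpace ℂ A] (P : Pr A ι)
  {G : Type} [Group G] (a : G → A)

def LL (g : G) : P.X →L[ℂ] P.X := ContinuousLinearMap.id ℂ P.X + P.l (a g)

def RR (g : G) : P.X →L[ℂ] P.X := ContinuousLinearMap.id ℂ P.X + P.r (a g⁻¹)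

def AD (g : G) : P.X →L[ℂ] P.X := (LL P a g).comp (RR P a g)

omit [Group G] in
lemma LL_apply (g : G) (x : P.X) : LL P a g x = x + P.l (a g) x := rfl

lemma RR_apply (g : G) (x : P.X) : RR P a g x = x + P.r (a g⁻¹) x := rfl

lemma AD_apply (g : G) (x : P.X) : AD P a g x = LL P a g (RR P a g x) := rfl

lemma ad_eq (g : G) (x : P.X) : P.ad a g x = AD P a g x := rfl

variable {a}

lemma LL_mul (ha : IsRep a) (g h : G) (x : P.X) :
    LL P a (g * h) x = LL P a g (LL P a h x) := by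
  simp only [LL_apply, ha.mul g h, map_add, add_apply, P.l_mul]
  abel

lemma RR_mul (ha : IsRep a) (g h : G) (x : P.X) :
    RR P a (g * h) x = RR P a g (RR P a h x) := by
  simp only [RR_apply, mul_inv_rev, ha.mul h⁻¹ g⁻¹, map_add, add_apply, P.r_mul]
  abel

lemma LR (g h : G) (x : P.X) : LL P a g (RR P a h x) = RR P a h (LL P a g x) := by
  simp only [LL_apply, RR_apply, map_add, P.lr]
  abel

lemma AD_mul (ha : IsRep a) (g h : G) (x : P.X) :
    AD P a (g * h) x = AD P a g (AD P a h x) := by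
  simp only [AD_apply]
  rw [LL_mul P ha, RR_mul P ha, LR P h g (RR P a h x)]

/-- composition with `AD` maps limits along normal functionals to limits -/
lemma tendsto_AD {J : Type} {U : Ultrafilter J} (x : J → P.X) (y : P.X)
    (h : ∀ φ ∈ P.N, Tendsto (fun j => φ (x j)) U (𝓝 (φ y))) (g : G) :
    ∀ φ ∈ P.N, Tendsto (fun j => φ (AD P a g (x j))) U (𝓝 (φ (AD P a g y))) := by
  intro φ hφ
  have h1 := h φ hφ
  have h2 := h _ (P.N_r φ hφ (a g⁻¹))
  have h3 := h _ (P.N_l φ hφ (a g))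
  have h4 := h _ (P.N_r _ (P.N_l φ hφ (a g)) (a g⁻¹))
  have h5 := (h1.add h2).add (h3.add h4)
  have e : ∀ z : P.X, φ (AD P a g z) = (φ z + (φ ∘L P.r (a g⁻¹)) z) +
      ((φ ∘L P.l (a g)) z + ((φ ∘L P.l (a g)) ∘L P.r (a g⁻¹)) z) := by
    intro z
    simp only [AD_apply, LL_apply, RR_apply, map_add, ContinuousLinearMap.comp_apply]
    ring
  simp only [e]
  exact h5

lemma norm_LL {C : ℝ} (hC : ∀ g, ‖a g‖ ≤ C) (g : G) (x : P.X) :
    ‖LL P a g x‖ ≤ (1 + ‖P.l‖ * C) * ‖x‖ := by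
  rw [LL_apply]
  refine (norm_add_le _ _).trans ?_
  have h1 : ‖P.l (a g) x‖ ≤ ‖P.l‖ * C * ‖x‖ := by
    refine ((P.l (a g)).le_opNorm x).trans ?_
    refine mul_le_mul_of_nonneg_right ?_ (norm_nonneg _)
    exact (P.l.le_opNorm _).trans (mul_le_mul_of_nonneg_left (hC g) (norm_nonneg _))
  linarith

lemma norm_RR {C : ℝ} (hC : ∀ g, ‖a g‖ ≤ C) (g : G) (x : P.X) :
    ‖RR P a g x‖ ≤ (1 + ‖P.r‖ * C) * ‖x‖ := by
  rw [RR_apply]
  refine (norm_add_le _ _).trans ?_
  have h1 : ‖P.r (a g⁻¹) x‖ ≤ ‖P.r‖ * C * ‖x‖ := by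
    refine ((P.r (a g⁻¹)).le_opNorm x).trans ?_
    refine mul_le_mul_of_nonneg_right ?_ (norm_nonneg _)
    exact (P.r.le_opNorm _).trans (mul_le_mul_of_nonneg_left (hC _) (norm_nonneg _))
  linarith

lemma norm_AD {C : ℝ} (hC0 : 0 ≤ C) (hC : ∀ g, ‖a g‖ ≤ C) (g : G) (x : P.X) :
    ‖AD P a g x‖ ≤ (1 + ‖P.l‖ * C) * (1 + ‖P.r‖ * C) * ‖x‖ := by
  rw [AD_apply, mul_assoc]
  refine (norm_LL P hC g _).trans ?_
  exact mul_le_mul_of_nonneg_left (norm_RR P hC g x)
    (by have := mul_nonneg (norm_nonneg P.l) hC0; linarith)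

/-- the averages -/
def vv {Q : Type} [NormedAddCommGroup Q] [NormedSpace ℂ Q] (a : G → A) (ρ : G → Q →L[ℂ] Q)
    (T : Q →L[ℂ] P.X) (F : Finset G) (q : Q) : P.X :=
  ((F.card : ℂ))⁻¹ • ∑ h ∈ F, AD P a h (T (ρ h⁻¹ q))

end Avg

open Avg

open Classical in
theorem taskAvg : TaskAvg := by
  intro A ι _ _ P G _ a ha J U F hF Q _ _ ρ hρ1 hρm hρb T
  obtain ⟨C₀, hC₀⟩ := ha.bdd
  obtain ⟨C₁, hC₁⟩ := hρb
  have hC₀0 : 0 ≤ C₀ := (norm_nonneg _).trans (hC₀ 1)
  have hC₁0 : 0 ≤ C₁ := (norm_nonneg _).trans (hC₁ 1)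
  set K₀ : ℝ := (1 + ‖P.l‖ * C₀) * (1 + ‖P.r‖ * C₀) with hK₀
  have hK₀0 : 0 ≤ K₀ := by
    have h1 := mul_nonneg (norm_nonneg P.l) hC₀0
    have h2 := mul_nonneg (norm_nonneg P.r) hC₀0
    exact mul_nonneg (by linarith) (by linarith)
  set K : ℝ := K₀ * (‖T‖ * C₁) with hK
  have hK0 : 0 ≤ K := mul_nonneg hK₀0 (mul_nonneg (norm_nonneg _) hC₁0)
  have hterm : ∀ (h : G) (q : Q), ‖AD P a h (T (ρ h⁻¹ q))‖ ≤ K * ‖q‖ := by
    intro h q
    refine (norm_AD P hC₀0 hC₀ h _).trans ?_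
    change K₀ * ‖T ((ρ h⁻¹) q)‖ ≤ K₀ * (‖T‖ * C₁) * ‖q‖
    rw [mul_assoc K₀]
    refine mul_le_mul_of_nonneg_left ?_ hK₀0
    refine (T.le_opNorm _).trans ?_
    rw [mul_assoc]
    refine mul_le_mul_of_nonneg_left ?_ (norm_nonneg _)
    exact ((ρ h⁻¹).le_opNorm q).trans (mul_le_mul_of_nonneg_right (hC₁ _) (norm_nonneg _))
  have hcard : ∀ j, (0 : ℝ) < (F j).card := fun j => by
    exact_mod_cast Finset.card_pos.2 (hF.ne j)
  have hv : ∀ q j, ‖vv P a ρ T (F j) q‖ ≤ K * ‖q‖ := by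
    intro q j
    rw [vv, norm_smul, norm_inv, Complex.norm_natCast]
    have h1 : ‖∑ h ∈ F j, AD P a h (T (ρ h⁻¹ q))‖ ≤ (F j).card * (K * ‖q‖) := by
      refine (norm_sum_le _ _).trans ((Finset.sum_le_sum fun h _ => hterm h q).trans ?_)
      rw [Finset.sum_const, nsmul_eq_mul]
    calc ((F j).card : ℝ)⁻¹ * ‖∑ h ∈ F j, AD P a h (T (ρ h⁻¹ q))‖
        ≤ ((F j).card : ℝ)⁻¹ * ((F j).card * (K * ‖q‖)) :=
          mul_le_mul_of_nonneg_left h1 (inv_nonneg.2 (hcard j).le)
      _ = K * ‖q‖ := by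
          rw [← mul_assoc, inv_mul_cancel₀ (hcard j).ne', one_mul]
  choose y hyn hy using fun q => P.cptX J U (fun j => vv P a ρ T (F j) q) (K * ‖q‖) (hv q)
  have huniq : ∀ (x x' : P.X), (∀ φ ∈ P.N, φ x = φ x') → x = x' := by
    intro x x' h
    have := P.N_sep (x - x') fun φ hφ => by rw [map_sub, h φ hφ, sub_self]
    exact sub_eq_zero.1 this
  have hadd : ∀ q q', y (q + q') = y q + y q' := by
    intro q q'
    refine huniq _ _ fun φ hφ => ?_
    have h1 := hy (q + q') φ hφ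
    have h2 := (hy q φ hφ).add (hy q' φ hφ)
    have e : ∀ j, φ (vv P a ρ T (F j) (q + q')) =
        φ (vv P a ρ T (F j) q) + φ (vv P a ρ T (F j) q') := by
      intro j
      rw [← map_add]
      congr 1
      simp only [vv, map_add, Finset.sum_add_distrib, smul_add]
    simp only [e] at h1
    rw [map_add]
    exact tendsto_nhds_unique h1 h2
  have hsmul : ∀ (c : ℂ) q, y (c • q) = c • y q := by
    intro c q
    refine huniq _ _ fun φ hφ => ?_
    have h1 := hy (c • q) φ hφ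
    have h2 := (hy q φ hφ).const_mul c
    have e : ∀ j, φ (vv P a ρ T (F j) (c • q)) = c * φ (vv P a ρ T (F j) q) := by
      intro j
      rw [← smul_eq_mul, ← map_smul]
      congr 1
      simp only [vv, map_smul, ← Finset.smul_sum]
      rw [smul_comm]
    simp only [e] at h1
    rw [map_smul, smul_eq_mul]
    exact tendsto_nhds_unique h1 h2
  let T' : Q →L[ℂ] P.X := LinearMap.mkContinuous
    { toFun := y, map_add' := hadd, map_smul' := fun c q => hsmul c q } K hyn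
  have hT' : ∀ q, T' q = y q := fun q => rfl
  refine ⟨T', ?_, ?_⟩
  · intro g q
    rw [ad_eq, hT', hT']
    refine huniq _ _ fun φ hφ => ?_
    have h1 := hy (ρ g q) φ hφ
    have h2 := tendsto_AD P (a := a) _ _ (hy q) g φ hφ
    -- the difference tends to zero
    let w : G → P.X := fun h => AD P a h (T (ρ h⁻¹ (ρ g q)))
    have hgv : ∀ j, AD P a g (vv P a ρ T (F j) q) =
        (((F j).card : ℂ))⁻¹ • ∑ h ∈ (F j).image (fun h => g * h), w h := by
      intro j
      rw [vv, map_smul, map_sum, Finset.sum_image (fun x _ y _ hxy => mul_left_cancel hxy)]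
      congr 1
      refine Finset.sum_congr rfl fun h _ => ?_
      simp only [w]
      rw [← AD_mul P ha, ← hρm]
      congr 4
      rw [mul_inv_rev, inv_mul_cancel_right]
    have hwn : ∀ h, ‖w h‖ ≤ K * ‖ρ g q‖ := fun h => hterm h _
    have hdiff : ∀ j, ‖vv P a ρ T (F j) (ρ g q) - AD P a g (vv P a ρ T (F j) q)‖ ≤
        2 * (K * ‖ρ g q‖) * ((((((F j).image (fun h => g * h)) \ F j).card : ℕ) : ℝ) /
          ((F j).card : ℝ)) := by
      intro j
      rw [hgv j]
      have e1 : vv P a ρ T (F j) (ρ g q) = (((F j).card : ℂ))⁻¹ • ∑ h ∈ F j, w h := rfl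
      rw [e1, ← smul_sub, norm_smul, norm_inv, Complex.norm_natCast]
      set F' := (F j).image (fun h => g * h) with hF'
      have hcF' : F'.card = (F j).card := Finset.card_image_of_injective _ (mul_right_injective g)
      have hc2 : (F j \ F').card = (F' \ F j).card := by
        have h3 := Finset.card_sdiff_add_card_inter (F j) F'
        have h4 := Finset.card_sdiff_add_card_inter F' (F j)
        rw [Finset.inter_comm] at h4
        omega
      have e2 : ∑ h ∈ F j, w h - ∑ h ∈ F', w h = ∑ h ∈ F j \ F', w h - ∑ h ∈ F' \ F j, w h := by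
        have h3 := Finset.sum_sdiff_sub_sum_sdiff (s₁ := F') (s₂ := F j) (f := w)
        exact h3.symm
      have e3 : ‖∑ h ∈ F j \ F', w h - ∑ h ∈ F' \ F j, w h‖ ≤
          2 * (K * ‖ρ g q‖) * (F' \ F j).card := by
        have h5 : ∀ s : Finset G, ‖∑ h ∈ s, w h‖ ≤ s.card * (K * ‖ρ g q‖) := by
          intro s
          refine (norm_sum_le _ _).trans ((Finset.sum_le_sum fun h _ => hwn h).trans ?_)
          rw [Finset.sum_const, nsmul_eq_mul]
        have h6 := h5 (F j \ F')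
        have h7 := h5 (F' \ F j)
        rw [hc2] at h6
        refine (norm_sub_le _ _).trans ?_
        linarith
      rw [e2]
      calc ((F j).card : ℝ)⁻¹ * ‖∑ h ∈ F j \ F', w h - ∑ h ∈ F' \ F j, w h‖
          ≤ ((F j).card : ℝ)⁻¹ * (2 * (K * ‖ρ g q‖) * (F' \ F j).card) :=
            mul_le_mul_of_nonneg_left e3 (inv_nonneg.2 (hcard j).le)
        _ = _ := by rw [div_eq_mul_inv]; ring
    have hlim : Tendsto (fun j => vv P a ρ T (F j) (ρ g q) - AD P a g (vv P a ρ T (F j) q)) U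
        (𝓝 0) := by
      refine squeeze_zero_norm hdiff ?_
      have := (hF.lim g).const_mul (2 * (K * ‖ρ g q‖))
      rw [mul_zero] at this
      exact this
    have hlim2 : Tendsto (fun j => φ (vv P a ρ T (F j) (ρ g q)) -
        φ (AD P a g (vv P a ρ T (F j) q))) U (𝓝 0) := by
      have := (φ.continuous.tendsto 0).comp hlim
      rw [map_zero] at this
      refine this.congr fun j => ?_
      simp [Function.comp]
    have h8 := tendsto_nhds_unique (h1.sub h2) hlim2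
    exact sub_eq_zero.1 h8
  · intro q hq
    rw [hT']
    refine huniq _ _ fun φ hφ => ?_
    have h1 := hy q φ hφ
    have e : ∀ j, vv P a ρ T (F j) q = T q := by
      intro j
      rw [vv, Finset.sum_congr rfl fun h _ => (show AD P a h (T (ρ h⁻¹ q)) = T q from hq h),
        Finset.sum_const, ← Nat.cast_smul_eq_nsmul ℂ, smul_smul, inv_mul_cancel₀, one_smul]
      exact_mod_cast (Finset.card_pos.2 (hF.ne j)).ne'
    simp only [e] at h1
    exact tendsto_nhds_unique h1 tendsto_const_nhds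

end

end Pool.Agent.H724R3.N
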