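import Mathlib
import Pool.Agent.H724R3.N.Stmts

/-! helper116: task BASE of project H724N. -/

set_option autoImplicit false

namespace Pool.Agent.H724R3.N.Base

open Filter Topology
open scoped ENNReal

noncomputable section

/-- an element of `ℓ²` from bounded finite sums -/
def mk2 {ι : Type} {E : ι → Type} [∀ i, NormedAddCommGroup (E i)] (v : ∀ i, E i) (C : ℝ)
    (h : ∀ s : Finset ι, ∑ k ∈ s, ‖v k‖ ^ 2 ≤ C ^ 2) : lp E 2 :=
  ⟨v, memℓp_gen' (C := C ^ 2) (by
    intro s
    simpa using h s)⟩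

lemma mk2_norm {ι : Type} {E : ι → Type} [∀ i, NormedAddCommGroup (E i)] (v : ∀ i, E i) (C : ℝ)
    (hC : 0 ≤ C) (h : ∀ s : Finset ι, ∑ k ∈ s, ‖v k‖ ^ 2 ≤ C ^ 2) : ‖mk2 v C h‖ ≤ C := by
  refine lp.norm_le_of_forall_sum_le (by norm_num) hC fun s => ?_
  have h2 := h s
  simp only [ENNReal.toReal_ofNat, Real.rpow_ofNat]
  exact h2

lemma mk2_apply {ι : Type} {E : ι → Type} [∀ i, NormedAddCommGroup (E i)] (v : ∀ i, E i) (C : ℝ)
    (h : ∀ s : Finset ι, ∑ k ∈ s, ‖v k‖ ^ 2 ≤ C ^ 2) (k : ι) : mk2 v C h k = v k := rfl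

lemma sum_sq_le {ι : Type} {E : ι → Type} [∀ i, NormedAddCommGroup (E i)] (y : lp E 2)
    (s : Finset ι) : ∑ k ∈ s, ‖y k‖ ^ 2 ≤ ‖y‖ ^ 2 := by
  have h := lp.sum_rpow_le_norm_rpow (p := 2) (by norm_num) y s
  simpa using h

lemma dom_sum {ι : Type} {E F : ι → Type} [∀ i, NormedAddCommGroup (E i)]
    [∀ i, NormedAddCommGroup (F i)] (v : ∀ i, E i) (y : lp F 2) (C : ℝ)
    (h : ∀ k, ‖v k‖ ≤ C * ‖y k‖) (s : Finset ι) : ∑ k ∈ s, ‖v k‖ ^ 2 ≤ (C * ‖y‖) ^ 2 := by
  calc ∑ k ∈ s, ‖v k‖ ^ 2 ≤ ∑ k ∈ s, C ^ 2 * ‖y k‖ ^ 2 := by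
        refine Finset.sum_le_sum fun k _ => ?_
        rw [← mul_pow]
        exact pow_le_pow_left₀ (norm_nonneg _) (h k) 2
    _ = C ^ 2 * ∑ k ∈ s, ‖y k‖ ^ 2 := by rw [Finset.mul_sum]
    _ ≤ C ^ 2 * ‖y‖ ^ 2 := mul_le_mul_of_nonneg_left (sum_sq_le y s) (sq_nonneg C)
    _ = (C * ‖y‖) ^ 2 := by rw [mul_pow]

/-- weak compactness along ultrafilters -/
lemma weak_cpt (E : Type) [NormedAddCommGroup E] [InnerProductSpace ℂ E] [CompleteSpace E]
    (J : Type) (U : Ultrafilter J) (x : J → E) (C : ℝ) (hx : ∀ j, ‖x j‖ ≤ C) :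
    ∃ y : E, ‖y‖ ≤ C ∧ ∀ f : E →L[ℂ] ℂ, Tendsto (fun j => f (x j)) U (𝓝 (f y)) := by
  have hC : 0 ≤ C := by
    obtain ⟨j⟩ : Nonempty J := by
      by_contra h
      rw [not_nonempty_iff] at h
      exact (Ultrafilter.neBot U).ne (Filter.filter_eq_bot_of_isEmpty _)
    exact (norm_nonneg _).trans (hx j)
  have hlim : ∀ w : E, ∃ c : ℂ, ‖c‖ ≤ C * ‖w‖ ∧
      Tendsto (fun j => inner ℂ (x j) w) U (𝓝 c) := by
    intro w
    have hcpt := isCompact_closedBall (0 : ℂ) (C * ‖w‖)
    have hb : ∀ j, inner ℂ (x j) w ∈ Metric.closedBall (0 : ℂ) (C * ‖w‖) := by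
      intro j
      rw [mem_closedBall_zero_iff]
      exact (norm_inner_le_norm _ _).trans (mul_le_mul_of_nonneg_right (hx j) (norm_nonneg _))
    obtain ⟨c, hc, hle⟩ := hcpt.ultrafilter_le_nhds' (U.map (fun j => inner ℂ (x j) w))
      (by
        rw [Ultrafilter.mem_map]
        exact Filter.Eventually.of_forall hb)
    refine ⟨c, by rwa [mem_closedBall_zero_iff] at hc, hle⟩
  choose L hL1 hL2 using hlim
  have hadd : ∀ v w, L (v + w) = L v + L w := by
    intro v w
    refine tendsto_nhds_unique (hL2 (v + w)) ?_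
    have := (hL2 v).add (hL2 w)
    refine this.congr fun j => ?_
    rw [inner_add_right]
  have hsmul : ∀ (c : ℂ) v, L (c • v) = c • L v := by
    intro c v
    refine tendsto_nhds_unique (hL2 (c • v)) ?_
    have := (hL2 v).const_smul c
    refine this.congr fun j => ?_
    rw [inner_smul_right, smul_eq_mul]
  let Ll : E →ₗ[ℂ] ℂ := { toFun := L, map_add' := hadd, map_smul' := hsmul }
  let Lc : E →L[ℂ] ℂ := Ll.mkContinuous C hL1
  have hLc : ∀ w, Lc w = L w := fun w => rfl
  let y : E := (InnerProductSpace.toDual ℂ E).symm Lc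
  have hy : ∀ w, inner ℂ y w = L w := by
    intro w
    rw [← hLc w]
    exact InnerProductSpace.toDual_symm_apply
  refine ⟨y, ?_, ?_⟩
  · have h1 : ‖y‖ = ‖Lc‖ := LinearIsometryEquiv.norm_map _ _
    rw [h1]
    exact LinearMap.mkContinuous_norm_le _ hC _
  · intro f
    let w : E := (InnerProductSpace.toDual ℂ E).symm f
    have hw : ∀ v, f v = starRingEnd ℂ (inner ℂ v w) := by
      intro v
      rw [inner_conj_symm]
      exact InnerProductSpace.toDual_symm_apply.symm
    rw [hw y, hy]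
    refine ((Complex.continuous_conj.tendsto _).comp (hL2 w)).congr fun j => ?_
    rw [hw]
    rfl


variable {H : Type} [NormedAddCommGroup H] [InnerProductSpace ℂ H] [CompleteSpace H]
  {ι : Type} (b : HilbertBasis ι ℂ H)

/-- the space of Hilbert-Schmidt operators (columns) -/
abbrev Yy (ι H : Type) [NormedAddCommGroup H] [InnerProductSpace ℂ H] : Type :=
  lp (fun _ : ι => H) 2

omit [CompleteSpace H] in
lemma ext_b {F : Type} [NormedAddCommGroup F] [NormedSpace ℂ F] {S T : H →L[ℂ] F}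
    (h : ∀ k, S (b k) = T (b k)) : S = T := by
  have hd : Dense ((Submodule.span ℂ (Set.range b) : Submodule ℂ H) : Set H) := by
    rw [← Submodule.dense_iff_topologicalClosure_eq_top.symm] at *
    exact b.dense_span
  refine ContinuousLinearMap.ext_on hd ?_
  rintro _ ⟨k, rfl⟩
  exact h k

/-- `η ↦ ∑ ⟨y k, η⟩ b k` -/
def Sop (y : Yy ι H) : H →L[ℂ] H :=
  LinearMap.mkContinuous
    { toFun := fun η => b.repr.symm (mk2 (fun k => (inner ℂ (y k) η : ℂ)) (‖η‖ * ‖y‖)
        (dom_sum _ y ‖η‖ (fun k => by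
          rw [mul_comm]
          exact norm_inner_le_norm _ _)))
      map_add' := by
        intro u v
        rw [← map_add]
        congr 1
        ext k
        simp only [mk2_apply, lp.coeFn_add, Pi.add_apply, inner_add_right]
      map_smul' := by
        intro c u
        rw [RingHom.id_apply, ← map_smul]
        congr 1
        ext k
        simp only [mk2_apply, lp.coeFn_smul, Pi.smul_apply, inner_smul_right, smul_eq_mul] }
    ‖y‖ (by
      intro η
      show ‖b.repr.symm _‖ ≤ _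
      rw [LinearIsometryEquiv.norm_map]
      exact (mk2_norm _ _ (by positivity) _).trans (le_of_eq (mul_comm _ _)))

lemma Sop_norm (y : Yy ι H) : ‖Sop b y‖ ≤ ‖y‖ := LinearMap.mkContinuous_norm_le _ (norm_nonneg _) _

omit [CompleteSpace H] in
lemma Sop_inner (y : Yy ι H) (η : H) (k : ι) : inner ℂ (b k) (Sop b y η) = inner ℂ (y k) η := by
  rw [← b.repr_apply_apply]
  show (b.repr (b.repr.symm _)) k = _
  rw [LinearIsometryEquiv.apply_symm_apply]
  rfl

/-- the operator with columns `y k` -/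
def Top (y : Yy ι H) : H →L[ℂ] H := ContinuousLinearMap.adjoint (Sop b y)

lemma Top_b (y : Yy ι H) (k : ι) : Top b y (b k) = y k := by
  refine ext_inner_right ℂ fun η => ?_
  rw [Top, ContinuousLinearMap.adjoint_inner_left, Sop_inner]

lemma Top_norm (y : Yy ι H) : ‖Top b y‖ ≤ ‖y‖ := by
  rw [Top, LinearIsometryEquiv.norm_map]
  exact Sop_norm b y

/-- the embedding -/
def iY : Yy ι H →L[ℂ] (H →L[ℂ] H) :=
  LinearMap.mkContinuous
    { toFun := fun y => Top b y
      map_add' := by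
        intro u v
        refine ext_b b fun k => ?_
        rw [add_apply, Top_b, Top_b, Top_b]
        rfl
      map_smul' := by
        intro c u
        refine ext_b b fun k => ?_
        rw [RingHom.id_apply, smul_apply, Top_b, Top_b]
        rfl }
    1 (by
      intro y
      rw [one_mul]
      exact Top_norm b y)

lemma iY_b (y : Yy ι H) (k : ι) : iY b y (b k) = y k := Top_b b y k

lemma iY_inj : Function.Injective (iY b) := by
  intro y z h
  ext k
  rw [← iY_b b y k, h, iY_b]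

/-- Hilbert-Schmidt norm squared -/
def hs (T : H →L[ℂ] H) : ℝ≥0∞ := ∑' k, ‖T (b k)‖ₑ ^ 2

omit [CompleteSpace H] in
lemma parseval (v : H) : ‖v‖ₑ ^ 2 = ∑' k, ‖(inner ℂ (b k) v : ℂ)‖ₑ ^ 2 := by
  have h1 : ‖v‖ ^ 2 = ∑' k, ‖(inner ℂ (b k) v : ℂ)‖ ^ 2 := by
    have h2 : ‖b.repr v‖ = ‖v‖ := LinearIsometryEquiv.norm_map _ _
    have h3 := lp.norm_rpow_eq_tsum (p := 2) (by norm_num) (b.repr v)
    rw [h2] at h3
    simp only [ENNReal.toReal_ofNat, Real.rpow_ofNat, b.repr_apply_apply] at h3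
    exact h3
  have hsum : Summable (fun k => ‖(inner ℂ (b k) v : ℂ)‖ ^ 2) := by
    have h3 := (lp.memℓp (b.repr v)).summable (by norm_num)
    simp only [ENNReal.toReal_ofNat, Real.rpow_ofNat, b.repr_apply_apply] at h3
    exact h3
  have h4 : ∀ z : ℝ, 0 ≤ z → ENNReal.ofReal (z ^ 2) = ENNReal.ofReal z ^ 2 := fun z hz =>
    ENNReal.ofReal_pow hz 2
  rw [← ofReal_norm, ← h4 _ (norm_nonneg _), h1, ENNReal.ofReal_tsum_of_nonneg (fun k => sq_nonneg _) hsum]
  refine tsum_congr fun k => ?_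
  rw [h4 _ (norm_nonneg _), ofReal_norm]

lemma hs_adj (T : H →L[ℂ] H) : hs b (ContinuousLinearMap.adjoint T) = hs b T := by
  rw [hs, hs]
  rw [tsum_congr fun k => parseval b (ContinuousLinearMap.adjoint T (b k))]
  rw [tsum_congr fun k => parseval b (T (b k))]
  rw [ENNReal.tsum_comm]
  refine tsum_congr fun k => tsum_congr fun j => ?_
  rw [ContinuousLinearMap.adjoint_inner_right]
  rw [← inner_conj_symm, RCLike.enorm_conj]

omit [CompleteSpace H] in
lemma hs_left (S T : H →L[ℂ] H) : hs b (S * T) ≤ ‖S‖ₑ ^ 2 * hs b T := by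
  rw [hs, hs, ← ENNReal.tsum_mul_left]
  refine ENNReal.tsum_le_tsum fun k => ?_
  rw [← mul_pow]
  gcongr
  exact ContinuousLinearMap.le_opENorm _ _

lemma hs_right (S T : H →L[ℂ] H) : hs b (T * S) ≤ ‖S‖ₑ ^ 2 * hs b T := by
  rw [← hs_adj b (T * S), ← hs_adj b T]
  have h1 : ContinuousLinearMap.adjoint (T * S) =
      ContinuousLinearMap.adjoint S * ContinuousLinearMap.adjoint T :=
    ContinuousLinearMap.adjoint_comp T S
  rw [h1]
  refine (hs_left b _ _).trans ?_
  have h2 : ‖ContinuousLinearMap.adjoint S‖ₑ = ‖S‖ₑ := by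
    rw [← ofReal_norm, ← ofReal_norm, LinearIsometryEquiv.norm_map]
  rw [h2]

lemma hs_Top (y : Yy ι H) : hs b (Top b y) ≤ ‖y‖ₑ ^ 2 := by
  rw [hs, ENNReal.tsum_eq_iSup_sum]
  refine iSup_le fun s => ?_
  have h := sum_sq_le y s
  simp only [Top_b]
  rw [← ofReal_norm, ← ENNReal.ofReal_pow (norm_nonneg _)]
  refine le_trans (le_of_eq ?_) (ENNReal.ofReal_le_ofReal h)
  rw [ENNReal.ofReal_sum_of_nonneg (fun k _ => sq_nonneg _)]
  refine Finset.sum_congr rfl fun k _ => ?_
  rw [ENNReal.ofReal_pow (norm_nonneg _), ofReal_norm]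

omit [CompleteSpace H] in
lemma hs_fin (T : H →L[ℂ] H) (C : ℝ) (hC : 0 ≤ C) (h : hs b T ≤ ENNReal.ofReal C ^ 2)
    (s : Finset ι) : ∑ k ∈ s, ‖T (b k)‖ ^ 2 ≤ C ^ 2 := by
  have h1 := (ENNReal.sum_le_tsum s).trans h
  rw [← ENNReal.ofReal_pow hC] at h1
  have h2 : ∑ k ∈ s, ‖T (b k)‖ₑ ^ 2 = ENNReal.ofReal (∑ k ∈ s, ‖T (b k)‖ ^ 2) := by
    rw [ENNReal.ofReal_sum_of_nonneg (fun k _ => sq_nonneg _)]
    refine Finset.sum_congr rfl fun k _ => ?_
    rw [ENNReal.ofReal_pow (norm_nonneg _), ofReal_norm]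
  rw [h2] at h1
  exact (ENNReal.ofReal_le_ofReal_iff (sq_nonneg _)).1 h1

lemma TS_fin (S : H →L[ℂ] H) (y : Yy ι H) (s : Finset ι) :
    ∑ k ∈ s, ‖Top b y (S (b k))‖ ^ 2 ≤ (‖S‖ * ‖y‖) ^ 2 := by
  refine hs_fin b (Top b y * S) _ (by positivity) ?_ s
  refine (hs_right b S (Top b y)).trans ?_
  rw [ENNReal.ofReal_mul (norm_nonneg _), mul_pow, ofReal_norm, ofReal_norm]
  gcongr
  exact hs_Top b y


/-- left multiplication on columns -/
def LY : (H →L[ℂ] H) →L[ℂ] Yy ι H →L[ℂ] Yy ι H :=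
  LinearMap.mkContinuous₂
    (LinearMap.mk₂ ℂ
      (fun (S : H →L[ℂ] H) (y : Yy ι H) => (mk2 (fun k => S (y k)) (‖S‖ * ‖y‖)
        (dom_sum _ y ‖S‖ (fun k => ContinuousLinearMap.le_opNorm _ _)) : Yy ι H))
      (by
        intro S T y
        ext k
        rfl)
      (by
        intro c S y
        ext k
        rfl)
      (by
        intro S y z
        ext k
        exact map_add S _ _)
      (by
        intro c S y
        ext k
        exact map_smul S _ _))
    1 (by
      intro S y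
      rw [one_mul]
      exact mk2_norm _ _ (by positivity) (dom_sum _ y ‖S‖ (fun k => ContinuousLinearMap.le_opNorm _ _)))

lemma LY_apply (S : H →L[ℂ] H) (y : Yy ι H) (k : ι) : LY S y k = S (y k) := rfl

/-- right multiplication on columns -/
def RY : (H →L[ℂ] H) →L[ℂ] Yy ι H →L[ℂ] Yy ι H :=
  LinearMap.mkContinuous₂
    (LinearMap.mk₂ ℂ
      (fun (S : H →L[ℂ] H) (y : Yy ι H) => (mk2 (fun k => Top b y (S (b k))) (‖S‖ * ‖y‖)
        (TS_fin b S y) : Yy ι H))
      (by
        intro S T y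
        ext k
        exact map_add (Top b y) _ _)
      (by
        intro c S y
        ext k
        exact map_smul (Top b y) _ _)
      (by
        intro S y z
        ext k
        show (iY b (y + z)) (S (b k)) = (iY b y) (S (b k)) + (iY b z) (S (b k))
        rw [map_add]
        rfl)
      (by
        intro c S y
        ext k
        show (iY b (c • y)) (S (b k)) = c • (iY b y) (S (b k))
        rw [map_smul]
        rfl))
    1 (by
      intro S y
      rw [one_mul]
      exact mk2_norm _ _ (by positivity) (TS_fin b S y))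

lemma RY_apply (S : H →L[ℂ] H) (y : Yy ι H) (k : ι) : RY b S y k = iY b y (S (b k)) := rfl

open Classical in
omit [CompleteSpace H] in
lemma pk_aux (k : ι) (x : H →L[ℂ] H) (s : Finset ι) :
    ∑ j ∈ s, ‖(if j = k then x (b k) else 0 : H)‖ ^ 2 ≤ ‖x‖ ^ 2 := by
  have h1 : ∀ j ∈ s, ‖(if j = k then x (b k) else 0 : H)‖ ^ 2 = if j = k then ‖x (b k)‖ ^ 2 else 0 := by
    intro j _
    split_ifs <;> simp
  rw [Finset.sum_congr rfl h1, Finset.sum_ite_eq']
  have h2 : ‖x (b k)‖ ≤ ‖x‖ := by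
    have := x.le_opNorm (b k)
    rwa [b.orthonormal.1 k, mul_one] at this
  split_ifs
  · exact pow_le_pow_left₀ (norm_nonneg _) h2 2
  · exact sq_nonneg _

open Classical in
/-- the columns of an operator -/
def pk (k : ι) : (H →L[ℂ] H) →L[ℂ] Yy ι H :=
  LinearMap.mkContinuous
    { toFun := fun x => (mk2 (fun j => if j = k then x (b k) else 0) ‖x‖ (pk_aux b k x) : Yy ι H)
      map_add' := by
        classical
        intro u v
        ext j
        show (if j = k then (u + v) (b k) else 0) = (if j = k then u (b k) else 0) +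
          (if j = k then v (b k) else 0)
        split_ifs <;> simp
      map_smul' := by
        classical
        intro c u
        ext j
        show (if j = k then (c • u) (b k) else 0) = c • (if j = k then u (b k) else 0)
        split_ifs <;> simp }
    1 (by
      intro x
      rw [one_mul]
      exact mk2_norm _ _ (norm_nonneg _) (pk_aux b k x))

open Classical in
lemma pk_apply (k j : ι) (x : H →L[ℂ] H) : pk b k x j = if j = k then x (b k) else 0 := rfl

lemma pk_norm (k : ι) : ‖pk b k‖ ≤ 1 := LinearMap.mkContinuous_norm_le _ zero_le_one _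

/-- the rank one projections -/
def pr1 (k : ι) : H →L[ℂ] H := (innerSL ℂ (b k)).smulRight (b k)

lemma pr1_apply (k : ι) (ξ : H) : pr1 b k ξ = (inner ℂ (b k) ξ : ℂ) • b k := rfl

open Classical in
lemma pr1_b (k j : ι) : pr1 b k (b j) = if j = k then b k else 0 := by
  rw [pr1_apply, orthonormal_iff_ite.1 b.orthonormal]
  by_cases h : j = k
  · rw [if_pos h, if_pos h.symm, one_smul]
  · rw [if_neg h, if_neg (fun h' => h h'.symm), zero_smul]

/-- diagonal operators -/
def diag : Zi ι →L[ℂ] (H →L[ℂ] H) :=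
  LinearMap.mkContinuous (Fs.lin (pr1 b)) 1 (by
    classical
    intro z
    rw [one_mul]
    refine ContinuousLinearMap.opNorm_le_bound _ (norm_nonneg _) fun ξ => ?_
    have key : ∀ k, ‖b.repr ((Fs.lin (pr1 b) z) ξ) k‖ ≤ ‖z‖ * ‖b.repr ξ k‖ := by
      intro k
      have h1 : b.repr ((Fs.lin (pr1 b) z) ξ) k = z.c k * b.repr ξ k := by
        rw [b.repr_apply_apply, b.repr_apply_apply, Fs.lin_apply]
        rw [sum_apply, inner_sum]
        rw [Finset.sum_eq_single k]
        · rw [smul_apply, pr1_apply, inner_smul_right, inner_smul_right]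
          rw [inner_self_eq_norm_sq_to_K, b.orthonormal.1 k]
          simp
        · intro j _ hj
          rw [smul_apply, pr1_apply, inner_smul_right, inner_smul_right]
          rw [b.orthonormal.2 (Ne.symm hj)]
          simp
        · intro hk
          have : z.c k = 0 := Finsupp.notMem_support_iff.1 hk
          rw [this, zero_smul]
          simp
      rw [h1, norm_mul]
      exact mul_le_mul_of_nonneg_right (Zi.c_le z k) (norm_nonneg _)
    have h2 := mk2_norm (fun k => b.repr ((Fs.lin (pr1 b) z) ξ) k) (‖z‖ * ‖b.repr ξ‖) (by positivity)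
      (dom_sum _ (b.repr ξ) ‖z‖ key)
    have h3 : mk2 (fun k => b.repr ((Fs.lin (pr1 b) z) ξ) k) (‖z‖ * ‖b.repr ξ‖)
      (dom_sum _ (b.repr ξ) ‖z‖ key) = b.repr ((Fs.lin (pr1 b) z) ξ) := rfl
    rw [h3, LinearIsometryEquiv.norm_map, LinearIsometryEquiv.norm_map] at h2
    exact h2)

lemma diag_e (k : ι) : diag b (Fs.e k) = pr1 b k := Fs.lin_e _ _

/-- diagonal operators on columns -/
def dY : Zi ι →L[ℂ] Yy ι H →L[ℂ] Yy ι H :=
  LinearMap.mkContinuous₂
    (LinearMap.mk₂ ℂ
      (fun (z : Zi ι) (y : Yy ι H) => (mk2 (fun k => z.c k • y k) (‖z‖ * ‖y‖)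
        (dom_sum _ y ‖z‖ (fun k => by
          rw [norm_smul]
          exact mul_le_mul_of_nonneg_right (Zi.c_le z k) (norm_nonneg _))) : Yy ι H))
      (by
        intro S T y
        ext k
        exact add_smul (S.c k) (T.c k) (y k))
      (by
        intro c S y
        ext k
        exact smul_assoc c (S.c k) (y k))
      (by
        intro S y z
        ext k
        exact smul_add _ _ _)
      (by
        intro c S y
        ext k
        exact smul_comm _ _ _))
    1 (by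
      intro S y
      rw [one_mul]
      exact mk2_norm _ _ (by positivity) (dom_sum _ y ‖S‖ (fun k => by
          rw [norm_smul]
          exact mul_le_mul_of_nonneg_right (Zi.c_le S k) (norm_nonneg _))))

lemma dY_apply (z : Zi ι) (y : Yy ι H) (k : ι) : dY z y k = z.c k • y k := rfl

/-- matrix coefficients -/
def mc (η ξ : H) : (H →L[ℂ] H) →L[ℂ] ℂ := (innerSL ℂ η) ∘L (ContinuousLinearMap.apply ℂ H ξ)

lemma mc_apply (η ξ : H) (x : H →L[ℂ] H) : mc η ξ x = inner ℂ η (x ξ) := rfl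

/-- the normal functionals -/
def NN (H : Type) [NormedAddCommGroup H] [InnerProductSpace ℂ H] : Set ((H →L[ℂ] H) →L[ℂ] ℂ) :=
  {φ | ∃ η ξ : H, φ = mc η ξ}

lemma i_pk (k : ι) (x : H →L[ℂ] H) : iY b (pk b k x) = x * pr1 b k := by
  classical
  refine ext_b b fun j => ?_
  rw [iY_b, pk_apply]
  show _ = x (pr1 b k (b j))
  rw [pr1_b]
  split_ifs <;> simp

lemma cptX_proof (J : Type) (U : Ultrafilter J) (x : J → (H →L[ℂ] H)) (C : ℝ)
    (hx : ∀ j, ‖x j‖ ≤ C) :
    ∃ y : H →L[ℂ] H, ‖y‖ ≤ C ∧ ∀ φ ∈ NN H, Tendsto (fun j => φ (x j)) U (𝓝 (φ y)) := by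
  have hC : 0 ≤ C := by
    obtain ⟨j⟩ : Nonempty J := by
      by_contra h
      rw [not_nonempty_iff] at h
      exact (Ultrafilter.neBot U).ne (Filter.filter_eq_bot_of_isEmpty _)
    exact (norm_nonneg _).trans (hx j)
  have h1 : ∀ ξ : H, ∃ y : H, ‖y‖ ≤ C * ‖ξ‖ ∧
      ∀ f : H →L[ℂ] ℂ, Tendsto (fun j => f (x j ξ)) U (𝓝 (f y)) := by
    intro ξ
    exact weak_cpt H J U (fun j => x j ξ) (C * ‖ξ‖) (fun j =>
      ((x j).le_opNorm ξ).trans (mul_le_mul_of_nonneg_right (hx j) (norm_nonneg _)))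
  choose Y hY1 hY2 using h1
  have hadd : ∀ u v, Y (u + v) = Y u + Y v := by
    intro u v
    refine ext_inner_left ℂ fun w => ?_
    refine tendsto_nhds_unique (hY2 (u + v) (innerSL ℂ w)) ?_
    have h3 := (hY2 u (innerSL ℂ w)).add (hY2 v (innerSL ℂ w))
    rw [← map_add] at h3
    refine h3.congr fun j => ?_
    rw [← map_add, ← map_add]
  have hsmul : ∀ (c : ℂ) u, Y (c • u) = c • Y u := by
    intro c u
    refine ext_inner_left ℂ fun w => ?_
    refine tendsto_nhds_unique (hY2 (c • u) (innerSL ℂ w)) ?_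
    have h3 := (hY2 u (innerSL ℂ w)).const_smul c
    rw [← map_smul] at h3
    refine h3.congr fun j => ?_
    rw [← map_smul, ← map_smul]
  refine ⟨LinearMap.mkContinuous { toFun := Y, map_add' := hadd, map_smul' := hsmul } C hY1,
    LinearMap.mkContinuous_norm_le _ hC _, ?_⟩
  rintro φ ⟨η, ξ, rfl⟩
  exact hY2 ξ (innerSL ℂ η)

/-- the pair of bounded and Hilbert-Schmidt operators -/
def basePr {A : Type} [NonUnitalNormedRing A] [NormedSpace ℂ A] (π : A →L[ℂ] (H →L[ℂ] H))
    (hπ : ∀ x y, π (x * y) = π x * π y) : Pr A ι where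
  X := H →L[ℂ] H
  Y := Yy ι H
  i := iY b
  inj := iY_inj b
  l := (ContinuousLinearMap.mul ℂ (H →L[ℂ] H)) ∘L π
  r := (ContinuousLinearMap.mul ℂ (H →L[ℂ] H)).flip ∘L π
  lY := (LY : (H →L[ℂ] H) →L[ℂ] Yy ι H →L[ℂ] Yy ι H) ∘L π
  rY := RY b ∘L π
  l_mul := by
    intro a c x
    show π (a * c) * x = π a * (π c * x)
    rw [hπ, mul_assoc]
  r_mul := by
    intro a c x
    show x * π (a * c) = (x * π a) * π c
    rw [hπ, mul_assoc]
  lr := by
    intro a c x
    show π a * (x * π c) = (π a * x) * π c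
    rw [mul_assoc]
  i_l := by
    intro a y
    refine ext_b b fun k => ?_
    show iY b (LY (π a) y) (b k) = (π a) (iY b y (b k))
    rw [iY_b, iY_b, LY_apply]
  i_r := by
    intro a y
    refine ext_b b fun k => ?_
    show iY b (RY b (π a) y) (b k) = (iY b y) (π a (b k))
    rw [iY_b, RY_apply]
  p := pk b
  pb := 1
  p_le := pk_norm b
  D := (ContinuousLinearMap.mul ℂ (H →L[ℂ] H)).flip ∘L (diag b)
  DY := dY
  D_e := by
    intro k x
    show x * diag b (Fs.e k) = iY b (pk b k x)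
    rw [i_pk, diag_e]
  DY_e := by
    classical
    intro k y
    refine lp.ext (funext fun j => ?_)
    rw [dY_apply, pk_apply, iY_b, Fs.c_e]
    by_cases h : j = k
    · rw [if_pos h, if_pos h.symm, one_smul, h]
    · rw [if_neg h, if_neg (fun h' => h h'.symm), zero_smul]
  N := NN H
  N_sep := by
    intro x hx
    refine ContinuousLinearMap.ext fun ξ => ?_
    refine ext_inner_left ℂ fun η => ?_
    have h := hx (mc η ξ) ⟨η, ξ, rfl⟩
    rw [mc_apply] at h
    rw [h, zero_apply, inner_zero_right]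
  N_l := by
    rintro φ ⟨η, ξ, rfl⟩ a
    refine ⟨ContinuousLinearMap.adjoint (π a) η, ξ, ?_⟩
    refine ContinuousLinearMap.ext fun x => ?_
    show inner ℂ η (π a (x ξ)) = inner ℂ (ContinuousLinearMap.adjoint (π a) η) (x ξ)
    rw [ContinuousLinearMap.adjoint_inner_left]
  N_r := by
    rintro φ ⟨η, ξ, rfl⟩ a
    exact ⟨η, π a ξ, rfl⟩
  N_p := by
    rintro φ ⟨η, ξ, rfl⟩ k
    refine ⟨η, pr1 b k ξ, ?_⟩
    refine ContinuousLinearMap.ext fun x => ?_
    show inner ℂ η (iY b (pk b k x) ξ) = inner ℂ η (x (pr1 b k ξ))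
    rw [i_pk]
    rfl
  cptX := fun J U x C hx => cptX_proof J U x C hx
  cptY := by
    intro J U x C hx
    obtain ⟨y, hy1, hy2⟩ := weak_cpt (Yy ι H) J U x C hx
    exact ⟨y, hy1, fun φ _ => hy2 (φ ∘L iY b)⟩
  sum_p := by
    rintro φ ⟨η, ξ, rfl⟩ x
    have h := ((b.hasSum_repr ξ).mapL x).mapL (innerSL ℂ η)
    have e : (fun k => mc η ξ (iY b (pk b k x))) = fun k => innerSL ℂ η (x (b.repr ξ k • b k)) := by
      funext k
      rw [i_pk, mc_apply]
      show inner ℂ η (x (pr1 b k ξ)) = inner ℂ η (x (b.repr ξ k • b k))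
      rw [pr1_apply, b.repr_apply_apply]
    show HasSum (fun k => mc η ξ (iY b (pk b k x))) (mc η ξ x)
    rw [e]
    exact h

theorem taskBase' : TaskBase := by
  intro A _ _ H _ _ _ ι b π hπ
  refine ⟨basePr b π hπ, LinearMap.id, Function.bijective_id, fun a x => rfl, fun a x => rfl, ?_⟩
  intro y
  have h0 : ∀ z : Yy ι H, Summable (fun k => ‖iY b z (b k)‖ ^ 2) := by
    intro z
    have h3 := (lp.memℓp z).summable (by norm_num)
    simp only [ENNReal.toReal_ofNat, Real.rpow_ofNat] at h3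
    refine h3.congr fun k => ?_
    rw [iY_b]
  exact h0 y

end

end Pool.Agent.H724R3.N.Base

namespace Pool.Agent.H724R3.N

theorem taskBase : TaskBase := Base.taskBase'

end Pool.Agent.H724R3.N
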