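import Mathlib
import Pool.Agent.H724R3.N.Stmts

set_option autoImplicit false

/-!
Task INTER of the project H724N (by helper861): interchange of the two iterated sums of a bounded
bilinear form on finitely supported functions with the sup norm.
-/

namespace Pool.Agent.H724R3.N

open Filter Topology

noncomputable section

namespace Inter

variable {ι : Type}

/-- coordinate map -/
def cL (k : ι) : Zi ι →ₗ[ℂ] ℂ where
  toFun z := z.c k
  map_add' _ _ := rfl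
  map_smul' _ _ := rfl

/-- a multiple of an indicator function -/
def ind (θ : ℂ) (F : Finset ι) : Zi ι := ∑ k ∈ F, θ • (Fs.e k : Zi ι)

open Classical in
lemma c_ind (θ : ℂ) (F : Finset ι) (j : ι) : (ind θ F).c j = if j ∈ F then θ else 0 := by
  have h1 : (ind θ F).c j = cL j (ind θ F) := rfl
  rw [h1, ind, map_sum]
  have h2 : ∀ k ∈ F, cL j (θ • (Fs.e k : Zi ι)) = if k = j then θ else 0 := by
    intro k _
    rw [map_smul]
    have h3 : cL j (Fs.e k : Zi ι) = (Fs.e k : Zi ι).c j := rfl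
    rw [h3, Fs.c_e]
    split_ifs <;> simp
  rw [Finset.sum_congr rfl h2, Finset.sum_ite_eq']

lemma norm_add_ind {x : Zi ι} (hx : ‖x‖ ≤ 1) {F : Finset ι} (hF : ∀ k ∈ F, x.c k = 0) {θ : ℂ}
    (hθ : ‖θ‖ ≤ 1) : ‖x + ind θ F‖ ≤ 1 := by
  classical
  apply Zi.norm_le zero_le_one
  intro k
  have h1 : (x + ind θ F).c k = x.c k + (ind θ F).c k := rfl
  rw [h1, c_ind]
  split_ifs with hk
  · rw [hF k hk, zero_add]; exact hθ
  · rw [add_zero]; exact (Zi.c_le x k).trans hx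

lemma exists_supp (x : Zi ι) : ∃ S : Finset ι, ∀ k, k ∉ S → x.c k = 0 :=
  ⟨(show ι →₀ ℂ from x).support, fun _ hk => Finsupp.notMem_support_iff.1 hk⟩

lemma apply_ind (R : Zi ι →L[ℂ] Zi ι →L[ℂ] ℂ) (θ η : ℂ) (F G : Finset ι) :
    R (ind θ F) (ind η G) = θ * η * ∑ k ∈ F, ∑ j ∈ G, R (Fs.e k) (Fs.e j) := by
  have h0 : R (∑ k ∈ F, θ • (Fs.e k : Zi ι)) = ∑ k ∈ F, R (θ • (Fs.e k : Zi ι)) := map_sum R _ _
  rw [ind, ind, h0, sum_apply, Finset.mul_sum]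
  refine Finset.sum_congr rfl fun k _ => ?_
  rw [map_sum, Finset.mul_sum]
  refine Finset.sum_congr rfl fun j _ => ?_
  rw [map_smul, map_smul, smul_apply, smul_eq_mul, smul_eq_mul]
  ring

lemma sum_norm_le (φ : Zi ι →L[ℂ] ℂ) (F : Finset ι) : ∑ k ∈ F, ‖φ (Fs.e k)‖ ≤ ‖φ‖ := by
  classical
  have key : ∀ F : Finset ι, ∃ x : Zi ι, ‖x‖ ≤ 1 ∧ (∀ k, k ∉ F → x.c k = 0) ∧
      φ x = ((∑ k ∈ F, ‖φ (Fs.e k)‖ : ℝ) : ℂ) := by
    intro F
    induction F using Finset.induction_on with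
    | empty => exact ⟨0, by simp, fun _ _ => rfl, by simp⟩
    | insert a F ha ih =>
      obtain ⟨x, hx1, hx2, hx3⟩ := ih
      obtain ⟨θ, hθ1, hθ2⟩ : ∃ θ : ℂ, ‖θ‖ ≤ 1 ∧ θ * φ (Fs.e a) = (‖φ (Fs.e a)‖ : ℂ) := by
        by_cases h0 : φ (Fs.e a) = 0
        · exact ⟨0, by simp, by simp [h0]⟩
        · refine ⟨(‖φ (Fs.e a)‖ : ℂ) / φ (Fs.e a), ?_, div_mul_cancel₀ _ h0⟩
          rw [norm_div, Complex.norm_real, norm_norm, div_self (norm_ne_zero_iff.2 h0)]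
      refine ⟨x + ind θ {a}, norm_add_ind hx1 ?_ hθ1, ?_, ?_⟩
      · intro k hk
        rw [Finset.mem_singleton] at hk
        rw [hk]
        exact hx2 a ha
      · intro k hk
        have h1 : (x + ind θ {a}).c k = x.c k + (ind θ {a}).c k := rfl
        rw [Finset.mem_insert, not_or] at hk
        rw [h1, hx2 k hk.2, c_ind, if_neg (by simpa using hk.1), add_zero]
      · rw [map_add, hx3, ind, Finset.sum_singleton, map_smul, smul_eq_mul, hθ2,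
          Finset.sum_insert ha]
        push_cast
        ring
  obtain ⟨x, hx1, -, hx3⟩ := key F
  have h1 : ‖φ x‖ ≤ ‖φ‖ * ‖x‖ := φ.le_opNorm x
  have h2 : ‖φ x‖ = ∑ k ∈ F, ‖φ (Fs.e k)‖ := by
    rw [hx3, Complex.norm_real, Real.norm_of_nonneg (Finset.sum_nonneg fun _ _ => norm_nonneg _)]
  rw [← h2]
  exact h1.trans ((mul_le_mul_of_nonneg_left hx1 (norm_nonneg _)).trans (mul_one _).le)

lemma summable_norm (φ : Zi ι →L[ℂ] ℂ) : Summable fun k => ‖φ (Fs.e k)‖ :=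
  summable_of_sum_le (fun _ => norm_nonneg _) (sum_norm_le φ)

lemma col (R : Zi ι →L[ℂ] Zi ι →L[ℂ] ℂ) (j : ι) :
    Summable fun k => ‖R (Fs.e k) (Fs.e j)‖ := by
  simpa using summable_norm (R.flip (Fs.e j))

lemma step (R : Zi ι →L[ℂ] Zi ι →L[ℂ] ℂ) {ε : ℝ} (hε : 0 < ε)
    (hneg : ∀ F₀ : Finset ι, ∃ F : Finset ι, Disjoint F F₀ ∧ ∃ G : Finset ι,
      ε < ‖∑ k ∈ F, ∑ j ∈ G, R (Fs.e k) (Fs.e j)‖) (n : ℕ) :
    ∃ x y : Zi ι, ‖x‖ ≤ 1 ∧ ‖y‖ ≤ 1 ∧ n * (ε / 2) ≤ (R x y).re := by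
  classical
  induction n with
  | zero => exact ⟨0, 0, by simp, by simp, by simp⟩
  | succ n ih =>
    obtain ⟨x, y, hx, hy, hxy⟩ := ih
    obtain ⟨Sx, hSx⟩ := exists_supp x
    obtain ⟨Sy, hSy⟩ := exists_supp y
    have hs : Summable fun k => ∑ j ∈ Sy, ‖R (Fs.e k) (Fs.e j)‖ :=
      summable_sum fun j _ => col R j
    obtain ⟨F₁, hF₁⟩ := summable_iff_vanishing_norm.1 hs (ε / 2) (by linarith)
    obtain ⟨F, hF, G, hG⟩ := hneg (Sx ∪ F₁)
    rw [Finset.disjoint_union_right] at hF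
    have h1 := hF₁ F hF.2
    rw [Real.norm_of_nonneg (Finset.sum_nonneg fun _ _ => Finset.sum_nonneg fun _ _ =>
      norm_nonneg _)] at h1
    set w : ℂ := ∑ k ∈ F, ∑ j ∈ G \ Sy, R (Fs.e k) (Fs.e j) with hw
    have hsplit : ∑ k ∈ F, ∑ j ∈ G, R (Fs.e k) (Fs.e j) =
        w + ∑ k ∈ F, ∑ j ∈ G ∩ Sy, R (Fs.e k) (Fs.e j) := by
      rw [hw, ← Finset.sum_add_distrib]
      refine Finset.sum_congr rfl fun k _ => ?_
      rw [add_comm]
      exact (Finset.sum_inter_add_sum_sdiff G Sy _).symm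
    have hsmall : ‖∑ k ∈ F, ∑ j ∈ G ∩ Sy, R (Fs.e k) (Fs.e j)‖ < ε / 2 := by
      refine lt_of_le_of_lt ?_ h1
      refine (norm_sum_le _ _).trans (Finset.sum_le_sum fun k _ => ?_)
      refine (norm_sum_le _ _).trans ?_
      exact Finset.sum_le_sum_of_subset_of_nonneg Finset.inter_subset_right
        fun _ _ _ => norm_nonneg _
    have hwn : ε / 2 < ‖w‖ := by
      rw [hsplit] at hG
      have := norm_add_le w (∑ k ∈ F, ∑ j ∈ G ∩ Sy, R (Fs.e k) (Fs.e j))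
      linarith
    have hw0 : w ≠ 0 := by
      intro h0
      rw [h0, norm_zero] at hwn
      linarith
    obtain ⟨θ, hθ1, hθ2⟩ : ∃ θ : ℂ, ‖θ‖ ≤ 1 ∧ θ * w = (‖w‖ : ℂ) := by
      refine ⟨(‖w‖ : ℂ) / w, ?_, div_mul_cancel₀ _ hw0⟩
      rw [norm_div, Complex.norm_real, norm_norm, div_self (norm_ne_zero_iff.2 hw0)]
    have hxF : ∀ k ∈ F, x.c k = 0 := fun k hk => hSx k (Finset.disjoint_left.1 hF.1 hk)
    have hyG : ∀ k ∈ G \ Sy, y.c k = 0 := fun k hk => hSy k (Finset.mem_sdiff.1 hk).2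
    have e1 := apply_ind R θ 1 F (G \ Sy)
    have e2 := apply_ind R (-θ) (-1) F (G \ Sy)
    have e3 : ind (-θ) F = - ind θ F := by
      rw [ind, ind, ← Finset.sum_neg_distrib]
      exact Finset.sum_congr rfl fun _ _ => neg_smul _ _
    have e4 : ind (-1) (G \ Sy) = - ind 1 (G \ Sy) := by
      rw [ind, ind, ← Finset.sum_neg_distrib]
      exact Finset.sum_congr rfl fun _ _ => neg_smul _ _
    have hsum : R (x + ind θ F) (y + ind 1 (G \ Sy)) + R (x + ind (-θ) F) (y + ind (-1) (G \ Sy))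
        = 2 * R x y + 2 * (‖w‖ : ℂ) := by
      rw [← hθ2, e3, e4]
      simp only [map_add, map_neg, add_apply, neg_apply]
      rw [e1]
      ring
    have hre := congrArg Complex.re hsum
    simp only [Complex.add_re, Complex.mul_re, Complex.ofReal_re, Complex.ofReal_im,
      Complex.re_ofNat, Complex.im_ofNat, zero_mul, sub_zero, mul_zero] at hre
    by_cases hc : ((n + 1 : ℕ) : ℝ) * (ε / 2) ≤ (R (x + ind θ F) (y + ind 1 (G \ Sy))).re
    · exact ⟨_, _, norm_add_ind hx hxF hθ1, norm_add_ind hy hyG (by simp), hc⟩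
    · refine ⟨x + ind (-θ) F, y + ind (-1) (G \ Sy), norm_add_ind hx hxF (by simpa using hθ1),
        norm_add_ind hy hyG (by simp), ?_⟩
      push_cast at hc ⊢
      push Not at hc
      linarith

lemma unif (R : Zi ι →L[ℂ] Zi ι →L[ℂ] ℂ) {ε : ℝ} (hε : 0 < ε) :
    ∃ F₀ : Finset ι, ∀ F : Finset ι, Disjoint F F₀ → ∀ G : Finset ι,
      ‖∑ k ∈ F, ∑ j ∈ G, R (Fs.e k) (Fs.e j)‖ ≤ ε := by
  by_contra hcon
  push Not at hcon
  have hneg : ∀ F₀ : Finset ι, ∃ F : Finset ι, Disjoint F F₀ ∧ ∃ G : Finset ι,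
      ε < ‖∑ k ∈ F, ∑ j ∈ G, R (Fs.e k) (Fs.e j)‖ := hcon
  obtain ⟨n, hn⟩ := exists_nat_gt (‖R‖ / (ε / 2))
  obtain ⟨x, y, hx, hy, hxy⟩ := step R hε hneg n
  rw [div_lt_iff₀ (by linarith)] at hn
  have h1 : (R x y).re ≤ ‖R‖ := by
    refine (Complex.re_le_norm _).trans ((R.le_opNorm₂ x y).trans ?_)
    calc ‖R‖ * ‖x‖ * ‖y‖ ≤ ‖R‖ * 1 * 1 := by gcongr
      _ = ‖R‖ := by ring
  linarith

/-- row sums are summable, with the uniform tail estimate -/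
lemma tail (R : Zi ι →L[ℂ] Zi ι →L[ℂ] ℂ) {ε : ℝ} {F₀ : Finset ι}
    (hF₀ : ∀ F : Finset ι, Disjoint F F₀ → ∀ G : Finset ι,
      ‖∑ k ∈ F, ∑ j ∈ G, R (Fs.e k) (Fs.e j)‖ ≤ ε) (F : Finset ι) (hF : Disjoint F F₀) :
    ‖∑ k ∈ F, ∑' j, R (Fs.e k) (Fs.e j)‖ ≤ ε := by
  have h1 : ∀ k, HasSum (fun j => R (Fs.e k) (Fs.e j)) (∑' j, R (Fs.e k) (Fs.e j)) := fun k =>
    (summable_norm (R (Fs.e k))).of_norm.hasSum
  have h2 : HasSum (fun j => ∑ k ∈ F, R (Fs.e k) (Fs.e j)) (∑ k ∈ F, ∑' j, R (Fs.e k) (Fs.e j)) :=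
    hasSum_sum fun k _ => h1 k
  refine le_of_tendsto h2.norm (Eventually.of_forall fun G => ?_)
  have h3 := hF₀ F hF G
  rwa [Finset.sum_comm] at h3

lemma summable_rows (R : Zi ι →L[ℂ] Zi ι →L[ℂ] ℂ) :
    Summable fun k => ∑' j, R (Fs.e k) (Fs.e j) := by
  rw [summable_iff_vanishing_norm]
  intro ε hε
  obtain ⟨F₀, hF₀⟩ := unif R (half_pos hε)
  exact ⟨F₀, fun F hF => lt_of_le_of_lt (tail R hF₀ F hF) (half_lt_self hε)⟩

end Inter

open Pool.Agent.H724R3.N.Inter in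
theorem taskInter : TaskInter := by
  intro ι R
  classical
  have hb := summable_rows R
  have hc : Summable fun j => ∑' k, R (Fs.e k) (Fs.e j) := by
    simpa using summable_rows R.flip
  refine eq_of_forall_dist_le fun ε hε => ?_
  obtain ⟨F₀, hF₀⟩ := unif R hε
  -- for `F ⊇ F₀`
  have key : ∀ F : Finset ι, F₀ ⊆ F → ∀ G : Finset ι,
      ‖∑ k ∈ F, ∑ j ∈ G, R (Fs.e k) (Fs.e j) - ∑ j ∈ G, ∑' k, R (Fs.e k) (Fs.e j)‖ ≤ ε := by
    intro F hF G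
    have h1 : HasSum (fun k => ∑ j ∈ G, R (Fs.e k) (Fs.e j))
        (∑ j ∈ G, ∑' k, R (Fs.e k) (Fs.e j)) :=
      hasSum_sum fun j _ => (col R j).of_norm.hasSum
    have h2 : Tendsto (fun F' : Finset ι => ‖∑ k ∈ F, ∑ j ∈ G, R (Fs.e k) (Fs.e j) -
        ∑ k ∈ F', ∑ j ∈ G, R (Fs.e k) (Fs.e j)‖) atTop
        (𝓝 ‖∑ k ∈ F, ∑ j ∈ G, R (Fs.e k) (Fs.e j) - ∑ j ∈ G, ∑' k, R (Fs.e k) (Fs.e j)‖) :=
      (tendsto_const_nhds.sub h1).norm
    refine le_of_tendsto h2 ?_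
    filter_upwards [eventually_ge_atTop F] with F' hF'
    rw [norm_sub_rev, ← Finset.sum_sdiff hF', add_sub_cancel_right]
    apply hF₀
    exact Finset.disjoint_left.2 fun k hk hk0 => (Finset.mem_sdiff.1 hk).2 (hF hk0)
  have key2 : ∀ F : Finset ι, F₀ ⊆ F →
      ‖∑ k ∈ F, ∑' j, R (Fs.e k) (Fs.e j) - ∑' j, ∑' k, R (Fs.e k) (Fs.e j)‖ ≤ ε := by
    intro F hF
    have h1 : HasSum (fun j => ∑ k ∈ F, R (Fs.e k) (Fs.e j))
        (∑ k ∈ F, ∑' j, R (Fs.e k) (Fs.e j)) :=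
      hasSum_sum fun k _ => (summable_norm (R (Fs.e k))).of_norm.hasSum
    refine le_of_tendsto (Tendsto.norm (Tendsto.sub h1 hc.hasSum)) (Eventually.of_forall fun G => ?_)
    have h3 := key F hF G
    rwa [Finset.sum_comm] at h3
  rw [dist_eq_norm]
  refine le_of_tendsto (Tendsto.norm (Tendsto.sub hb.hasSum tendsto_const_nhds)) ?_
  filter_upwards [eventually_ge_atTop F₀] with F hF
  exact key2 F hF

end

end Pool.Agent.H724R3.N
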