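import Mathlib
import Pool.Agent.H724R3.N.Stmts

/-! Task LIFT of project H724N: lifting from projective bimodules. -/

set_option autoImplicit false

namespace Pool.Agent.H724R3.N

open Filter Topology Pool.Agent.Helper832.GS

lemma TLift.bdd_pair {A P E : Type} [NonUnitalNormedRing A] [NormedSpace ℂ A]
    [NormedAddCommGroup P] [NormedSpace ℂ P] [NormedAddCommGroup E] [NormedSpace ℂ E]
    (N : Submodule ℂ (P × E)) (f : A → P → P) (g : A → E → E)
    (hf : IsBoundedBilinearMap ℂ (fun p : A × P => f p.1 p.2))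
    (hg : IsBoundedBilinearMap ℂ (fun p : A × E => g p.1 p.2))
    (hN : ∀ a (y : N), (f a y.1.1, g a y.1.2) ∈ N) :
    IsBoundedBilinearMap ℂ
      (fun p : A × N => (⟨(f p.1 p.2.1.1, g p.1 p.2.1.2), hN p.1 p.2⟩ : N)) where
  add_left := fun a b y => by
    apply Subtype.ext
    exact Prod.ext (hf.add_left a b y.1.1) (hg.add_left a b y.1.2)
  smul_left := fun c a y => by
    apply Subtype.ext
    exact Prod.ext (hf.smul_left c a y.1.1) (hg.smul_left c a y.1.2)
  add_right := fun a y z => by
    apply Subtype.ext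
    exact Prod.ext (hf.add_right a y.1.1 z.1.1) (hg.add_right a y.1.2 z.1.2)
  smul_right := fun c a y => by
    apply Subtype.ext
    exact Prod.ext (hf.smul_right c a y.1.1) (hg.smul_right c a y.1.2)
  bound := by
    obtain ⟨C, hC, hf'⟩ := hf.bound
    obtain ⟨D, hD, hg'⟩ := hg.bound
    refine ⟨max C D, lt_max_of_lt_left hC, fun a y => ?_⟩
    show ‖((f a y.1.1, g a y.1.2) : P × E)‖ ≤ _
    rw [Prod.norm_def]
    have h0 : ‖y‖ = max ‖y.1.1‖ ‖y.1.2‖ := by
      rw [show ‖y‖ = ‖(y.1 : P × E)‖ from rfl, Prod.norm_def]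
    have h1 : ‖y.1.1‖ ≤ ‖y‖ := by rw [h0]; exact le_max_left _ _
    have h2 : ‖y.1.2‖ ≤ ‖y‖ := by rw [h0]; exact le_max_right _ _
    apply max_le
    · calc ‖f a y.1.1‖ ≤ C * ‖a‖ * ‖y.1.1‖ := hf' a y.1.1
        _ ≤ max C D * ‖a‖ * ‖y‖ := by
          have := le_max_left C D
          gcongr
    · calc ‖g a y.1.2‖ ≤ D * ‖a‖ * ‖y.1.2‖ := hg' a y.1.2
        _ ≤ max C D * ‖a‖ * ‖y‖ := by
          have := le_max_right C D
          gcongr

theorem taskLift : TaskLift := by
  intro A _ _ P E X hP φ d s hφ hd hs hsd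
  let φL : P.carrier →L[ℂ] X.carrier := hφ.1.toContinuousLinearMap
  let dL : E.carrier →L[ℂ] X.carrier := hd.1.toContinuousLinearMap
  let T : (P.carrier × E.carrier) →L[ℂ] X.carrier :=
    φL.comp (ContinuousLinearMap.fst ℂ P.carrier E.carrier) -
      dL.comp (ContinuousLinearMap.snd ℂ P.carrier E.carrier)
  let N : Submodule ℂ (P.carrier × E.carrier) := LinearMap.ker T.toLinearMap
  have hmem : ∀ q : P.carrier × E.carrier, q ∈ N ↔ φ q.1 = d q.2 := by
    intro q
    show T q = 0 ↔ _
    show φ q.1 - d q.2 = 0 ↔ _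
    exact sub_eq_zero
  have hclosed : IsClosed (N : Set (P.carrier × E.carrier)) := T.isClosed_ker
  have hcomplete : CompleteSpace N := hclosed.completeSpace_coe
  have hL : ∀ a (y : N), (P.left a y.1.1, E.left a y.1.2) ∈ N := by
    intro a y
    rw [hmem]
    show φ (P.left a y.1.1) = d (E.left a y.1.2)
    rw [hφ.2.1, hd.2.1, (hmem y.1).1 y.2]
  have hR : ∀ a (y : N), (P.right a y.1.1, E.right a y.1.2) ∈ N := by
    intro a y
    rw [hmem]
    show φ (P.right a y.1.1) = d (E.right a y.1.2)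
    rw [hφ.2.2, hd.2.2, (hmem y.1).1 y.2]
  let Y : BMod A :=
    { carrier := N
      cpl := hcomplete
      left := fun a y => ⟨(P.left a y.1.1, E.left a y.1.2), hL a y⟩
      right := fun a y => ⟨(P.right a y.1.1, E.right a y.1.2), hR a y⟩
      left_bdd := TLift.bdd_pair N P.left E.left P.left_bdd E.left_bdd hL
      right_bdd := TLift.bdd_pair N P.right E.right P.right_bdd E.right_bdd hR
      left_mul := fun a b x => by
        apply Subtype.ext
        exact Prod.ext (P.left_mul a b x.1.1) (E.left_mul a b x.1.2)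
      right_mul := fun a b x => by
        apply Subtype.ext
        exact Prod.ext (P.right_mul a b x.1.1) (E.right_mul a b x.1.2)
      left_right := fun a b x => by
        apply Subtype.ext
        exact Prod.ext (P.left_right a b x.1.1) (E.left_right a b x.1.2) }
  let pr : Y.carrier → P.carrier := fun y => (y : N).1.1
  have hpr : BMod.IsHom Y P pr := by
    refine ⟨?_, fun a x => rfl, fun a x => rfl⟩
    exact ((ContinuousLinearMap.fst ℂ P.carrier E.carrier).comp N.subtypeL).isBoundedLinearMap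
  have hadm : Admissible pr := by
    refine ⟨fun p => (⟨(p, s p), (hmem (p, s p)).2 (hsd p).symm⟩ : N), ?_, fun p => rfl⟩
    have hlin : IsLinearMap ℂ (fun p => (⟨(p, s p), (hmem (p, s p)).2 (hsd p).symm⟩ : N)) := by
      constructor
      · intro p q
        apply Subtype.ext
        exact Prod.ext rfl (hs.map_add p q)
      · intro c p
        apply Subtype.ext
        exact Prod.ext rfl (hs.map_smul c p)
    obtain ⟨C, hC, hs'⟩ := hs.bound
    refine IsLinearMap.with_bound hlin (max 1 C) fun p => ?_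
    show ‖((p, s p) : P.carrier × E.carrier)‖ ≤ _
    rw [Prod.norm_def]
    apply max_le
    · calc ‖p‖ = 1 * ‖p‖ := (one_mul _).symm
        _ ≤ max 1 C * ‖p‖ := by
          have := le_max_left 1 C
          gcongr
    · calc ‖s p‖ ≤ C * ‖p‖ := hs' p
        _ ≤ max 1 C * ‖p‖ := by
          have := le_max_right 1 C
          gcongr
  obtain ⟨ψ0, hψ0, hψ1⟩ := hP Y pr hpr hadm
  refine ⟨fun p => (ψ0 p : N).1.2, ⟨?_, ?_, ?_⟩, ?_⟩
  · exact (((ContinuousLinearMap.snd ℂ P.carrier E.carrier).comp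
      N.subtypeL).isBoundedLinearMap).comp hψ0.1
  · intro a x
    have h1 := hψ0.2.1 a x
    show (ψ0 (P.left a x) : N).1.2 = _
    rw [h1]
  · intro a x
    have h1 := hψ0.2.2 a x
    show (ψ0 (P.right a x) : N).1.2 = _
    rw [h1]
  · intro p
    have h1 := (hmem (ψ0 p : N).1).1 (ψ0 p : N).2
    rw [← h1]
    exact congrArg φ (hψ1 p)

end Pool.Agent.H724R3.N
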