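import Mathlib
import Pool.Agent.H724R3.N.Fs

set_option autoImplicit false

/-!
Dual type: limits of operators and sums of unconditional families.
-/

namespace Pool.Agent.H724R3.N

open Filter Topology
open scoped ENNReal

noncomputable section

/-- the coordinates as linear maps -/
def Fs.cl {ι : Type} {q : ℝ≥0∞} (k : ι) : Fs ι q →ₗ[ℂ] ℂ where
  toFun z := z.c k
  map_add' _ _ := rfl
  map_smul' _ _ := rfl

lemma Zi.norm_sum_le {ι : Type} (α : ι → ℂ) (F : Finset ι) (h : ∀ k ∈ F, ‖α k‖ ≤ 1) :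
    ‖∑ k ∈ F, α k • (Fs.e k : Zi ι)‖ ≤ 1 := by
  classical
  refine Zi.norm_le zero_le_one fun j => ?_
  show ‖Fs.cl j (∑ k ∈ F, α k • (Fs.e k : Zi ι))‖ ≤ 1
  rw [map_sum]
  have h1 : ∀ k ∈ F, Fs.cl j (α k • (Fs.e k : Zi ι)) = if k = j then α k else 0 := fun k _ => by
    rw [map_smul]
    show α k • (Fs.e k : Zi ι).c j = _
    rw [Fs.c_e]
    split_ifs <;> simp
  rw [Finset.sum_congr rfl h1, Finset.sum_ite_eq']
  split_ifs with hj
  · exact h j hj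
  · simp

lemma Zi.sum_le {ι : Type} (φ : Zi ι →L[ℂ] ℂ) (F : Finset ι) :
    ∑ k ∈ F, ‖φ (Fs.e k)‖ ≤ ‖φ‖ := by
  have hph : ∀ z : ℂ, ∃ α : ℂ, ‖α‖ ≤ 1 ∧ α * z = (‖z‖ : ℂ) := by
    intro z
    by_cases hz : z = 0
    · exact ⟨1, by simp, by simp [hz]⟩
    · refine ⟨(‖z‖ : ℂ) / z, ?_, ?_⟩
      · rw [norm_div, Complex.norm_real, norm_norm, div_self (norm_ne_zero_iff.2 hz)]
      · rw [div_mul_cancel₀ _ hz]
  choose α h1 h2 using fun k => hph (φ (Fs.e k))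
  have h3 : φ (∑ k ∈ F, α k • (Fs.e k : Zi ι)) = ((∑ k ∈ F, ‖φ (Fs.e k)‖ : ℝ) : ℂ) := by
    rw [map_sum, Complex.ofReal_sum]
    exact Finset.sum_congr rfl fun k _ => by rw [map_smul, smul_eq_mul, h2]
  have h4 := φ.le_opNorm (∑ k ∈ F, α k • (Fs.e k : Zi ι))
  rw [h3, Complex.norm_real, Real.norm_of_nonneg (Finset.sum_nonneg fun _ _ => norm_nonneg _)]
    at h4
  exact h4.trans (mul_le_of_le_one_right (norm_nonneg _)
    (Zi.norm_sum_le α F fun k _ => h1 k))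

lemma Zi.summable {ι : Type} (φ : Zi ι →L[ℂ] ℂ) : Summable (fun k => φ (Fs.e k)) :=
  Summable.of_norm (summable_of_sum_le (fun _ => norm_nonneg _) (Zi.sum_le φ))

lemma Fs.ext_clm {ι : Type} {q : ℝ≥0∞} [Fact (1 ≤ q)] {M : Type*} [NormedAddCommGroup M]
    [NormedSpace ℂ M] {f g : Fs ι q →L[ℂ] M} (h : ∀ k, f (Fs.e k) = g (Fs.e k)) : f = g := by
  have : (f : Fs ι q →ₗ[ℂ] M) = g := Fs.ext_map h
  ext z
  exact congrArg (fun u : Fs ι q →ₗ[ℂ] M => u z) this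

section

variable {E : Type} [NormedAddCommGroup E] [NormedSpace ℂ E]

/-- `E` is a dual space, as seen by the functionals in `M`. -/
structure IsDl (M : Set (E →L[ℂ] ℂ)) : Prop where
  sep : ∀ x, (∀ φ ∈ M, φ x = 0) → x = 0
  cpt : ∀ (J : Type) (U : Ultrafilter J) (x : J → E) (C : ℝ), (∀ j, ‖x j‖ ≤ C) →
    ∃ y : E, ‖y‖ ≤ C ∧ ∀ φ ∈ M, Tendsto (fun j => φ (x j)) U (𝓝 (φ y))

variable {M : Set (E →L[ℂ] ℂ)} (hM : IsDl M)

include hM in
lemma IsDl.eq {x y : E} (h : ∀ φ ∈ M, φ x = φ y) : x = y :=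
  sub_eq_zero.1 (hM.sep _ fun φ hφ => by rw [map_sub, h φ hφ, sub_self])

include hM in
lemma IsDl.op {V : Type} [NormedAddCommGroup V] [NormedSpace ℂ V] (J : Type)
    (U : Ultrafilter J) (T : J → V →L[ℂ] E) (C : ℝ) (hC : ∀ j, ‖T j‖ ≤ C) :
    ∃ T' : V →L[ℂ] E, ‖T'‖ ≤ C ∧ ∀ φ ∈ M, ∀ v, Tendsto (fun j => φ (T j v)) U (𝓝 (φ (T' v))) := by
  have hne : Nonempty J := Filter.nonempty_of_neBot (U : Filter J)
  have hC0 : 0 ≤ C := by
    obtain ⟨j⟩ := hne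
    exact (norm_nonneg _).trans (hC j)
  have h1 : ∀ v : V, ∃ y : E, ‖y‖ ≤ C * ‖v‖ ∧
      ∀ φ ∈ M, Tendsto (fun j => φ (T j v)) U (𝓝 (φ y)) := fun v =>
    hM.cpt J U (fun j => T j v) (C * ‖v‖) fun j =>
      ((T j).le_opNorm v).trans (mul_le_mul_of_nonneg_right (hC j) (norm_nonneg _))
  choose y h2 h3 using h1
  let L : V →ₗ[ℂ] E :=
    { toFun := y
      map_add' := fun v w => hM.eq fun φ hφ => by
        have e := (h3 v φ hφ).add (h3 w φ hφ)
        have e2 := h3 (v + w) φ hφ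
        refine tendsto_nhds_unique e2 ?_
        rw [map_add]
        refine e.congr fun j => ?_
        rw [map_add, map_add]
      map_smul' := fun c v => hM.eq fun φ hφ => by
        have e := (h3 v φ hφ).const_mul c
        have e2 := h3 (c • v) φ hφ
        refine tendsto_nhds_unique e2 ?_
        rw [RingHom.id_apply, map_smul, smul_eq_mul]
        refine e.congr fun j => ?_
        rw [map_smul, map_smul, smul_eq_mul] }
  exact ⟨L.mkContinuous C h2, LinearMap.mkContinuous_norm_le _ hC0 _, fun φ hφ v => h3 v φ hφ⟩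

include hM in
lemma IsDl.sum (ι : Type) : ∃ σ : (Zi ι →L[ℂ] E) →L[ℂ] E, ∀ T : Zi ι →L[ℂ] E, ∀ φ ∈ M,
    HasSum (fun k => φ (T (Fs.e k))) (φ (σ T)) := by
  obtain ⟨σ, -, h2⟩ := hM.op (V := Zi ι →L[ℂ] E) (Finset ι) (Ultrafilter.of atTop)
    (fun F => ContinuousLinearMap.apply ℂ E (∑ k ∈ F, (Fs.e k : Zi ι))) 1 (fun F => by
      refine ContinuousLinearMap.opNorm_le_bound _ zero_le_one fun T => ?_
      rw [one_mul]
      refine (T.le_opNorm _).trans (mul_le_of_le_one_right (norm_nonneg _) ?_)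
      have := Zi.norm_sum_le (fun _ : ι => (1 : ℂ)) F (fun k _ => by simp)
      simpa using this)
  refine ⟨σ, fun T φ hφ => ?_⟩
  have h3 := h2 φ hφ T
  have h4 : HasSum (fun k => φ (T (Fs.e k))) (∑' k, φ (T (Fs.e k))) :=
    (Zi.summable (φ ∘L T)).hasSum
  have h5 : Tendsto (fun F : Finset ι => ∑ k ∈ F, φ (T (Fs.e k)))
      (Ultrafilter.of (atTop : Filter (Finset ι))) (𝓝 (∑' k, φ (T (Fs.e k)))) :=
    Tendsto.mono_left h4 (Ultrafilter.of_le _)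
  have h6 : (fun F : Finset ι => ∑ k ∈ F, φ (T (Fs.e k))) =
      fun F : Finset ι => φ (ContinuousLinearMap.apply ℂ E (∑ k ∈ F, (Fs.e k : Zi ι)) T) := by
    funext F
    rw [ContinuousLinearMap.apply_apply, map_sum, map_sum]
  rw [h6] at h5
  rw [tendsto_nhds_unique h3 h5]
  exact h4

end

end

end Pool.Agent.H724R3.N
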