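import Mathlib
import Pool.Agent.H724R3.N.Pr
import Pool.Agent.H724R3.N.Dl

set_option autoImplicit false

/-!
The next pair.
-/

namespace Pool.Agent.H724R3.N

open Filter Topology
open scoped ENNReal

noncomputable section

variable {A ι : Type} [NonUnitalNormedRing A] [NormedSpace ℂ A]

/-- the functionals on `Y` -/
def Pr.NY (P : Pr A ι) : Set (P.Y →L[ℂ] ℂ) := {ψ | ∃ φ ∈ P.N, ψ = φ ∘L P.i}

lemma Pr.dlX (P : Pr A ι) : IsDl P.N := ⟨P.N_sep, P.cptX⟩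

lemma Pr.dlY (P : Pr A ι) : IsDl P.NY where
  sep x h := by
    refine P.inj ?_
    rw [map_zero]
    exact P.N_sep _ fun φ hφ => h _ ⟨φ, hφ, rfl⟩
  cpt J U x C hx := by
    obtain ⟨y, h1, h2⟩ := P.cptY J U x C hx
    refine ⟨y, h1, ?_⟩
    rintro _ ⟨φ, hφ, rfl⟩
    exact h2 φ hφ

/-- the sum operator on `X` -/
def Pr.sgX (P : Pr A ι) : (Zi ι →L[ℂ] P.X) →L[ℂ] P.X := (P.dlX.sum ι).choose

lemma Pr.sgX_spec (P : Pr A ι) (T : Zi ι →L[ℂ] P.X) {φ : P.X →L[ℂ] ℂ} (hφ : φ ∈ P.N) :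
    HasSum (fun k => φ (T (Fs.e k))) (φ (P.sgX T)) := (P.dlX.sum ι).choose_spec T φ hφ

/-- the sum operator on `Y` -/
def Pr.sgY (P : Pr A ι) : (Zi ι →L[ℂ] P.Y) →L[ℂ] P.Y := (P.dlY.sum ι).choose

lemma Pr.sgY_spec (P : Pr A ι) (T : Zi ι →L[ℂ] P.Y) {φ : P.X →L[ℂ] ℂ} (hφ : φ ∈ P.N) :
    HasSum (fun k => φ (P.i (T (Fs.e k)))) (φ (P.i (P.sgY T))) :=
  (P.dlY.sum ι).choose_spec T _ ⟨φ, hφ, rfl⟩

lemma Pr.i_sgY (P : Pr A ι) (T : Zi ι →L[ℂ] P.Y) : P.i (P.sgY T) = P.sgX (P.i ∘L T) :=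
  P.dlX.eq fun _ hφ => (P.sgY_spec T hφ).unique (P.sgX_spec _ hφ)

/-- the underlying space of the next pair -/
def Pr.nX (P : Pr A ι) : Submodule ℂ ((Zi ι →L[ℂ] P.X) × (Zo ι →L[ℂ] P.Y)) where
  carrier := {w | ∀ k, w.1 (Fs.e k) = P.i (w.2 (Fs.e k))}
  add_mem' := by
    intro v w hv hw k
    show (v.1 + w.1) (Fs.e k) = P.i ((v.2 + w.2) (Fs.e k))
    rw [add_apply, add_apply, map_add, hv k, hw k]
  zero_mem' := by
    intro k
    show (0 : Zi ι →L[ℂ] P.X) (Fs.e k) = P.i ((0 : Zo ι →L[ℂ] P.Y) (Fs.e k))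
    simp
  smul_mem' := by
    intro c v hv k
    show (c • v.1) (Fs.e k) = P.i ((c • v.2) (Fs.e k))
    rw [smul_apply, smul_apply, map_smul, hv k]

lemma Pr.nX_closed (P : Pr A ι) :
    IsClosed (P.nX : Set ((Zi ι →L[ℂ] P.X) × (Zo ι →L[ℂ] P.Y))) := by
  have h : (P.nX : Set ((Zi ι →L[ℂ] P.X) × (Zo ι →L[ℂ] P.Y))) =
      ⋂ k, {w | w.1 (Fs.e k) = P.i (w.2 (Fs.e k))} := by
    ext w
    simp [Pr.nX]
  rw [h]
  refine isClosed_iInter fun k => ?_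
  refine isClosed_eq ?_ ?_
  · exact (ContinuousLinearMap.apply ℂ P.X (Fs.e k : Zi ι)).continuous.comp continuous_fst
  · exact P.i.continuous.comp
      ((ContinuousLinearMap.apply ℂ P.Y (Fs.e k : Zo ι)).continuous.comp continuous_snd)

instance (P : Pr A ι) : CompleteSpace P.nX := P.nX_closed.completeSpace_coe

lemma Pr.nX_ext (P : Pr A ι) {v w : P.nX} (h : ∀ k, v.1.1 (Fs.e k) = w.1.1 (Fs.e k)) : v = w := by
  refine Subtype.ext (Prod.ext (Fs.ext_clm h) (Fs.ext_clm fun k => P.inj ?_))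
  rw [← v.2 k, ← w.2 k, h k]

/-- a bounded bilinear family of operators acting componentwise -/
def Pr.lift2 {V : Type} [NormedAddCommGroup V] [NormedSpace ℂ V] (P Q : Pr A ι)
    (B : V →L[ℂ] P.X →L[ℂ] Q.X) (BY : V →L[ℂ] P.Y →L[ℂ] Q.Y)
    (h : ∀ v y, Q.i (BY v y) = B v (P.i y)) : V →L[ℂ] P.nX →L[ℂ] Q.nX :=
  LinearMap.mkContinuous₂
    (LinearMap.mk₂ ℂ (fun (v : V) (w : P.nX) => (⟨(B v ∘L w.1.1, BY v ∘L w.1.2), fun k => by
      show B v (w.1.1 (Fs.e k)) = Q.i (BY v (w.1.2 (Fs.e k)))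
      rw [h, w.2 k]⟩ : Q.nX))
      (fun v v' w => Q.nX_ext fun k => by
        show B (v + v') (w.1.1 (Fs.e k)) = B v (w.1.1 (Fs.e k)) + B v' (w.1.1 (Fs.e k))
        rw [map_add, add_apply])
      (fun c v w => Q.nX_ext fun k => by
        show B (c • v) (w.1.1 (Fs.e k)) = c • B v (w.1.1 (Fs.e k))
        rw [map_smul, smul_apply])
      (fun v w w' => Q.nX_ext fun k => by
        show B v ((w.1.1 + w'.1.1) (Fs.e k)) = B v (w.1.1 (Fs.e k)) + B v (w'.1.1 (Fs.e k))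
        rw [add_apply, map_add])
      (fun c v w => Q.nX_ext fun k => by
        show B v ((c • w.1.1) (Fs.e k)) = c • B v (w.1.1 (Fs.e k))
        rw [smul_apply, map_smul]))
    (‖B‖ + ‖BY‖) (fun v w => by
      show ‖((B v ∘L w.1.1, BY v ∘L w.1.2) : (Zi ι →L[ℂ] Q.X) × (Zo ι →L[ℂ] Q.Y))‖ ≤ _
      have hw1 : ‖w.1.1‖ ≤ ‖w‖ := norm_fst_le w.1
      have hw2 : ‖w.1.2‖ ≤ ‖w‖ := norm_snd_le w.1
      rw [Prod.norm_def]
      refine max_le ?_ ?_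
      · refine (ContinuousLinearMap.opNorm_comp_le _ _).trans ?_
        refine mul_le_mul ((B.le_opNorm v).trans ?_) hw1 (norm_nonneg _) (by positivity)
        exact mul_le_mul_of_nonneg_right (le_add_of_nonneg_right (norm_nonneg BY)) (norm_nonneg _)
      · refine (ContinuousLinearMap.opNorm_comp_le _ _).trans ?_
        refine mul_le_mul ((BY.le_opNorm v).trans ?_) hw2 (norm_nonneg _) (by positivity)
        exact mul_le_mul_of_nonneg_right (le_add_of_nonneg_left (norm_nonneg B)) (norm_nonneg _))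

lemma Pr.lift2_fst {V : Type} [NormedAddCommGroup V] [NormedSpace ℂ V] (P Q : Pr A ι)
    (B : V →L[ℂ] P.X →L[ℂ] Q.X) (BY : V →L[ℂ] P.Y →L[ℂ] Q.Y)
    (h : ∀ v y, Q.i (BY v y) = B v (P.i y)) (v : V) (w : P.nX) :
    (P.lift2 Q B BY h v w).1.1 = B v ∘L w.1.1 := rfl

/-- the inclusion of the finitely supported functions -/
def Jc (ι : Type) : Zo ι →L[ℂ] Zi ι := Zo.mk (fun k => Fs.e k) 1 fun k => (Fs.norm_e k).le

lemma Jc_e {ι : Type} (k : ι) : Jc ι (Fs.e k) = Fs.e k := Zo.mk_e _ _ _ k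

/-- the inclusion of the next pair -/
def Pr.ni (P : Pr A ι) : (Zi ι →L[ℂ] P.Y) →L[ℂ] P.nX :=
  (((ContinuousLinearMap.compL ℂ (Zi ι) P.Y P.X) P.i).prod
    ((ContinuousLinearMap.compL ℂ (Zo ι) (Zi ι) P.Y).flip (Jc ι))).codRestrict P.nX (fun R k => by
      show P.i (R (Fs.e k)) = P.i (R (Jc ι (Fs.e k)))
      rw [Jc_e])

lemma Pr.ni_fst (P : Pr A ι) (R : Zi ι →L[ℂ] P.Y) : (P.ni R).1.1 = P.i ∘L R := rfl

/-- the coordinate functionals -/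
def Pr.nf (P : Pr A ι) (φ : P.X →L[ℂ] ℂ) (k : ι) : P.nX →L[ℂ] ℂ :=
  φ ∘L (ContinuousLinearMap.apply ℂ P.X (Fs.e k : Zi ι)) ∘L
    (ContinuousLinearMap.fst ℂ (Zi ι →L[ℂ] P.X) (Zo ι →L[ℂ] P.Y)) ∘L P.nX.subtypeL

lemma Pr.nf_apply (P : Pr A ι) (φ : P.X →L[ℂ] ℂ) (k : ι) (w : P.nX) :
    P.nf φ k w = φ (w.1.1 (Fs.e k)) := rfl

/-- the operators of the next pair -/
def Pr.np (P : Pr A ι) (k : ι) : P.nX →L[ℂ] (Zi ι →L[ℂ] P.Y) :=
  ((ContinuousLinearMap.compL ℂ (Zi ι) P.X P.Y) (P.p k)) ∘L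
    (ContinuousLinearMap.fst ℂ (Zi ι →L[ℂ] P.X) (Zo ι →L[ℂ] P.Y)) ∘L P.nX.subtypeL

lemma Pr.np_apply (P : Pr A ι) (k : ι) (w : P.nX) : P.np k w = P.p k ∘L w.1.1 := rfl

/-- the next pair -/
def Pr.next (P : Pr A ι) : Pr A ι where
  X := P.nX
  Y := Zi ι →L[ℂ] P.Y
  i := P.ni
  inj := by
    intro R R' h
    refine Fs.ext_clm fun k => P.inj ?_
    have := congrArg (fun w : P.nX => w.1.1 (Fs.e k)) h
    exact this
  l := P.lift2 P P.l P.lY P.i_l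
  r := P.lift2 P P.r P.rY P.i_r
  lY := (ContinuousLinearMap.compL ℂ (Zi ι) P.Y P.Y) ∘L P.lY
  rY := (ContinuousLinearMap.compL ℂ (Zi ι) P.Y P.Y) ∘L P.rY
  l_mul a b w := P.nX_ext fun k => P.l_mul a b _
  r_mul a b w := P.nX_ext fun k => P.r_mul a b _
  lr a b w := P.nX_ext fun k => P.lr a b _
  i_l a y := P.nX_ext fun k => P.i_l a _
  i_r a y := P.nX_ext fun k => P.i_r a _
  p := P.np
  pb := P.pb
  p_le k := by
    refine ContinuousLinearMap.opNorm_le_bound _ ((norm_nonneg _).trans (P.p_le k)) fun w => ?_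
    rw [Pr.np_apply]
    exact (ContinuousLinearMap.opNorm_comp_le _ _).trans
      (mul_le_mul (P.p_le k) (norm_fst_le w.1) (norm_nonneg _)
        ((norm_nonneg _).trans (P.p_le k)))
  D := P.lift2 P P.D P.DY fun z y => by
    have : (P.i ∘L P.DY.flip y) = P.D.flip (P.i y) := Fs.ext_clm fun k => by
      show P.i (P.DY (Fs.e k) y) = P.D (Fs.e k) (P.i y)
      rw [P.DY_e, P.D_e]
    exact congrArg (fun u : Zi ι →L[ℂ] P.X => u z) this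
  DY := (ContinuousLinearMap.compL ℂ (Zi ι) P.Y P.Y) ∘L P.DY
  D_e k w := P.nX_ext fun j => P.D_e k _
  DY_e k y := Fs.ext_clm fun j => P.DY_e k _
  N := {ψ | ∃ φ ∈ P.N, ∃ k, ψ = P.nf φ k}
  N_sep w h := P.nX_ext fun k => P.N_sep _ fun φ hφ => h _ ⟨φ, hφ, k, rfl⟩
  N_l := by
    rintro _ ⟨φ, hφ, k, rfl⟩ a
    exact ⟨_, P.N_l φ hφ a, k, rfl⟩
  N_r := by
    rintro _ ⟨φ, hφ, k, rfl⟩ a
    exact ⟨_, P.N_r φ hφ a, k, rfl⟩
  N_p := by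
    rintro _ ⟨φ, hφ, k, rfl⟩ j
    exact ⟨_, P.N_p φ hφ j, k, rfl⟩
  cptX J U w C hw := by
    obtain ⟨T, hT, hT2⟩ := P.dlX.op J U (fun j => (w j).1.1) C
      fun j => (norm_fst_le (w j).1).trans (hw j)
    obtain ⟨S, hS, hS2⟩ := P.dlY.op J U (fun j => (w j).1.2) C
      fun j => (norm_snd_le (w j).1).trans (hw j)
    refine ⟨⟨(T, S), fun k => P.dlX.eq fun φ hφ => ?_⟩, max_le hT hS, ?_⟩
    · refine tendsto_nhds_unique (hT2 φ hφ (Fs.e k)) ?_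
      refine (hS2 _ ⟨φ, hφ, rfl⟩ (Fs.e k)).congr fun j => ?_
      show φ (P.i ((w j).1.2 (Fs.e k))) = φ ((w j).1.1 (Fs.e k))
      rw [(w j).2 k]
    · rintro _ ⟨φ, hφ, k, rfl⟩
      exact hT2 φ hφ _
  cptY J U R C hR := by
    obtain ⟨S, hS, hS2⟩ := P.dlY.op J U R C hR
    refine ⟨S, hS, ?_⟩
    rintro _ ⟨φ, hφ, k, rfl⟩
    exact hS2 _ ⟨φ, hφ, rfl⟩ _
  sum_p := by
    rintro _ ⟨φ, hφ, k, rfl⟩ w
    exact P.sum_p φ hφ _

end

end Pool.Agent.H724R3.N
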