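import Mathlib
import Pool.Agent.H724R3.N.Stmts
import Pool.Agent.H724R3.N.Next

set_option autoImplicit false

/-!
The tower of pairs.
-/

namespace Pool.Agent.H724R3.N

open Filter Topology
open scoped ENNReal

noncomputable section

variable {A ι : Type} [NonUnitalNormedRing A] [NormedSpace ℂ A]

/-- morphisms of pairs -/
structure Hm (P Q : Pr A ι) where
  f : P.X →L[ℂ] Q.X
  g : P.Y →L[ℂ] Q.Y
  ig : ∀ y, Q.i (g y) = f (P.i y)
  fl : ∀ a x, f (P.l a x) = Q.l a (f x)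
  fr : ∀ a x, f (P.r a x) = Q.r a (f x)
  fp : ∀ k x, g (P.p k x) = Q.p k (f x)
  fs : ∀ T : Zi ι →L[ℂ] P.X, f (P.sgX T) = Q.sgX (f ∘L T)

/-- functional on the sum in the next pair -/
lemma Pr.sgX_next (P : Pr A ι) (T : Zi ι →L[ℂ] P.next.X) (k : ι) :
    (P.next.sgX T : P.nX).1.1 (Fs.e k) =
      P.sgX ((ContinuousLinearMap.apply ℂ P.X (Fs.e k : Zi ι)) ∘L
        (ContinuousLinearMap.fst ℂ (Zi ι →L[ℂ] P.X) (Zo ι →L[ℂ] P.Y)) ∘L P.nX.subtypeL ∘L T) :=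
  P.dlX.eq fun φ hφ => by
    have h1 := P.next.sgX_spec T (φ := P.nf φ k) ⟨φ, hφ, k, rfl⟩
    exact h1.unique (P.sgX_spec _ hφ)

/-- the next morphism -/
def Hm.next {P Q : Pr A ι} (h : Hm P Q) : Hm P.next Q.next where
  f := (P.lift2 Q ((ContinuousLinearMap.toSpanSingleton ℂ h.f) : ℂ →L[ℂ] (P.X →L[ℂ] Q.X))
    ((ContinuousLinearMap.toSpanSingleton ℂ h.g) : ℂ →L[ℂ] (P.Y →L[ℂ] Q.Y)) (fun v y => by
      show Q.i (v • h.g y) = v • h.f (P.i y)
      rw [map_smul, h.ig])) 1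
  g := (ContinuousLinearMap.compL ℂ (Zi ι) P.Y Q.Y) h.g
  ig R := Q.nX_ext fun k => by
    show Q.i (h.g ((show Zi ι →L[ℂ] P.Y from R) (Fs.e k))) =
      (1 : ℂ) • h.f (P.i ((show Zi ι →L[ℂ] P.Y from R) (Fs.e k)))
    rw [one_smul, h.ig]
  fl a w := Q.nX_ext fun k => by
    show (1 : ℂ) • h.f (P.l a (w.1.1 (Fs.e k))) = Q.l a ((1 : ℂ) • h.f (w.1.1 (Fs.e k)))
    rw [one_smul, one_smul, h.fl]
  fr a w := Q.nX_ext fun k => by
    show (1 : ℂ) • h.f (P.r a (w.1.1 (Fs.e k))) = Q.r a ((1 : ℂ) • h.f (w.1.1 (Fs.e k)))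
    rw [one_smul, one_smul, h.fr]
  fp k w := Fs.ext_clm fun j => by
    show h.g (P.p k (w.1.1 (Fs.e j))) = Q.p k ((1 : ℂ) • h.f (w.1.1 (Fs.e j)))
    rw [one_smul, h.fp]
  fs T := Q.nX_ext fun k => by
    rw [Q.sgX_next]
    show (1 : ℂ) • h.f ((P.next.sgX T : P.nX).1.1 (Fs.e k)) = _
    rw [one_smul, P.sgX_next, h.fs]
    refine congrArg Q.sgX (Fs.ext_clm fun j => ?_)
    show _ = (1 : ℂ) • h.f _
    rw [one_smul]
    rfl

lemma Hm.next_e {P Q : Pr A ι} (h : Hm P Q) (w : P.nX) (k : ι) :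
    (h.next.f w : Q.nX).1.1 (Fs.e k) = h.f (w.1.1 (Fs.e k)) := by
  show (1 : ℂ) • h.f (w.1.1 (Fs.e k)) = _
  rw [one_smul]

/-- difference of morphisms -/
def Hm.sub {P Q : Pr A ι} (h h' : Hm P Q) : Hm P Q where
  f := h.f - h'.f
  g := h.g - h'.g
  ig y := by rw [sub_apply, sub_apply, map_sub, h.ig, h'.ig]
  fl a x := by rw [sub_apply, sub_apply, map_sub, h.fl, h'.fl]
  fr a x := by rw [sub_apply, sub_apply, map_sub, h.fr, h'.fr]
  fp k x := by rw [sub_apply, sub_apply, map_sub, h.fp, h'.fp]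
  fs T := by rw [sub_apply, h.fs, h'.fs, ContinuousLinearMap.sub_comp, map_sub]

/-- the sum morphism -/
def Pr.sg (hI : TaskInter) (P : Pr A ι) : Hm P.next P where
  f := P.sgX ∘L (ContinuousLinearMap.fst ℂ (Zi ι →L[ℂ] P.X) (Zo ι →L[ℂ] P.Y)) ∘L P.nX.subtypeL
  g := P.sgY
  ig R := P.i_sgY R
  fl a w := P.dlX.eq fun φ hφ => by
    have h1 := P.sgX_spec (P.l a ∘L w.1.1) hφ
    have h2 := P.sgX_spec w.1.1 (P.N_l φ hφ a)
    exact h1.unique h2
  fr a w := P.dlX.eq fun φ hφ => by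
    have h1 := P.sgX_spec (P.r a ∘L w.1.1) hφ
    have h2 := P.sgX_spec w.1.1 (P.N_r φ hφ a)
    exact h1.unique h2
  fp k w := P.inj (P.dlX.eq fun φ hφ => by
    have h1 := P.sgY_spec (P.p k ∘L w.1.1) hφ
    have h2 := P.sgX_spec w.1.1 (P.N_p φ hφ k)
    exact h1.unique h2)
  fs T := P.dlX.eq fun φ hφ => by
    let R : Zi ι →L[ℂ] Zi ι →L[ℂ] ℂ := ((ContinuousLinearMap.compL ℂ (Zi ι) P.X ℂ) φ) ∘L
      (ContinuousLinearMap.fst ℂ (Zi ι →L[ℂ] P.X) (Zo ι →L[ℂ] P.Y)) ∘L P.nX.subtypeL ∘L T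
    have h1 := P.sgX_spec (P.next.sgX T : P.nX).1.1 hφ
    have h1' : ∀ k, HasSum (fun j => R (Fs.e j) (Fs.e k))
        (φ ((P.next.sgX T : P.nX).1.1 (Fs.e k))) := fun k => by
      rw [P.sgX_next]
      exact P.sgX_spec _ hφ
    have h2 := P.sgX_spec ((P.sgX ∘L (ContinuousLinearMap.fst ℂ (Zi ι →L[ℂ] P.X)
      (Zo ι →L[ℂ] P.Y)) ∘L P.nX.subtypeL) ∘L T) hφ
    have h2' : ∀ j, HasSum (fun k => R (Fs.e j) (Fs.e k))
        (φ (((P.sgX ∘L (ContinuousLinearMap.fst ℂ (Zi ι →L[ℂ] P.X)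
      (Zo ι →L[ℂ] P.Y)) ∘L P.nX.subtypeL) ∘L T) (Fs.e j))) := fun j =>
      P.sgX_spec (T (Fs.e j) : P.nX).1.1 hφ
    refine h1.tsum_eq.symm.trans ?_
    refine Eq.trans ?_ h2.tsum_eq
    rw [tsum_congr fun k => (h1' k).tsum_eq.symm, tsum_congr fun j => (h2' j).tsum_eq.symm]
    exact (hI ι R).symm

/-- the pairs of the tower -/
def tw (P : Pr A ι) : ℕ → Pr A ι
  | 0 => P
  | n + 1 => (tw P n).next

/-- the differentials of the tower -/
def td (hI : TaskInter) (P : Pr A ι) : ∀ n, Hm (tw P (n + 1)) (tw P n)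
  | 0 => (tw P 0).sg hI
  | n + 1 => ((tw P (n + 1)).sg hI).sub (td hI P n).next

/-- the splitting -/
def Pr.sp (P : Pr A ι) : P.X →L[ℂ] P.next.X :=
  (P.D.flip.prod (Zo.mk P.p P.pb P.p_le).flip).codRestrict P.nX (fun x k => by
    show P.D (Fs.e k) x = P.i (Zo.mk P.p P.pb P.p_le (Fs.e k) x)
    rw [P.D_e, Zo.mk_e])

lemma Pr.sp_e (P : Pr A ι) (x : P.X) (k : ι) :
    (P.sp x : P.nX).1.1 (Fs.e k) = P.i (P.p k x) := P.D_e k x

lemma Pr.sg_sp (hI : TaskInter) (P : Pr A ι) (x : P.X) : (P.sg hI).f (P.sp x) = x :=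
  P.dlX.eq fun φ hφ => by
    have h1 := P.sgX_spec (P.sp x : P.nX).1.1 hφ
    have h2 : (fun k => φ ((P.sp x : P.nX).1.1 (Fs.e k))) = fun k => φ (P.i (P.p k x)) :=
      funext fun k => by rw [P.sp_e]
    rw [h2] at h1
    exact h1.unique (P.sum_p φ hφ x)

lemma Hm.next_sp {P Q : Pr A ι} (h : Hm P Q) (x : P.X) : h.next.f (P.sp x) = Q.sp (h.f x) :=
  Q.nX_ext fun k => by
    refine (h.next_e (P.sp x) k).trans ?_
    refine (congrArg h.f (P.sp_e x k)).trans ?_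
    rw [← h.ig, h.fp]
    exact (Q.sp_e (h.f x) k).symm

lemma Hm.next_sub {P Q : Pr A ι} (h : Hm P Q) (v w : P.next.X) :
    h.next.f (v - w) = h.next.f v - h.next.f w := map_sub _ _ _

/-- the splitting of the tower -/
def ts (P : Pr A ι) (n : ℕ) : (tw P n).X →L[ℂ] (tw P (n + 1)).X := (tw P n).sp

/-- the sums of the tower -/
def tg (hI : TaskInter) (P : Pr A ι) (n : ℕ) : (tw P (n + 1)).X →L[ℂ] (tw P n).X :=
  ((tw P n).sg hI).f

/-- the prolonged differentials of the tower -/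
def tn (hI : TaskInter) (P : Pr A ι) (n : ℕ) : (tw P (n + 2)).X →L[ℂ] (tw P (n + 1)).X :=
  (td hI P n).next.f

lemma td_succ (hI : TaskInter) (P : Pr A ι) (n : ℕ) (x : (tw P (n + 2)).X) :
    (td hI P (n + 1)).f x = tg hI P (n + 1) x - tn hI P n x := rfl

lemma tn_e (hI : TaskInter) (P : Pr A ι) (n : ℕ) (x : (tw P (n + 2)).X) (k : ι) :
    (show (tw P n).nX from tn hI P n x).1.1 (Fs.e k) =
      (td hI P n).f ((show (tw P (n + 1)).nX from x).1.1 (Fs.e k)) :=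
  (td hI P n).next_e x k

lemma sg_next {P Q : Pr A ι} (hI : TaskInter) (h : Hm P Q) (w : P.nX) :
    h.f ((P.sg hI).f w) = (Q.sg hI).f (h.next.f w) := by
  show h.f (P.sgX w.1.1) = Q.sgX (show Q.nX from h.next.f w).1.1
  rw [h.fs]
  refine congrArg Q.sgX (Fs.ext_clm fun k => ?_)
  exact (h.next_e w k).symm

lemma td_tg (hI : TaskInter) (P : Pr A ι) (n : ℕ) (x : (tw P (n + 2)).X) :
    (td hI P n).f (tg hI P (n + 1) x) = tg hI P n (tn hI P n x) := sg_next hI (td hI P n) x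

lemma td_sp (hI : TaskInter) (P : Pr A ι) (n : ℕ) (x : (tw P (n + 1)).X) :
    (td hI P (n + 1)).f (ts P (n + 1) x) + ts P n ((td hI P n).f x) = x := by
  rw [td_succ]
  have h1 : tg hI P (n + 1) (ts P (n + 1) x) = x := Pr.sg_sp hI _ x
  have h2 : tn hI P n (ts P (n + 1) x) = ts P n ((td hI P n).f x) := Hm.next_sp _ x
  rw [h1, h2, sub_add_cancel]

lemma td_sp0 (hI : TaskInter) (P : Pr A ι) (x : (tw P 0).X) :
    (td hI P 0).f (ts P 0 x) = x := Pr.sg_sp hI _ x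

lemma td_td (hI : TaskInter) (P : Pr A ι) (n : ℕ) (x : (tw P (n + 2)).X) :
    (td hI P n).f ((td hI P (n + 1)).f x) = 0 := by
  induction n with
  | zero =>
    rw [td_succ, map_sub, td_tg, sub_eq_zero]
    rfl
  | succ n ih =>
    have e1 := td_succ hI P (n + 1) x
    have e2 := td_succ hI P n (tn hI P (n + 1) x)
    have e3 := td_tg hI P (n + 1) x
    rw [e1, map_sub, e3, e2, sub_sub_cancel]
    refine (tw P n).nX_ext fun k => ?_
    refine (tn_e hI P n _ k).trans ?_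
    refine (congrArg (td hI P n).f (tn_e hI P (n + 1) x k)).trans ?_
    exact ih _

end

end Pool.Agent.H724R3.N
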