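import Mathlib
import Pool.Agent.H724R3.N.Tower
import Pool.Agent.H724R3.N.Final2
import Pool.Agent.H724R3.N.TInter
import Pool.Agent.H724R3.N.TBase
import Pool.Agent.H724R3.N.TLift
import Pool.Agent.H724R3.N.TAvg

set_option autoImplicit false

/-!
The main theorem, with the regular bimodule of a unital algebra.
-/

namespace Pool.Agent.H724R3.N

open Filter Topology Pool.Agent.Helper832.GS TFin
open scoped ENNReal

noncomputable section

/-- the algebra as a bimodule over itself -/
def regB (A : Type) [NonUnitalNormedRing A] [NormedSpace ℂ A] [IsScalarTower ℂ A A]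
    [SMulCommClass ℂ A A] [CompleteSpace A] : BMod A where
  carrier := A
  left := fun a x => a * x
  right := fun a x => x * a
  left_bdd := (ContinuousLinearMap.mul ℂ A).isBoundedBilinearMap
  right_bdd := (ContinuousLinearMap.mul ℂ A).flip.isBoundedBilinearMap
  left_mul := fun a b x => mul_assoc a b x
  right_mul := fun a b x => (mul_assoc x a b).symm
  left_right := fun a b x => (mul_assoc a x b).symm

lemma inv_zero {A : Type} [NonUnitalNormedRing A] [NormedSpace ℂ A]
    {H : Type} [NormedAddCommGroup H] [InnerProductSpace ℂ H] [CompleteSpace H]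
    {ι : Type} (b : HilbertBasis ι ℂ H) (π : A →L[ℂ] (H →L[ℂ] H))
    (hπ : ∀ x y, π (x * y) = π x * π y) {G : Type} [Group G] {a : G → A} (ha : IsRep a)
    (hHS : ∀ T : H →L[ℂ] H, Summable (fun k => ‖T (b k)‖ ^ 2) →
      (∀ g, π (a g) * T = T * π (a g)) → T = 0)
    (P : Pr A ι) (j : P.X →ₗ[ℂ] (H →L[ℂ] H)) (hj : Function.Bijective j)
    (hjl : ∀ a x, j (P.l a x) = π a * j x) (hjr : ∀ a x, j (P.r a x) = j x * π a)
    (hjs : ∀ y : P.Y, Summable (fun k => ‖j (P.i y) (b k)‖ ^ 2))
    (w : (tw P 1).X) (hw : ∀ g, (tw P 1).ad a g w = w) : w = 0 := by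
  let w' : P.nX := w
  have hY : ∀ k, w'.1.2 (Fs.e k) = 0 := by
    intro k
    set y := w'.1.2 (Fs.e k) with hy
    have h1 : w'.1.1 (Fs.e k) = P.i y := w'.2 k
    have h2 : ∀ g, P.ad a g (P.i y) = P.i y := by
      intro g
      have h3 := congrArg (fun v : P.nX => v.1.1 (Fs.e k)) (hw g)
      have h4 : P.ad a g (w'.1.1 (Fs.e k)) = w'.1.1 (Fs.e k) := h3
      rwa [h1] at h4
    have h5 : j (P.i y) = 0 := by
      refine hHS _ (hjs y) fun g => ?_
      have h6 := congrArg j (h2 g)
      unfold Pr.ad at h6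
      rw [map_add, hjl, map_add, hjr] at h6
      set t := j (P.i y) with ht
      have h7 : π (a g⁻¹) + π (a g) + π (a g⁻¹) * π (a g) = 0 := by
        have := congrArg π (ha.mul g⁻¹ g)
        rw [inv_mul_cancel, ha.one, map_zero, map_add, map_add, hπ] at this
        exact this.symm
      set x := π (a g) with hx
      set y' := π (a g⁻¹) with hy'
      have h8 : (1 + x) * t * (1 + y') = t := by
        have e : (1 + x) * t * (1 + y') = (t + t * y') + x * (t + t * y') := by noncomm_ring
        rw [e]
        exact h6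
      have h9 : (1 + y') * (1 + x) = 1 := by
        have e : (1 + y') * (1 + x) = 1 + (y' + x + y' * x) := by noncomm_ring
        rw [e, h7, add_zero]
      have h10 : (1 + x) * t = t * (1 + x) := by
        have e : (1 + x) * t * (1 + y') * (1 + x) = (1 + x) * t * ((1 + y') * (1 + x)) :=
          mul_assoc _ _ _
        rw [h8, h9, mul_one] at e
        exact e.symm
      rw [add_mul, mul_add, one_mul, mul_one] at h10
      exact add_left_cancel h10
    refine P.inj (hj.1 ?_)
    rw [h5, map_zero, map_zero]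
  refine P.nX_ext (v := w') (w := 0) fun k => ?_
  rw [w'.2 k, hY k, map_zero]
  rfl


theorem main3 (A : Type) [NonUnitalNormedRing A] [NormedSpace ℂ A]
    [IsScalarTower ℂ A A] [SMulCommClass ℂ A A] [CompleteSpace A]
    (hF : TaskFinal)
    (H : Type) [NormedAddCommGroup H] [InnerProductSpace ℂ H] [CompleteSpace H] [Nontrivial H]
    (ι : Type) (b : HilbertBasis ι ℂ H) (π : A →L[ℂ] (H →L[ℂ] H))
    (hπ : ∀ x y, π (x * y) = π x * π y)
    (G : Type) [Group G] (a : G → A) (ha : IsRep a) (J : Type) (U : Ultrafilter J)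
    (F : J → Finset G) (hFol : IsFol U F)
    (hHS : ∀ T : H →L[ℂ] H, Summable (fun k => ‖T (b k)‖ ^ 2) →
      (∀ g, π (a g) * T = T * π (a g)) → T = 0) :
    db A = ⊤ ∧ ∀ e : A, (∀ x, e * x = x) → (∀ x, x * e = x) → π e ≠ 0 →
      (regB A).dh = ⊤ := by
  obtain ⟨P, j, hj, hjl, hjr, hjs⟩ := taskBase A H ι b π hπ
  obtain ⟨o, ho⟩ := hj.2 1
  have hlr : ∀ x, P.l x o = P.r x o := by
    intro x
    refine hj.1 ?_
    rw [hjl, hjr, ho, mul_one, one_mul]
  have hinv := inv_zero b π hπ ha hHS P j hj hjl hjr hjs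
  constructor
  · refine hF taskLift taskAvg A ι G a ha J U F hFol (tw P) (fun n => (td taskInter P n).f) (ts P)
      (fun n => (td taskInter P n).fl) (fun n => (td taskInter P n).fr) (td_sp0 taskInter P)
      (td_sp taskInter P) (td_td taskInter P) o hlr ?_ hinv
    intro h0
    have : j o = 0 := by
      rw [h0]
      exact map_zero j
    rw [ho] at this
    exact one_ne_zero this
  · intro e he1 he2 hne
    refine final2 taskLift taskAvg A ι G a ha J U F hFol (tw P) (fun n => (td taskInter P n).f)
      (ts P) (fun n => (td taskInter P n).fl) (fun n => (td taskInter P n).fr)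
      (td_sp0 taskInter P) (td_sp taskInter P) (td_td taskInter P) (regB A)
      (fun x => P.l x o) ?_ e ?_ ?_ hinv
    · refine ⟨(P.l.flip o).isBoundedLinearMap, fun x y => P.l_mul x y o, fun x (y : A) => ?_⟩
      show P.l (y * x) o = P.r x (P.l y o)
      rw [P.l_mul, hlr x, P.lr]
    · intro g
      show (e + e * a g⁻¹) + a g * (e + e * a g⁻¹) = e
      have h3 := ha.mul g g⁻¹
      rw [mul_inv_cancel, ha.one] at h3
      rw [he1, mul_add, he2]
      have h4 : e + a g⁻¹ + (a g + a g * a g⁻¹) = e + (a g + a g⁻¹ + a g * a g⁻¹) := by abel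
      rw [h4, ← h3, add_zero]
    · intro h0
      have : j (P.l e o) = 0 := by
        rw [h0]
        exact map_zero j
      rw [hjl, ho, mul_one] at this
      exact hne this

theorem mainStatement (hF : TaskFinal) : MainStatement := by
  intro A _ _ _ _ _ H _ _ _ _ ι b π hπ G _ a ha J U F hFol hHS
  exact (main3 A hF H ι b π hπ G a ha J U F hFol hHS).1

end

end Pool.Agent.H724R3.N
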