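import Mathlib
import Pool.Agent.H724R3.N.Stmts

set_option autoImplicit false

namespace Pool.Agent.H724R3.N

theorem taskBeta : TaskBeta := by
  obtain ⟨u, hu⟩ := TopologicalSpace.exists_dense_seq unitInterval
  have hc : Continuous u := continuous_of_discreteTopology
  refine ⟨⟨stoneCechExtend hc, continuous_stoneCechExtend hc⟩, ?_⟩
  have hr : IsClosed (Set.range (stoneCechExtend hc)) :=
    (isCompact_range (continuous_stoneCechExtend hc)).isClosed
  have hsub : Set.range u ⊆ Set.range (stoneCechExtend hc) := by
    rintro _ ⟨n, rfl⟩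
    exact ⟨stoneCechUnit n, congrFun (stoneCechExtend_extends hc) n⟩
  intro x
  have hx : x ∈ closure (Set.range u) := hu x
  exact hr.closure_subset_iff.2 hsub hx

end Pool.Agent.H724R3.N
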