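import Mathlib
import Pool.Agent.H724R3.N.Stmts

set_option autoImplicit false
set_option linter.unusedSectionVars false

namespace Pool.Agent.H724R3.N

open Filter Topology Pool.Agent.Helper832.GS
open scoped ENNReal ComplexOrder

noncomputable section

namespace CommAux

variable {Ω : Type} [TopologicalSpace Ω] [CompactSpace Ω] [T2Space Ω]

/-- the exponentials -/
def Ee (f : C(Ω, unitInterval)) (n : ℤ) : C(Ω, ℂ) where
  toFun w := Complex.exp ((n : ℂ) * (2 * Real.pi * Complex.I * ((f w : ℝ) : ℂ)))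
  continuous_toFun := by
    have h : Continuous fun w => ((f w : ℝ) : ℂ) :=
      Complex.continuous_ofReal.comp (continuous_subtype_val.comp f.continuous)
    fun_prop

lemma Ee_zero (f : C(Ω, unitInterval)) : Ee f 0 = 1 := by
  ext w
  simp [Ee]

lemma Ee_add (f : C(Ω, unitInterval)) (m n : ℤ) : Ee f (m + n) = Ee f m * Ee f n := by
  ext w
  simp only [Ee, ContinuousMap.coe_mk, ContinuousMap.coe_mul, Pi.mul_apply]
  rw [← Complex.exp_add]
  congr 1
  push_cast
  ring

lemma norm_Ee_apply (f : C(Ω, unitInterval)) (n : ℤ) (w : Ω) : ‖Ee f n w‖ = 1 := by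
  have h : Ee f n w = Complex.exp (((2 * Real.pi * n * (f w : ℝ) : ℝ) : ℂ) * Complex.I) := by
    simp only [Ee, ContinuousMap.coe_mk]
    congr 1
    push_cast
    ring
  rw [h, Complex.norm_exp_ofReal_mul_I]

lemma norm_Ee (f : C(Ω, unitInterval)) (n : ℤ) : ‖Ee f n‖ ≤ 1 := by
  rw [ContinuousMap.norm_le _ zero_le_one]
  intro w
  rw [norm_Ee_apply]

lemma Ee_pow (f : C(Ω, unitInterval)) (n : ℕ) : Ee f 1 ^ n = Ee f (n : ℤ) := by
  induction n with
  | zero => rw [pow_zero, Nat.cast_zero, Ee_zero]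
  | succ n ih => rw [pow_succ, ih, Nat.cast_succ, Ee_add]

/-- the Folner sets of the integers -/
def FF (j : ℕ) : Finset (Multiplicative ℤ) :=
  (Finset.Icc (0 : ℤ) j).map ⟨Multiplicative.ofAdd, Multiplicative.ofAdd.injective⟩

lemma mem_FF (j : ℕ) (g : Multiplicative ℤ) :
    g ∈ FF j ↔ 0 ≤ Multiplicative.toAdd g ∧ Multiplicative.toAdd g ≤ j := by
  unfold FF
  rw [Finset.mem_map]
  constructor
  · rintro ⟨x, hx, rfl⟩
    rw [Finset.mem_Icc] at hx
    exact hx
  · intro h
    exact ⟨Multiplicative.toAdd g, Finset.mem_Icc.mpr h, rfl⟩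

lemma card_FF (j : ℕ) : (FF j).card = j + 1 := by
  unfold FF
  rw [Finset.card_map, Int.card_Icc]
  omega

open Classical in
lemma isFol : IsFol (Filter.hyperfilter ℕ) FF where
  ne j := ⟨1, by rw [mem_FF]; simp⟩
  lim g := by
    set n : ℤ := Multiplicative.toAdd g with hn
    have hb : ∀ (j : ℕ) (S : Finset (Multiplicative ℤ)),
        (∀ x ∈ S, (∃ h ∈ FF j, g * h = x) ∧ x ∉ FF j) → S.card ≤ n.natAbs := by
      intro j S hS
      have hsub : S ⊆
          (Finset.Ioc (j : ℤ) (j + n) ∪ Finset.Ico n 0).map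
            ⟨Multiplicative.ofAdd, Multiplicative.ofAdd.injective⟩ := by
        intro x hx
        obtain ⟨⟨h, hh, rfl⟩, hx⟩ := hS x hx
        rw [mem_FF] at hh hx
        rw [toAdd_mul, ← hn] at hx
        rw [Finset.mem_map]
        refine ⟨n + Multiplicative.toAdd h, ?_, rfl⟩
        rw [Finset.mem_union, Finset.mem_Ioc, Finset.mem_Ico]
        omega
      refine (Finset.card_le_card hsub).trans ?_
      rw [Finset.card_map]
      refine (Finset.card_union_le _ _).trans ?_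
      rw [Int.card_Ioc, Int.card_Ico]
      omega
    have hlim : Tendsto (fun j : ℕ => (n.natAbs : ℝ) / ((j : ℝ) + 1)) atTop (𝓝 0) := by
      have h1 := (tendsto_one_div_add_atTop_nhds_zero_nat (𝕜 := ℝ)).const_mul (n.natAbs : ℝ)
      rw [mul_zero] at h1
      refine h1.congr fun j => ?_
      ring
    have hlim2 := hlim.mono_left (Nat.hyperfilter_le_atTop)
    refine squeeze_zero (fun j => by positivity) (fun j => ?_) hlim2
    rw [card_FF, Nat.cast_add, Nat.cast_one]
    refine div_le_div_of_nonneg_right ?_ (by positivity)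
    rw [Nat.cast_le]
    apply hb j
    intro x hx
    have hx1 := (@Finset.mem_sdiff _ (_) _ _ _).mp hx
    exact ⟨(@Finset.mem_image _ _ (_) _ _ _).mp hx1.1, hx1.2⟩

end CommAux

open CommAux in
theorem taskComm : TaskComm := by
  intro hMain hState hGNS hHSC Ω _ _ _ f hf
  obtain ⟨φ, hφ1, hφ2, hφ3⟩ := hState Ω f hf
  have hu : ∀ w, Ee f 1 w = Complex.exp (2 * Real.pi * Complex.I * ((f w : ℝ) : ℂ)) := by
    intro w
    simp [Ee]
  have hφu : ∀ n : ℕ, n ≠ 0 → φ (Ee f 1 ^ n) = 0 := hφ3 (Ee f 1) hu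
  obtain ⟨H, _, _, _, π, ξ, hξ, hπ1, hπm, hw⟩ :=
    hGNS Ω φ hφ1 hφ2 (Ee f 1) (norm_Ee_apply f 1) hφu
  have : Nontrivial H := ⟨ξ, 0, hξ⟩
  obtain ⟨w, b, _⟩ := exists_hilbertBasis ℂ H
  have hrep : IsRep (fun g : Multiplicative ℤ => Ee f (Multiplicative.toAdd g) - 1) := by
    refine ⟨?_, ?_, ?_⟩
    · show Ee f (Multiplicative.toAdd 1) - 1 = 0
      rw [toAdd_one, Ee_zero, sub_self]
    · intro g h
      show Ee f (Multiplicative.toAdd (g * h)) - 1 = _
      rw [toAdd_mul, Ee_add]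
      ring
    · refine ⟨‖(1 : C(Ω, ℂ))‖ + 1, fun g => ?_⟩
      refine (norm_sub_le _ _).trans ?_
      have := norm_Ee f (Multiplicative.toAdd g)
      linarith
  refine hMain C(Ω, ℂ) H w b π hπm (Multiplicative ℤ) _ hrep ℕ (Filter.hyperfilter ℕ) FF isFol ?_
  intro T hT hcomm
  refine hHSC H w b (fun n => π (Ee f n)) (fun n => π (Ee f (-(n : ℤ)))) ?_ ?_ ?_ T hT ?_
  · intro n
    show π (Ee f (-(n : ℤ))) * π (Ee f n) = 1
    rw [← hπm, ← Ee_add, neg_add_cancel, Ee_zero, hπ1]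
  · refine ⟨‖π‖, fun n => ⟨?_, ?_⟩⟩
    · refine (π.le_opNorm _).trans ?_
      have := norm_Ee f (n : ℤ)
      nlinarith [norm_nonneg π]
    · refine (π.le_opNorm _).trans ?_
      have := norm_Ee f (-(n : ℤ))
      nlinarith [norm_nonneg π]
  · intro ξ' η
    have := hw ξ' η
    simp_rw [Ee_pow] at this
    exact this
  · intro n
    have h1 := hcomm (Multiplicative.ofAdd (n : ℤ))
    have h2 : π (Ee f n) = π (Ee f (Multiplicative.toAdd (Multiplicative.ofAdd (n : ℤ))) - 1) + 1 := by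
      rw [map_sub, hπ1, toAdd_ofAdd]
      abel
    show π (Ee f n) * T = T * π (Ee f n)
    rw [h2, add_mul, mul_add, h1, one_mul, mul_one]

end

end Pool.Agent.H724R3.N
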