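import Mathlib
import Pool.Agent.H724R3.N.Stmts

set_option autoImplicit false

/-!
Task GNS of the project H724N (helper265).
-/

namespace Pool.Agent.H724R3.N

open Filter Topology UniformSpace Completion
open scoped ENNReal ComplexOrder

noncomputable section

/-- convergence to zero on a dense set for equicontinuous sequences -/
theorem TGNS_dense {H : Type} [NormedAddCommGroup H] (T : ℕ → H → ℂ) (C : ℝ)
    (hT : ∀ n a b, ‖T n a - T n b‖ ≤ C * ‖a - b‖) (D : Set H) (hD : Dense D)
    (h : ∀ d ∈ D, Tendsto (fun n => T n d) atTop (𝓝 0)) (a : H) :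
    Tendsto (fun n => T n a) atTop (𝓝 0) := by
  rw [Metric.tendsto_atTop]
  intro ε hε
  have hC : 0 < |C| + 1 := by positivity
  obtain ⟨d, hd, had⟩ := Metric.mem_closure_iff.1 (hD a) (ε / (2 * (|C| + 1))) (by positivity)
  obtain ⟨N, hN⟩ := (Metric.tendsto_atTop.1 (h d hd)) (ε / 2) (by positivity)
  refine ⟨N, fun n hn => ?_⟩
  have h1 := hN n hn
  rw [dist_zero_right] at h1 ⊢
  rw [dist_eq_norm] at had
  have h2 : ‖T n a‖ ≤ ‖T n a - T n d‖ + ‖T n d‖ := by
    have := norm_add_le (T n a - T n d) (T n d)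
    simpa using this
  have h3 : C * ‖a - d‖ ≤ (|C| + 1) * ‖a - d‖ :=
    mul_le_mul_of_nonneg_right (by linarith [le_abs_self C]) (norm_nonneg _)
  have h4 : (|C| + 1) * ‖a - d‖ ≤ (|C| + 1) * (ε / (2 * (|C| + 1))) :=
    mul_le_mul_of_nonneg_left had.le hC.le
  have h5 : (|C| + 1) * (ε / (2 * (|C| + 1))) = ε / 2 := by field_simp
  have h6 := hT n a d
  linarith

/-- Task GNS -/
theorem taskGNS : TaskGNS := by
  intro Ω _ _ _ φ hφ1 hφ u hu hun
  have hpos : ∀ x : C(Ω, ℂ), 0 ≤ x → 0 ≤ φ x := by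
    intro x hx
    obtain ⟨y, rfl⟩ := CStarAlgebra.nonneg_iff_eq_star_mul_self.1 hx
    exact hφ y
  let f : C(Ω, ℂ) →ₚ[ℂ] ℂ := PositiveLinearMap.mk₀ φ hpos
  have hf : ∀ x, f x = φ x := fun x => rfl
  let H := f.GNS
  let ρ : C(Ω, ℂ) →⋆ₐ[ℂ] (f.GNS →L[ℂ] f.GNS) := f.gnsStarAlgHom
  have hρ : ∀ x, ‖ρ x‖ ≤ ‖x‖ := fun x => NonUnitalStarAlgHom.norm_apply_le ρ x
  let π : C(Ω, ℂ) →L[ℂ] (f.GNS →L[ℂ] f.GNS) :=
    LinearMap.mkContinuous (ρ.toAlgHom.toLinearMap) 1 (fun x => by rw [one_mul]; exact hρ x)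
  have hπ : ∀ x, π x = ρ x := fun x => rfl
  have hπc : ∀ (x : C(Ω, ℂ)) (y : f.PreGNS), π x (y : f.GNS) =
      ((f.toPreGNS (x * f.ofPreGNS y) : f.PreGNS) : f.GNS) := by
    intro x y
    rw [hπ]
    exact PositiveLinearMap.gnsNonUnitalStarAlgHom_apply_coe f
  let e : C(Ω, ℂ) → f.GNS := fun x => ((f.toPreGNS x : f.PreGNS) : f.GNS)
  have hinner : ∀ x y : C(Ω, ℂ), inner ℂ (e x) (e y) = φ (star x * y) := by
    intro x y
    show inner ℂ ((f.toPreGNS x : f.PreGNS) : f.GNS) ((f.toPreGNS y : f.PreGNS) : f.GNS) = _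
    rw [Completion.inner_coe]
    rfl
  have hπe : ∀ x y : C(Ω, ℂ), π x (e y) = e (x * y) := fun x y => hπc x (f.toPreGNS y)
  have hstar : ∀ n : ℕ, star (u ^ n) * u ^ n = 1 := by
    intro n
    ext w
    have h1 : (starRingEnd ℂ) (u w) * u w = 1 := by
      rw [← Complex.normSq_eq_conj_mul_self, Complex.normSq_eq_norm_sq, hu w]
      simp
    simp only [ContinuousMap.mul_apply, ContinuousMap.star_apply, ContinuousMap.pow_apply,
      ContinuousMap.one_apply, star_pow]
    rw [← mul_pow]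
    have h2 : star (u w) * u w = 1 := h1
    rw [h2, one_pow]
  have hphi : ∀ x : C(Ω, ℂ), φ (star x) = star (φ x) := by
    intro x
    rw [← hf, ← hf]
    exact map_star f x
  have hpow : ∀ m n : ℕ, m < n → star (u ^ m) * u ^ n = u ^ (n - m) := by
    intro m n hmn
    obtain ⟨k, rfl⟩ := Nat.exists_eq_add_of_lt hmn
    rw [show m + k + 1 = m + (k + 1) by ring, pow_add, ← mul_assoc, hstar, one_mul]
    congr 1
    omega
  have hortho : Orthonormal ℂ (fun n : ℕ => e (u ^ n)) := by
    rw [orthonormal_iff_ite]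
    intro m n
    rw [hinner]
    split_ifs with h
    · rw [h, hstar, hφ1]
    · rcases Nat.lt_or_gt_of_ne h with h' | h'
      · rw [hpow m n h']
        exact hun _ (by omega)
      · have h2 : star (u ^ m) * u ^ n = star (star (u ^ n) * u ^ m) := by
          rw [star_mul, star_star]
        rw [h2, hphi, hpow n m h', hun _ (by omega), star_zero]
  refine ⟨f.GNS, inferInstance, inferInstance, inferInstance, π, e 1, ?_, ?_, ?_, ?_⟩
  · intro h0
    have := hinner 1 1
    rw [h0, inner_zero_left, star_one, one_mul, hφ1] at this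
    exact zero_ne_one this
  · rw [hπ]; exact map_one ρ
  · intro x y
    rw [hπ, hπ, hπ]
    exact map_mul ρ x y
  · have hπn : ∀ n, ‖π (u ^ n)‖ ≤ 1 := by
      intro n
      rw [hπ]
      refine (hρ _).trans ?_
      rw [ContinuousMap.norm_le _ zero_le_one]
      intro w
      rw [ContinuousMap.pow_apply, norm_pow, hu w, one_pow]
    have hpair : ∀ x y : C(Ω, ℂ),
        Tendsto (fun n : ℕ => inner ℂ (e y) (π (u ^ n) (e x))) atTop (𝓝 0) := by
      intro x y
      have h1 : ∀ n : ℕ, inner ℂ (e y) (π (u ^ n) (e x)) =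
          inner ℂ (e (star x * y)) (e (u ^ n)) := by
        intro n
        rw [hπe, hinner, hinner, star_mul, star_star]
        congr 1
        rw [mul_comm (u ^ n) x, mul_assoc]
      simp only [h1]
      have h2 := (hortho.inner_products_summable (e (star x * y))).tendsto_atTop_zero
      have h3 : Tendsto (fun n : ℕ => ‖inner ℂ (e (star x * y)) (e (u ^ n))‖) atTop (𝓝 0) := by
        have h4 := (Real.continuous_sqrt.tendsto 0).comp h2
        rw [Real.sqrt_zero] at h4
        refine h4.congr fun n => ?_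
        simp only [Function.comp]
        rw [Real.sqrt_sq (norm_nonneg _), norm_inner_symm]
      exact tendsto_zero_iff_norm_tendsto_zero.2 h3
    have hdense : Dense (Set.range e) := by
      have h1 : DenseRange (fun x : f.PreGNS => (x : f.GNS)) := Completion.denseRange_coe
      exact h1
    intro ξ' η
    refine TGNS_dense (fun n a => inner ℂ η (π (u ^ n) a)) ‖η‖ ?_ (Set.range e) hdense ?_ ξ'
    · intro n a b
      show ‖inner ℂ η (π (u ^ n) a) - inner ℂ η (π (u ^ n) b)‖ ≤ ‖η‖ * ‖a - b‖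
      rw [← inner_sub_right, ← map_sub]
      refine (norm_inner_le_norm _ _).trans (mul_le_mul_of_nonneg_left ?_ (norm_nonneg _))
      refine ((π (u ^ n)).le_opNorm _).trans ?_
      exact mul_le_of_le_one_left (norm_nonneg _) (hπn n)
    · rintro _ ⟨x, rfl⟩
      refine TGNS_dense (fun n a => inner ℂ a (π (u ^ n) (e x))) ‖e x‖ ?_ (Set.range e) hdense ?_ η
      · intro n a b
        show ‖inner ℂ a (π (u ^ n) (e x)) - inner ℂ b (π (u ^ n) (e x))‖ ≤ ‖e x‖ * ‖a - b‖
        rw [← inner_sub_left]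
        refine (norm_inner_le_norm _ _).trans ?_
        rw [mul_comm]
        refine mul_le_mul_of_nonneg_right ?_ (norm_nonneg _)
        refine ((π (u ^ n)).le_opNorm _).trans ?_
        exact mul_le_of_le_one_left (norm_nonneg _) (hπn n)
      · rintro _ ⟨y, rfl⟩
        exact hpair x y

end

end Pool.Agent.H724R3.N
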