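import Mathlib
import Pool.Agent.H724R3.N.Stmts

/-! Task HSC of H724N. -/

set_option autoImplicit false

open Filter Topology

namespace Pool.Agent.H724R3.N

theorem HSC_bound {H : Type} [NormedAddCommGroup H] [InnerProductSpace ℂ H]
    [CompleteSpace H] {ι : Type} (b : HilbertBasis ι ℂ H) (T : H →L[ℂ] H) (F : Finset ι) (ε : ℝ)
    (hε : 0 ≤ ε) (hF : ∀ t : Finset ι, Disjoint t F → ∑ k ∈ t, ‖T (b k)‖ ^ 2 ≤ ε ^ 2) (y : H) :
    ‖T y‖ ≤ ∑ k ∈ F, ‖inner ℂ (b k) y‖ * ‖T (b k)‖ + ‖y‖ * ε := by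
  classical
  have h1 : HasSum (fun k => inner ℂ (b k) y • T (b k)) (T y) := by
    have h := T.hasSum (b.hasSum_repr y)
    simpa [HilbertBasis.repr_apply_apply] using h
  have h2 : Tendsto (fun s : Finset ι => ∑ k ∈ s, inner ℂ (b k) y • T (b k)) atTop (𝓝 (T y)) := by
    simpa [HasSum] using h1
  refine le_of_tendsto h2.norm ?_
  filter_upwards [eventually_ge_atTop F] with S hS
  have h3 : ∑ k ∈ S, inner ℂ (b k) y • T (b k) =
      ∑ k ∈ F, inner ℂ (b k) y • T (b k) + ∑ k ∈ S \ F, inner ℂ (b k) y • T (b k) := by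
    rw [add_comm, Finset.sum_sdiff hS]
  rw [h3]
  refine (norm_add_le _ _).trans (add_le_add ?_ ?_)
  · refine (norm_sum_le _ _).trans (le_of_eq ?_)
    exact Finset.sum_congr rfl (fun k _ => norm_smul _ _)
  · refine (norm_sum_le _ _).trans ?_
    have h4 : ∑ k ∈ S \ F, ‖inner ℂ (b k) y • T (b k)‖ =
        ∑ k ∈ S \ F, ‖inner ℂ (b k) y‖ * ‖T (b k)‖ :=
      Finset.sum_congr rfl (fun k _ => norm_smul _ _)
    rw [h4]
    have h5 : (∑ k ∈ S \ F, ‖inner ℂ (b k) y‖ * ‖T (b k)‖) ^ 2 ≤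
        (∑ k ∈ S \ F, ‖inner ℂ (b k) y‖ ^ 2) * ∑ k ∈ S \ F, ‖T (b k)‖ ^ 2 :=
      Finset.sum_mul_sq_le_sq_mul_sq _ _ _
    have h6 : ∑ k ∈ S \ F, ‖inner ℂ (b k) y‖ ^ 2 ≤ ‖y‖ ^ 2 :=
      b.orthonormal.sum_inner_products_le y
    have h7 := hF (S \ F) Finset.sdiff_disjoint
    have h8 : (∑ k ∈ S \ F, ‖inner ℂ (b k) y‖ * ‖T (b k)‖) ^ 2 ≤ (‖y‖ * ε) ^ 2 := by
      rw [mul_pow]
      refine h5.trans (mul_le_mul h6 h7 (Finset.sum_nonneg fun k _ => by positivity) (by positivity))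
    exact le_of_sq_le_sq h8 (by positivity)

theorem taskHSC : TaskHSC := by
  intro H _ _ _ ι b V W hWV hC hV T hT hcomm
  obtain ⟨C, hC⟩ := hC
  have hC0 : 0 ≤ C := (norm_nonneg (V 0)).trans (hC 0).1
  ext ξ
  show T ξ = 0
  rw [← norm_le_zero_iff]
  have key : ∀ ε : ℝ, 0 < ε → ‖T ξ‖ ≤ C * (1 + C * ‖ξ‖) * ε := by
    intro ε hε
    obtain ⟨F, hF⟩ := summable_iff_vanishing_norm.mp hT (ε ^ 2) (by positivity)
    have hF' : ∀ t : Finset ι, Disjoint t F → ∑ k ∈ t, ‖T (b k)‖ ^ 2 ≤ ε ^ 2 := by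
      intro t ht
      exact (le_abs_self _).trans (hF t ht).le
    have hlim : Tendsto (fun n => ∑ k ∈ F, ‖inner ℂ (b k) (V n ξ)‖ * ‖T (b k)‖) atTop (𝓝 0) := by
      have : Tendsto (fun n => ∑ k ∈ F, ‖inner ℂ (b k) (V n ξ)‖ * ‖T (b k)‖) atTop
          (𝓝 (∑ k ∈ F, 0 * ‖T (b k)‖)) := by
        apply tendsto_finsetSum
        intro k _
        apply Tendsto.mul_const
        simpa using (hV ξ (b k)).norm
      simpa using this
    obtain ⟨n, hn⟩ := (hlim.eventually (gt_mem_nhds hε)).exists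
    have h1 := HSC_bound b T F ε hε.le hF' (V n ξ)
    have h2 : ‖V n ξ‖ ≤ C * ‖ξ‖ := ((V n).le_opNorm ξ).trans
      (mul_le_mul_of_nonneg_right (hC n).1 (norm_nonneg _))
    have h3 : T ξ = W n (V n (T ξ)) := by
      have := congrArg (fun S : H →L[ℂ] H => S (T ξ)) (hWV n)
      simpa using this.symm
    have h4 : V n (T ξ) = T (V n ξ) := by
      have := congrArg (fun S : H →L[ℂ] H => S ξ) (hcomm n)
      simpa using this
    calc ‖T ξ‖ = ‖W n (V n (T ξ))‖ := by rw [← h3]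
      _ ≤ ‖W n‖ * ‖V n (T ξ)‖ := (W n).le_opNorm _
      _ ≤ C * ‖V n (T ξ)‖ := mul_le_mul_of_nonneg_right (hC n).2 (norm_nonneg _)
      _ = C * ‖T (V n ξ)‖ := by rw [h4]
      _ ≤ C * (ε + C * ‖ξ‖ * ε) := by
        apply mul_le_mul_of_nonneg_left _ hC0
        have h5 : ‖V n ξ‖ * ε ≤ C * ‖ξ‖ * ε := mul_le_mul_of_nonneg_right h2 hε.le
        linarith
      _ = C * (1 + C * ‖ξ‖) * ε := by ring
  by_contra hcon
  push Not at hcon
  set D : ℝ := C * (1 + C * ‖ξ‖) with hD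
  have hD0 : 0 ≤ D := by positivity
  have h1 := key (‖T ξ‖ / (2 * (D + 1))) (by positivity)
  have h2 : D * (‖T ξ‖ / (2 * (D + 1))) ≤ ‖T ξ‖ / 2 := by
    rw [mul_div_assoc', div_le_div_iff₀ (by positivity) (by positivity)]
    nlinarith
  linarith

end Pool.Agent.H724R3.N
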