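import Mathlib
import Pool.Agent.H724R3.N.Stmts

/-!
# Task STATE
-/

set_option autoImplicit false

namespace Pool.Agent.H724R3.N

open Filter Topology
open scoped ComplexOrder

theorem geom_zero (m n : ℕ) (hn : n ≠ 0) (hm : n < m + 1) :
    ∑ k ∈ Finset.range (m + 1), (Complex.exp (2 * Real.pi * Complex.I *
      (((k : ℝ) / ((m + 1 : ℕ) : ℝ) : ℝ) : ℂ))) ^ n = 0 := by
  have hprim := Complex.isPrimitiveRoot_exp (m + 1) (Nat.succ_ne_zero m)
  set z : ℂ := Complex.exp (2 * Real.pi * Complex.I / ((m + 1 : ℕ) : ℂ)) with hz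
  have h1 : z ^ n ≠ 1 := hprim.pow_ne_one_of_pos_of_lt hn hm
  have h2 : ∀ k : ℕ, (Complex.exp (2 * Real.pi * Complex.I *
      (((k : ℝ) / ((m + 1 : ℕ) : ℝ) : ℝ) : ℂ))) ^ n = (z ^ n) ^ k := by
    intro k
    rw [← pow_mul, mul_comm n k, pow_mul]
    congr 1
    rw [hz, ← Complex.exp_nat_mul]
    congr 1
    push_cast
    ring
  simp only [h2]
  rw [geom_sum_eq h1, ← pow_mul, mul_comm n, pow_mul, hprim.pow_eq_one, one_pow, sub_self,
    zero_div]

theorem taskState : TaskState := by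
  intro Ω _ _ _ f hf
  have hw : ∀ m k : ℕ, ∃ w : Ω, k < m + 1 → ((f w : unitInterval) : ℝ) =
      (k : ℝ) / ((m + 1 : ℕ) : ℝ) := by
    intro m k
    by_cases hk : k < m + 1
    · have h0 : (0 : ℝ) < ((m + 1 : ℕ) : ℝ) := by positivity
      have h1 : (k : ℝ) / ((m + 1 : ℕ) : ℝ) ∈ unitInterval := by
        refine ⟨by positivity, ?_⟩
        rw [div_le_one h0]
        exact_mod_cast hk.le
      obtain ⟨w, hw⟩ := hf ⟨_, h1⟩
      exact ⟨w, fun _ => by rw [hw]⟩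
    · obtain ⟨w, -⟩ := hf 0
      exact ⟨w, fun h => absurd h hk⟩
  choose w hw using hw
  let A : ℕ → C(Ω, ℂ) → ℂ := fun m x =>
    (((m + 1 : ℕ) : ℂ))⁻¹ * ∑ k ∈ Finset.range (m + 1), x (w m k)
  have hne : ∀ m : ℕ, (((m + 1 : ℕ) : ℂ)) ≠ 0 := fun m => by
    exact_mod_cast Nat.succ_ne_zero m
  have hbd : ∀ m x, ‖A m x‖ ≤ ‖x‖ := by
    intro m x
    change ‖(((m + 1 : ℕ) : ℂ))⁻¹ * ∑ k ∈ Finset.range (m + 1), x (w m k)‖ ≤ ‖x‖
    rw [norm_mul, norm_inv, Complex.norm_natCast]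
    have h0 : (0 : ℝ) < ((m + 1 : ℕ) : ℝ) := by positivity
    rw [inv_mul_le_iff₀ h0]
    refine (norm_sum_le _ _).trans ((Finset.sum_le_sum fun k _ => x.norm_coe_le_norm _).trans ?_)
    rw [Finset.sum_const, Finset.card_range, nsmul_eq_mul]
  have hlim : ∀ x : C(Ω, ℂ), ∃ c : ℂ, Tendsto (fun m => A m x) (hyperfilter ℕ : Filter ℕ)
      (𝓝 c) := by
    intro x
    have h1 : IsCompact (Metric.closedBall (0 : ℂ) ‖x‖) := isCompact_closedBall _ _
    obtain ⟨c, -, hc⟩ := h1.ultrafilter_le_nhds ((hyperfilter ℕ).map fun m => A m x) (by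
      rw [le_principal_iff]
      refine Filter.mem_map.mpr (Filter.univ_mem' fun m => ?_)
      change A m x ∈ Metric.closedBall (0 : ℂ) ‖x‖
      rw [mem_closedBall_zero_iff]
      exact hbd m x)
    exact ⟨c, hc⟩
  choose φ hφ using hlim
  refine ⟨{ toFun := φ, map_add' := ?_, map_smul' := ?_ }, ?_, ?_, ?_⟩
  · intro x y
    refine tendsto_nhds_unique (hφ (x + y)) ?_
    refine ((hφ x).add (hφ y)).congr fun m => ?_
    change _ * _ + _ * _ = _ * _
    rw [← mul_add, ← Finset.sum_add_distrib]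
    rfl
  · intro c x
    refine tendsto_nhds_unique (hφ (c • x)) ?_
    refine ((hφ x).const_mul c).congr fun m => ?_
    change c * (_ * _) = _ * ∑ k ∈ Finset.range (m + 1), c * x (w m k)
    rw [← Finset.mul_sum]
    ring
  · refine tendsto_nhds_unique (hφ 1) ?_
    refine tendsto_const_nhds.congr fun m => ?_
    change (1 : ℂ) = (((m + 1 : ℕ) : ℂ))⁻¹ * ∑ k ∈ Finset.range (m + 1), (1 : ℂ)
    rw [Finset.sum_const, Finset.card_range, nsmul_eq_mul, mul_one, inv_mul_cancel₀ (hne m)]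
  · intro x
    refine ge_of_tendsto' (hφ (star x * x)) fun m => ?_
    change (0 : ℂ) ≤ (((m + 1 : ℕ) : ℂ))⁻¹ * ∑ k ∈ Finset.range (m + 1),
      (star (x (w m k)) * x (w m k))
    have h1 : (0 : ℂ) ≤ (((m + 1 : ℕ) : ℂ))⁻¹ := by
      have : (((m + 1 : ℕ) : ℂ))⁻¹ = (((((m + 1 : ℕ) : ℝ))⁻¹ : ℝ) : ℂ) := by push_cast; rfl
      rw [this]
      exact_mod_cast (by positivity : (0 : ℝ) ≤ (((m + 1 : ℕ) : ℝ))⁻¹)
    exact mul_nonneg h1 (Finset.sum_nonneg fun k _ => star_mul_self_nonneg _)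
  · intro u hu n hn
    refine tendsto_nhds_unique (hφ (u ^ n)) ?_
    have h1 : ∀ᶠ m in (hyperfilter ℕ : Filter ℕ), n < m + 1 := by
      have h2 : ∀ᶠ m in atTop, n < m + 1 := by
        filter_upwards [eventually_ge_atTop n] with m hm
        omega
      exact Nat.hyperfilter_le_atTop h2
    refine tendsto_const_nhds.congr' ?_
    filter_upwards [h1] with m hm
    change (0 : ℂ) = (((m + 1 : ℕ) : ℂ))⁻¹ * ∑ k ∈ Finset.range (m + 1), (u (w m k)) ^ n
    have h3 : ∑ k ∈ Finset.range (m + 1), (u (w m k)) ^ n = 0 := by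
      rw [← geom_zero m n hn hm]
      refine Finset.sum_congr rfl fun k hk => ?_
      rw [hu, hw m k (Finset.mem_range.mp hk)]
    rw [h3, mul_zero]

end Pool.Agent.H724R3.N
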