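import Mathlib
import Pool.Agent.H724R3.N.Main3
import Pool.Agent.H724R3.N.TFinal
import Pool.Agent.H724R3.N.TComm
import Pool.Agent.H724R3.N.TState
import Pool.Agent.H724R3.N.TGNS
import Pool.Agent.H724R3.N.THSC
import Pool.Agent.H724R3.N.TBeta

set_option autoImplicit false
set_option linter.unusedSectionVars false

/-!
The algebras `C(Ω)`.
-/

namespace Pool.Agent.H724R3.N

open Filter Topology Pool.Agent.Helper832.GS CommAux
open scoped ENNReal ComplexOrder

noncomputable section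

theorem comm3 (Ω : Type) [TopologicalSpace Ω] [CompactSpace Ω] [T2Space Ω]
    (f : C(Ω, unitInterval)) (hf : Function.Surjective f) :
    db C(Ω, ℂ) = ⊤ ∧ (regB C(Ω, ℂ)).dh = ⊤ := by
  obtain ⟨φ, hφ1, hφ2, hφ3⟩ := taskState Ω f hf
  have hu : ∀ w, Ee f 1 w = Complex.exp (2 * Real.pi * Complex.I * ((f w : ℝ) : ℂ)) := by
    intro w
    simp [Ee]
  have hφu : ∀ n : ℕ, n ≠ 0 → φ (Ee f 1 ^ n) = 0 := hφ3 (Ee f 1) hu
  obtain ⟨H, _, _, _, π, ξ, hξ, hπ1, hπm, hw⟩ :=
    taskGNS Ω φ hφ1 hφ2 (Ee f 1) (norm_Ee_apply f 1) hφu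
  have : Nontrivial H := ⟨ξ, 0, hξ⟩
  obtain ⟨w, b, _⟩ := exists_hilbertBasis ℂ H
  have hrep : IsRep (fun g : Multiplicative ℤ => Ee f (Multiplicative.toAdd g) - 1) := by
    refine ⟨?_, ?_, ?_⟩
    · show Ee f (Multiplicative.toAdd 1) - 1 = 0
      rw [toAdd_one, Ee_zero, sub_self]
    · intro g h
      show Ee f (Multiplicative.toAdd (g * h)) - 1 = _
      rw [toAdd_mul, Ee_add]
      ring
    · refine ⟨‖(1 : C(Ω, ℂ))‖ + 1, fun g => ?_⟩
      refine (norm_sub_le _ _).trans ?_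
      have := norm_Ee f (Multiplicative.toAdd g)
      linarith
  have key := main3 C(Ω, ℂ) taskFinal H w b π hπm (Multiplicative ℤ) _ hrep ℕ
    (Filter.hyperfilter ℕ) FF isFol ?_
  · exact ⟨key.1, key.2 1 one_mul mul_one (by rw [hπ1]; exact one_ne_zero)⟩
  intro T hT hcomm
  refine taskHSC H w b (fun n => π (Ee f n)) (fun n => π (Ee f (-(n : ℤ)))) ?_ ?_ ?_ T hT ?_
  · intro n
    show π (Ee f (-(n : ℤ))) * π (Ee f n) = 1
    rw [← hπm, ← Ee_add, neg_add_cancel, Ee_zero, hπ1]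
  · refine ⟨‖π‖, fun n => ⟨?_, ?_⟩⟩
    · refine (π.le_opNorm _).trans ?_
      have := norm_Ee f (n : ℤ)
      nlinarith [norm_nonneg π]
    · refine (π.le_opNorm _).trans ?_
      have := norm_Ee f (-(n : ℤ))
      nlinarith [norm_nonneg π]
  · intro ξ' η
    have := hw ξ' η
    simp_rw [Ee_pow] at this
    exact this
  · intro n
    have h1 := hcomm (Multiplicative.ofAdd (n : ℤ))
    have h2 : π (Ee f n) = π (Ee f (Multiplicative.toAdd (Multiplicative.ofAdd (n : ℤ))) - 1) + 1 := by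
      rw [map_sub, hπ1, toAdd_ofAdd]
      abel
    show π (Ee f n) * T = T * π (Ee f n)
    rw [h2, add_mul, mul_add, h1, one_mul, mul_one]

end

end Pool.Agent.H724R3.N
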