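import Mathlib
import Pool.Agent.H724R3.N.Stmts

set_option autoImplicit false

/-! The Banach algebra of the compact operators on a Hilbert space. -/

namespace Pool.Agent.H724R3.N

open Pool.Agent.Helper832.GS

/-- The algebra of the compact operators on the Hilbert space `H`, with the operator norm. -/
def KH (H : Type) [NormedAddCommGroup H] [InnerProductSpace ℂ H] [CompleteSpace H] :
    NonUnitalSubalgebra ℂ (H →L[ℂ] H) where
  carrier := {T | IsCompactOperator T}
  add_mem' := fun {a _} ha hb => IsCompactOperator.add (show IsCompactOperator a from ha) hb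
  zero_mem' := isCompactOperator_zero
  mul_mem' := fun {a b} ha _ => IsCompactOperator.comp_clm (show IsCompactOperator a from ha) b
  smul_mem' := fun c {a} ha => IsCompactOperator.smul (show IsCompactOperator a from ha) c

section

variable (H : Type) [NormedAddCommGroup H] [InnerProductSpace ℂ H] [CompleteSpace H]

/-- The compact operators form a normed space. -/
instance KH.instNormedSpace : NormedSpace ℂ (KH H) :=
  { (NonUnitalSubalgebra.instModule : Module ℂ (KH H)) with
    norm_smul_le := fun c x => norm_smul_le c (x : H →L[ℂ] H) }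

/-- The algebra of the compact operators is complete. -/
instance KH.instCompleteSpace : CompleteSpace (KH H) :=
  (isClosed_setOfPred_isCompactOperator (σ₁₂ := RingHom.id ℂ) (M₁ := H)
    (M₂ := H)).completeSpace_coe

/-- The inclusion of the algebra of the compact operators. -/
theorem kappa_data : ∃ κ : (KH H) →L[ℂ] (H →L[ℂ] H), (∀ x, κ x = (x : H →L[ℂ] H)) ∧
    (∀ x, ‖κ x‖ = ‖x‖) ∧ (∀ x y, κ (x * y) = κ x * κ y) ∧
    ∀ T : H →L[ℂ] H, FiniteDimensional ℂ (LinearMap.range T.toLinearMap) → ∃ x, κ x = T := by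
  let κ0 : (KH H) →ₗ[ℂ] (H →L[ℂ] H) :=
    { toFun := fun x => (x : H →L[ℂ] H)
      map_add' := fun _ _ => rfl
      map_smul' := fun _ _ => rfl }
  have h0 : ∀ x : KH H, ‖κ0 x‖ ≤ 1 * ‖x‖ := fun x => by
    rw [one_mul]
    exact le_rfl
  refine ⟨κ0.mkContinuous 1 h0, fun _ => rfl, fun _ => rfl, fun _ _ => rfl, fun T hT => ?_⟩
  have hc : IsCompactOperator T := by
    have : ProperSpace (LinearMap.range T.toLinearMap) :=
      FiniteDimensional.proper ℂ (LinearMap.range T.toLinearMap)
    let T' : H →L[ℂ] (LinearMap.range T.toLinearMap) :=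
      T.codRestrict _ fun x => ⟨x, rfl⟩
    have h1 : IsCompactOperator T' := isCompactOperator_of_locallyCompactSpace_dom T'
    exact h1.clm_comp (LinearMap.range T.toLinearMap).subtypeL
  exact ⟨⟨T, hc⟩, rfl⟩

end

theorem db_KH (hM : MainStatement) (h1 : TaskPermF) (h2 : TaskPermR) (h3 : TaskOper)
    (H : Type) [NormedAddCommGroup H] [InnerProductSpace ℂ H] [CompleteSpace H]
    (hH : ¬ FiniteDimensional ℂ H) : db (KH H) = ⊤ := by
  obtain ⟨κ, -, k1, k2, k3⟩ := kappa_data H
  exact h3 hM h1 h2 H hH (KH H) κ k1 k2 k3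

theorem db_BH (hM : MainStatement) (h1 : TaskPermF) (h2 : TaskPermR) (h3 : TaskOper)
    (H : Type) [NormedAddCommGroup H] [InnerProductSpace ℂ H] [CompleteSpace H]
    (hH : ¬ FiniteDimensional ℂ H) : db (H →L[ℂ] H) = ⊤ :=
  h3 hM h1 h2 H hH (H →L[ℂ] H) (ContinuousLinearMap.id ℂ _) (fun _ => rfl) (fun _ _ => rfl)
    fun T _ => ⟨T, rfl⟩

end Pool.Agent.H724R3.N
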