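import Mathlib

set_option autoImplicit false

/-! A compact Hausdorff space which is not scattered maps onto `[0,1]` (Pelczynski-Semadeni). -/

namespace Pool.Agent.H724R3.N

open Set Filter Topology

section

variable {Ω : Type} [TopologicalSpace Ω]

/-- the first `n` functions are independent over `S` -/
def ScatGood (S : Set Ω) (n : ℕ) (h : ℕ → C(Ω, ℝ)) : Prop :=
  ∀ b : ℕ → Bool, ∃ x ∈ S, ∀ i < n, (if b i then 2 / 3 < h i x else h i x < 1 / 3)

theorem scat_step [CompactSpace Ω] [T2Space Ω] (S : Set Ω) (hS : Preperfect S) (n : ℕ)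
    (h : ℕ → C(Ω, ℝ)) (hg : ScatGood S n h) :
    ∃ h' : C(Ω, ℝ), ScatGood S (n + 1) (Function.update h n h') := by
  classical
  let ext : (Fin n → Bool) → ℕ → Bool := fun b i => if hi : i < n then b ⟨i, hi⟩ else false
  choose x hxS hx using fun b : Fin n → Bool => hg (ext b)
  have hopen : ∀ b : Fin n → Bool,
      IsOpen {y : Ω | ∀ i < n, (if ext b i then 2 / 3 < h i y else h i y < 1 / 3)} := by
    intro b
    have : {y : Ω | ∀ i < n, (if ext b i then 2 / 3 < h i y else h i y < 1 / 3)} =
        ⋂ i ∈ Finset.range n, {y : Ω | (if ext b i then 2 / 3 < h i y else h i y < 1 / 3)} := by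
      ext y
      simp
    rw [this]
    refine isOpen_biInter_finset fun i _ => ?_
    by_cases hb : ext b i = true
    · simp only [hb, if_true]
      exact isOpen_lt continuous_const (h i).continuous
    · simp only [hb]
      exact isOpen_lt (h i).continuous continuous_const
  have hy : ∀ b : Fin n → Bool, ∃ y ∈ S,
      (∀ i < n, (if ext b i then 2 / 3 < h i y else h i y < 1 / 3)) ∧ y ≠ x b := by
    intro b
    obtain ⟨y, hy, hne⟩ := accPt_iff_nhds.1 (hS (x b) (hxS b)) _ ((hopen b).mem_nhds (hx b))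
    exact ⟨y, hy.2, hy.1, hne⟩
  choose y hyS hy hyne using hy
  have hdisj : Disjoint (Set.range x) (Set.range y) := by
    rw [Set.disjoint_left]
    rintro _ ⟨b, rfl⟩ ⟨b', hb'⟩
    by_cases hbb : b = b'
    · subst hbb
      exact hyne b hb'
    · obtain ⟨i, hi⟩ := Function.ne_iff.1 hbb
      have h1 := hx b i i.2
      have h2 := hy b' i i.2
      rw [hb'] at h2
      have h3 : ext b i = b i := by simp [ext]
      have h4 : ext b' i = b' i := by simp [ext]
      rw [h3] at h1
      rw [h4] at h2
      cases hbi : b i <;> cases hbi' : b' i <;> simp [hbi, hbi'] at h1 h2 hi <;> linarith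
  obtain ⟨f, hf0, hf1, _⟩ := exists_continuous_zero_one_of_isClosed
    (Set.finite_range x).isClosed (Set.finite_range y).isClosed hdisj
  refine ⟨f, fun b => ?_⟩
  let b0 : Fin n → Bool := fun i => b i
  have hext : ∀ i < n, ext b0 i = b i := by
    intro i hi
    simp [ext, b0, hi]
  have hup : ∀ i < n, Function.update h n f i = h i := by
    intro i hi
    rw [Function.update_of_ne hi.ne]
  by_cases hbn : b n = true
  · refine ⟨y b0, hyS b0, fun i hi => ?_⟩
    rcases Nat.lt_succ_iff_lt_or_eq.1 hi with h1 | h1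
    · rw [hup i h1, ← hext i h1]
      exact hy b0 i h1
    · subst h1
      rw [Function.update_self, if_pos hbn, hf1 ⟨b0, rfl⟩]
      norm_num
  · refine ⟨x b0, hxS b0, fun i hi => ?_⟩
    rcases Nat.lt_succ_iff_lt_or_eq.1 hi with h1 | h1
    · rw [hup i h1, ← hext i h1]
      exact hx b0 i h1
    · subst h1
      rw [Function.update_self, if_neg hbn, hf0 ⟨b0, rfl⟩]
      norm_num

theorem scat_seq [CompactSpace Ω] [T2Space Ω] (S : Set Ω) (hne : S.Nonempty)
    (hS : Preperfect S) : ∃ h : ℕ → C(Ω, ℝ), ∀ n, ScatGood S n h := by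
  classical
  let H : (n : ℕ) → {h : ℕ → C(Ω, ℝ) // ScatGood S n h} := fun n =>
    Nat.rec (motive := fun n => {h : ℕ → C(Ω, ℝ) // ScatGood S n h})
      ⟨fun _ => 0, fun _ => ⟨hne.some, hne.some_mem, fun i hi => absurd hi (Nat.not_lt_zero i)⟩⟩
      (fun n p => ⟨Function.update p.1 n (scat_step S hS n p.1 p.2).choose,
        (scat_step S hS n p.1 p.2).choose_spec⟩) n
  have hsucc : ∀ n i, i ≠ n → (H (n + 1)).1 i = (H n).1 i := by
    intro n i hi
    change Function.update (H n).1 n _ i = (H n).1 i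
    rw [Function.update_of_ne hi]
  have hstab : ∀ n i, i < n → (H n).1 i = (H (i + 1)).1 i := by
    intro n i hi
    induction n, hi using Nat.le_induction with
    | base => rfl
    | succ n hn ih =>
      rw [hsucc n i (by omega), ih]
  refine ⟨fun i => (H (i + 1)).1 i, fun n b => ?_⟩
  obtain ⟨x, hx, hx'⟩ := (H n).2 b
  refine ⟨x, hx, fun i hi => ?_⟩
  have := hx' i hi
  rw [hstab n i hi] at this
  exact this

end

/-- truncation -/
noncomputable def scatT (t : ℝ) : ℝ := max 0 (min 1 (3 * t - 1))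

theorem scatT_cont : Continuous scatT := by
  unfold scatT
  fun_prop

theorem scatT_nonneg (t : ℝ) : 0 ≤ scatT t := le_max_left _ _

theorem scatT_le (t : ℝ) : scatT t ≤ 1 := max_le zero_le_one (min_le_left _ _)

theorem scat (Ω : Type) [TopologicalSpace Ω] [CompactSpace Ω] [T2Space Ω] (S : Set Ω)
    (hne : S.Nonempty) (hS : Preperfect S) :
    ∃ f : C(Ω, unitInterval), Function.Surjective f := by
  classical
  obtain ⟨h, hh⟩ := scat_seq S hne hS
  let u : ℕ → ℝ := fun n => ((2 : ℝ) ^ (n + 1))⁻¹
  have hu : HasSum u 1 := by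
    have h1 := hasSum_geometric_two' (1 : ℝ)
    have h2 : u = fun n : ℕ => (1 : ℝ) / 2 / 2 ^ n := by
      funext n
      change ((2 : ℝ) ^ (n + 1))⁻¹ = 1 / 2 / 2 ^ n
      rw [pow_succ]
      field_simp
    rw [h2]
    exact h1
  let F : Ω → ℝ := fun x => ∑' n, scatT (h n x) * u n
  have hu0 : ∀ n, 0 ≤ u n := fun n => by positivity
  have hle : ∀ n x, scatT (h n x) * u n ≤ u n := fun n x =>
    mul_le_of_le_one_left (hu0 n) (scatT_le _)
  have h0 : ∀ n x, 0 ≤ scatT (h n x) * u n := fun n x => mul_nonneg (scatT_nonneg _) (hu0 n)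
  have hs : ∀ x, Summable fun n => scatT (h n x) * u n := fun x =>
    Summable.of_nonneg_of_le (fun n => h0 n x) (fun n => hle n x) hu.summable
  have hF : Continuous F := by
    refine continuous_tsum (u := u) (fun n => ?_) hu.summable fun n x => ?_
    · exact (scatT_cont.comp (h n).continuous).mul continuous_const
    · rw [Real.norm_eq_abs, abs_of_nonneg (h0 n x)]
      exact hle n x
  have hF01 : ∀ x, F x ∈ Set.Icc (0 : ℝ) 1 := by
    intro x
    refine ⟨tsum_nonneg fun n => h0 n x, ?_⟩
    rw [← hu.tsum_eq]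
    exact (hs x).tsum_le_tsum (fun n => hle n x) hu.summable
  refine ⟨⟨fun x => ⟨F x, hF01 x⟩, hF.subtype_mk _⟩, ?_⟩
  rintro ⟨y, hy⟩
  obtain ⟨d, -, hd⟩ := Real.ofDigits_SurjOn (b := 2) (by norm_num) hy
  let b : ℕ → Bool := fun n => decide (d n = 1)
  obtain ⟨x, -, hx⟩ := isCompact_univ.inter_iInter_nonempty
    (fun i : ℕ => {x : Ω | if b i then 2 / 3 ≤ h i x else h i x ≤ 1 / 3}) (by
      intro i
      by_cases hb : b i = true
      · simp only [hb, if_true]
        exact isClosed_le continuous_const (h i).continuous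
      · simp only [hb]
        exact isClosed_le (h i).continuous continuous_const) (by
      intro s
      obtain ⟨N, hN⟩ := s.exists_nat_subset_range
      obtain ⟨x, -, hx⟩ := hh N b
      refine ⟨x, trivial, ?_⟩
      simp only [Set.mem_iInter]
      intro i hi
      have h1 := hx i (Finset.mem_range.1 (hN hi))
      simp only [Set.mem_ofPred_eq]
      split_ifs with hb
      · rw [if_pos hb] at h1
        exact h1.le
      · rw [if_neg hb] at h1
        exact h1.le)
  refine ⟨x, Subtype.ext ?_⟩
  change F x = y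
  rw [← hd]
  change ∑' n, scatT (h n x) * u n = ∑' n, Real.ofDigitsTerm d n
  refine tsum_congr fun n => ?_
  have h1 : if b n then 2 / 3 ≤ h n x else h n x ≤ 1 / 3 := Set.mem_iInter.1 hx n
  unfold Real.ofDigitsTerm
  change scatT (h n x) * ((2 : ℝ) ^ (n + 1))⁻¹ = ((d n : ℕ) : ℝ) * (((2 : ℕ) : ℝ) ^ (n + 1))⁻¹
  push_cast
  congr 1
  by_cases hb : b n = true
  · rw [if_pos hb] at h1
    have h2 : d n = 1 := of_decide_eq_true hb
    rw [h2, scatT, min_eq_left (by linarith), max_eq_right (by norm_num)]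
    simp
  · rw [if_neg hb] at h1
    have h2 : d n ≠ 1 := fun h => hb (decide_eq_true h)
    have h3 : d n = 0 := by
      have : ∀ z : Fin 2, z ≠ 1 → z = 0 := by decide
      exact this _ h2
    rw [h3, scatT, max_eq_left]
    · simp
    · exact (min_le_right _ _).trans (by linarith)

end Pool.Agent.H724R3.N
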