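import Mathlib
import Pool.Agent.H724R3.N.Stmts

set_option autoImplicit false

/-! Closed algebras of operators containing the operators of finite rank. -/

namespace Pool.Agent.H724R3.N

theorem taskOper : TaskOper := by
  intro hmain hF hR H _ _ _ hfin A _ _ _ _ _ κ hiso hmul hfr
  obtain ⟨w, b, -⟩ := exists_hilbertBasis ℂ H
  have hw : Infinite w := by
    by_contra hcon
    rw [not_infinite_iff_finite] at hcon
    have := Fintype.ofFinite w
    exact hfin (Module.Finite.of_basis b.toOrthonormalBasis.toBasis)
  have hnt : Nontrivial H := by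
    by_contra hcon
    rw [not_nontrivial_iff_subsingleton] at hcon
    exact hfin inferInstance
  obtain ⟨J, U, F, hFol⟩ := hF w
  obtain ⟨v, hv, hvf, hcomm⟩ := hR H w b
  choose a ha using fun g => hfr (v g) (hvf g)
  have inj : ∀ x y, κ x = κ y → x = y := by
    intro x y hxy
    have h1 : ‖κ (x - y)‖ = 0 := by rw [map_sub, hxy, sub_self, norm_zero]
    rw [hiso, norm_eq_zero, sub_eq_zero] at h1
    exact h1
  have hrep : IsRep a := by
    refine ⟨inj _ _ (by rw [ha, hv.one, map_zero]), fun g h => inj _ _ ?_, ?_⟩
    · rw [map_add, map_add, hmul, ha, ha, ha]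
      exact hv.mul g h
    · obtain ⟨C, hC⟩ := hv.bdd
      exact ⟨C, fun g => by rw [← hiso, ha]; exact hC g⟩
  exact hmain A H w b κ hmul (FPerm w) a hrep J U F hFol
    (fun T hT hc => hcomm T hT (fun g => by rw [← ha]; exact hc g))

end Pool.Agent.H724R3.N
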