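import Mathlib
import Pool.Agent.H724R3.N.Stmts

set_option autoImplicit false

/-!
Task PERMF: the group of finitary permutations has Følner sets.
-/

namespace Pool.Agent.H724R3.N

open Filter Topology

theorem taskPermF : TaskPermF := by
  classical
  intro ι
  have hfin : ∀ s : Finset ι, {g : FPerm ι | ∀ x, x ∉ s → (g : Equiv.Perm ι) x = x}.Finite := by
    intro s
    have h1 : {σ : Equiv.Perm ι | ∀ x, x ∉ s → σ x = x}.Finite := by
      refine (Set.finite_range (Equiv.Perm.ofSubtype (p := fun x => x ∈ s))).subset ?_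
      intro σ hσ
      have hσ' : ∀ x, x ∉ s → σ x = x := hσ
      have hmem : ∀ x, σ x ∈ s ↔ x ∈ s := by
        intro x
        constructor
        · intro h
          by_contra hx
          rw [hσ' x hx] at h
          exact hx h
        · intro h
          by_contra hx
          have h2 := hσ' _ hx
          have h3 := σ.injective h2
          rw [h3] at hx
          exact hx h
      exact ⟨σ.subtypePerm hmem, Equiv.Perm.ofSubtype_subtypePerm hmem (fun x hx => by
        by_contra h
        exact hx (hσ' x h))⟩
    exact h1.preimage (Subtype.val_injective.injOn)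
  refine ⟨Finset ι, Ultrafilter.of atTop, fun s => (hfin s).toFinset, ⟨fun s => ⟨1, ?_⟩, ?_⟩⟩
  · rw [Set.Finite.mem_toFinset]
    intro x _
    rfl
  · intro g
    have hg : {x | (g : Equiv.Perm ι) x ≠ x}.Finite := g.2
    have hev : ∀ᶠ s : Finset ι in atTop, hg.toFinset ≤ s := eventually_ge_atTop _
    have hev' : ∀ᶠ s : Finset ι in (Ultrafilter.of (atTop : Filter (Finset ι)) : Filter (Finset ι)),
        hg.toFinset ≤ s := Ultrafilter.of_le _ hev
    refine tendsto_const_nhds.congr' ?_
    filter_upwards [hev'] with s hs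
    symm
    refine div_eq_zero_iff.2 (Or.inl ?_)
    rw [Nat.cast_eq_zero, Finset.card_eq_zero, Finset.eq_empty_iff_forall_notMem]
    intro k hk
    have hk' := (@Finset.mem_sdiff _ (_) _ _ _).1 hk
    obtain ⟨hk1, hk2⟩ := hk'
    obtain ⟨h, hh, rfl⟩ := (@Finset.mem_image _ _ (_) _ _ _).1 hk1
    apply hk2
    rw [Set.Finite.mem_toFinset] at hh ⊢
    intro x hx
    have h1 : (h : Equiv.Perm ι) x = x := hh x hx
    have h2 : (g : Equiv.Perm ι) x = x := by
      by_contra hne
      exact hx (hs (hg.mem_toFinset.2 hne))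
    show ((g * h : FPerm ι) : Equiv.Perm ι) x = x
    rw [Subgroup.coe_mul, Equiv.Perm.mul_apply, h1, h2]

end Pool.Agent.H724R3.N
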