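import Mathlib
import Pool.Agent.H724R3.N.Stmts

set_option autoImplicit false

/-!
Project H724N: task PERMR (the representation of the finitary permutations on a Hilbert space).
-/

namespace Pool.Agent.H724R3.N

open Filter Topology

noncomputable section

namespace PermR

variable {H : Type} [NormedAddCommGroup H] [InnerProductSpace ℂ H] [CompleteSpace H]
  {ι : Type} (b : HilbertBasis ι ℂ H)

/-- the permuted Hilbert basis -/
def pb (σ : Equiv.Perm ι) : HilbertBasis ι ℂ H :=
  HilbertBasis.mk (v := fun k => b (σ k)) (b.orthonormal.comp σ σ.injective) (by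
    have h1 : Set.range (fun k => b (σ k)) = Set.range b := σ.surjective.range_comp b
    rw [h1]
    exact b.dense_span.ge)

theorem pb_apply (σ : Equiv.Perm ι) (k : ι) : pb b σ k = b (σ k) := by
  have := HilbertBasis.coe_mk (v := fun k => b (σ k)) (b.orthonormal.comp σ σ.injective) (by
    have h1 : Set.range (fun k => b (σ k)) = Set.range b := σ.surjective.range_comp b
    rw [h1]
    exact b.dense_span.ge)
  exact congrFun this k

/-- the unitary permuting the basis -/
def U (σ : Equiv.Perm ι) : H ≃ₗᵢ[ℂ] H := b.repr.trans (pb b σ).repr.symm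

theorem U_b (σ : Equiv.Perm ι) (k : ι) : U b σ (b k) = b (σ k) := by
  classical
  have h1 : U b σ (b k) = (pb b σ).repr.symm (b.repr (b k)) := rfl
  rw [h1, HilbertBasis.repr_self, HilbertBasis.repr_symm_single, pb_apply]

/-- as a continuous linear map -/
def Uc (σ : Equiv.Perm ι) : H →L[ℂ] H := (U b σ).toContinuousLinearEquiv.toContinuousLinearMap

theorem Uc_apply (σ : Equiv.Perm ι) (x : H) : Uc b σ x = U b σ x := rfl

omit [CompleteSpace H] in
theorem dense_b : Dense (Submodule.span ℂ (Set.range b) : Set H) := by
  rw [Submodule.dense_iff_topologicalClosure_eq_top]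
  exact b.dense_span

omit [CompleteSpace H] in
theorem ext_b {S T : H →L[ℂ] H} (h : ∀ k, S (b k) = T (b k)) : S = T := by
  refine ContinuousLinearMap.ext_on (dense_b b) ?_
  rintro _ ⟨k, rfl⟩
  exact h k

end PermR

open PermR

theorem taskPermR : TaskPermR := by
  intro H _ _ _ ι _ b
  classical
  refine ⟨fun g => Uc b g.1 - 1, ⟨?_, ?_, ⟨2, ?_⟩⟩, ?_, ?_⟩
  · -- one
    have : Uc b (1 : FPerm ι).1 = 1 := by
      apply ext_b b
      intro k
      rw [Uc_apply, U_b]
      simp
    simp only [this, sub_self]
  · intro g h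
    have : Uc b (g * h).1 = Uc b g.1 * Uc b h.1 := by
      apply ext_b b
      intro k
      show U b (g * h).1 (b k) = U b g.1 (U b h.1 (b k))
      rw [U_b, U_b, U_b]
      simp
    simp only [this]
    noncomm_ring
  · intro g
    refine ContinuousLinearMap.opNorm_le_bound _ (by norm_num) fun x => ?_
    have h1 : (Uc b g.1 - 1) x = U b g.1 x - x := by
      simp [Uc_apply]
    rw [h1]
    calc ‖U b g.1 x - x‖ ≤ ‖U b g.1 x‖ + ‖x‖ := norm_sub_le _ _
      _ = 2 * ‖x‖ := by rw [LinearIsometryEquiv.norm_map]; ring
  · intro g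
    set F : Set H := (fun k => b (g.1 k) - b k) '' {x | g.1 x ≠ x} with hF
    have hfin : F.Finite := Set.Finite.image _ g.2
    have : FiniteDimensional ℂ (Submodule.span ℂ F) := FiniteDimensional.span_of_finite ℂ hfin
    have hle : LinearMap.range (Uc b g.1 - 1 : H →L[ℂ] H).toLinearMap ≤ Submodule.span ℂ F := by
      rintro _ ⟨x, rfl⟩
      have hcl : IsClosed ((Submodule.span ℂ F : Submodule ℂ H) : Set H) :=
        Submodule.closed_of_finiteDimensional _
      have hcl2 : IsClosed (((Submodule.span ℂ F).comap
          (Uc b g.1 - 1 : H →L[ℂ] H).toLinearMap : Submodule ℂ H) : Set H) :=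
        hcl.preimage (Uc b g.1 - 1 : H →L[ℂ] H).continuous
      have hsub : Submodule.span ℂ (Set.range b) ≤ (Submodule.span ℂ F).comap
          (Uc b g.1 - 1 : H →L[ℂ] H).toLinearMap := by
        rw [Submodule.span_le]
        rintro _ ⟨k, rfl⟩
        have h1 : (Uc b g.1 - 1 : H →L[ℂ] H) (b k) = b (g.1 k) - b k := by
          show U b g.1 (b k) - b k = b (g.1 k) - b k
          rw [U_b]
        show (Uc b g.1 - 1 : H →L[ℂ] H) (b k) ∈ Submodule.span ℂ F
        rw [h1]
        by_cases hk : g.1 k = k
        · rw [hk, sub_self]; exact Submodule.zero_mem _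
        · exact Submodule.subset_span ⟨k, hk, rfl⟩
      have htop := Submodule.topologicalClosure_minimal _ hsub hcl2
      rw [b.dense_span] at htop
      exact htop (Submodule.mem_top (x := x))
    exact Submodule.finiteDimensional_of_le hle
  · intro T hT hcomm
    have hcomm' : ∀ g : FPerm ι, ∀ x, U b g.1 (T x) = T (U b g.1 x) := by
      intro g x
      have h : U b g.1 (T x) - T x = T (U b g.1 x - x) :=
        congrArg (fun S : H →L[ℂ] H => S x) (hcomm g)
      rw [map_sub] at h
      exact sub_left_injective h
    apply ext_b b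
    intro k
    by_contra hne
    have hne : T (b k) ≠ 0 := hne
    -- all norms are equal
    have hnorm : ∀ k', ‖T (b k')‖ = ‖T (b k)‖ := by
      intro k'
      let g : FPerm ι := ⟨Equiv.swap k k', by
        refine Set.Finite.subset (Set.toFinite {k, k'}) ?_
        intro x hx
        by_contra hx'
        simp only [Set.mem_insert_iff, Set.mem_singleton_iff, not_or] at hx'
        exact hx (Equiv.swap_apply_of_ne_of_ne hx'.1 hx'.2)⟩
      have h1 := hcomm' g (b k)
      have h2 : U b g.1 (b k) = b k' := by
        rw [U_b]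
        show b (Equiv.swap k k' k) = b k'
        rw [Equiv.swap_apply_left]
      rw [h2] at h1
      rw [← h1, LinearIsometryEquiv.norm_map]
    have hlim := hT.tendsto_cofinite_zero
    have hc : (fun k' => ‖T (b k')‖ ^ 2) = fun _ => ‖T (b k)‖ ^ 2 := by
      funext k'; rw [hnorm]
    rw [hc] at hlim
    have h0 := tendsto_nhds_unique hlim tendsto_const_nhds
    have hpos : 0 < ‖T (b k)‖ ^ 2 := by positivity
    linarith

end

end Pool.Agent.H724R3.N
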